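import Pool.Agent.Lib.MP_d98eb9_al.P.Pot
import Pool.Agent.Lib.MP_d98eb9_al.W.Sys

/-! The finite certificate for a subgroup that fixes a complementary component. -/

namespace Pool.Agent.Lib.MP_d98eb9_al.W

open MonoidAlgebra Gen

variable {G : Type} [Group G] {Γ : Gen G} {L : Subgroup G}

namespace CertP

/-- A set of representatives inside `U`. -/
theorem exists_dom (L : Subgroup G) (U : Set G) : ∃ D : Set G, D ⊆ U ∧
    (∀ g ∈ U, ∃ c ∈ L, c⁻¹ * g ∈ D) ∧ ∀ g ∈ D, ∀ c ∈ L, c * g ∈ D → c = 1 := by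
  classical
  let rep : Set G → G := fun O => if h : (O ∩ U).Nonempty then h.some else 1
  have hrep : ∀ O : Set G, (O ∩ U).Nonempty → rep O ∈ O ∩ U := fun O h => by
    simp only [rep, dif_pos h]
    exact h.some_mem
  have hc : ∀ g, ∀ c ∈ L, {x | x * (c * g)⁻¹ ∈ L} = {x | x * g⁻¹ ∈ L} := fun g c hc => by
    ext x
    simp only [Set.mem_ofPred_eq, mul_inv_rev, ← mul_assoc]
    exact L.mul_mem_cancel_right (L.inv_mem hc)
  refine ⟨{g | g ∈ U ∧ g = rep {x | x * g⁻¹ ∈ L}}, fun g hg => hg.1, fun g hg => ?_,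
    fun g hg c h1 h2 => ?_⟩
  · obtain ⟨h1, h2⟩ := hrep {x | x * g⁻¹ ∈ L} ⟨g, by simp, hg⟩
    refine ⟨_, L.inv_mem h1, ?_⟩
    have e : (rep {x | x * g⁻¹ ∈ L} * g⁻¹)⁻¹⁻¹ * g = rep {x | x * g⁻¹ ∈ L} := by simp
    refine ⟨by rw [e]; exact h2, ?_⟩
    rw [inv_inv, hc g _ h1]
    simp
  · have := h2.2
    rw [hc g c h1, ← hg.2] at this
    simpa using this

theorem pr_congr {w : G →* ℤ} {r r' : ZG G} (h : ∀ c ∈ L, r.coeff c = r'.coeff c) :
    pr w L r = pr w L r' := by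
  rw [← sub_eq_zero, ← map_sub]
  refine Rep.pr_eq_zero fun k hk hL => Finsupp.mem_support_iff.mp hk ?_
  simp [h k hL]

/-- A finite cochain whose translates add up to the coboundary of a component. -/
theorem exists_wall (w : G →* ℤ) (hw : ∀ c ∈ L, w c = 1) {k : ℕ} {U : Set G}
    (hU : Γ.Comp (Γ.N k L) U) : ∃ q : Du w L (Fr G Γ.n), ∀ (A : Type) [AddCommGroup A]
      (b : ZG L →+ A) (v : G → A), (∀ (c : L), ∀ g ∈ U, v (c * g) = b (single c⁻¹ 1)) →
      (∀ g, (∀ c ∈ L, c⁻¹ * g ∉ U) → v g = 0) →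
      ∀ x, lsum v (bd Γ.s x) = b (prAt w L x q) := by
  classical
  obtain ⟨D, hD, h1, h2⟩ := exists_dom L U
  have hfin : (D ∩ Γ.N (k + 1) L).Finite := by
    refine ((Gen.ball_finite (Γ := Γ) 1 (k + 1)).biUnion (t := fun f => {g | g ∈ D ∧ g * f⁻¹ ∈ L})
      fun f _ => Set.Subsingleton.finite fun a ha b hb => ?_).subset fun g ⟨hg, c, hc, hd⟩ =>
        Set.mem_biUnion (x := c⁻¹ * g) (by rwa [d_eq] at hd) ⟨hg, by simpa using hc⟩
    have := h2 b hb.1 (a * b⁻¹) (by simpa using L.mul_mem ha.2 (L.inv_mem hb.2))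
      (by simpa using ha.1)
    exact mul_inv_eq_one.mp this
  let f : G → Fin Γ.n → ℤ := fun g i =>
    (if g ∈ Γ.N k L then 1 else 0) * (if g * Γ.s i ∈ D then 1 else 0) -
      (if g * Γ.s i ∈ Γ.N k L then 1 else 0) * (if g ∈ D then 1 else 0)
  obtain ⟨q, hq⟩ := exists_co (ofFun f) (((N_finite (Γ := Γ) hfin 1)).subset
    fun g ⟨i, hi⟩ => by
      rw [ofFun_e] at hi
      have hd := d_gen (Γ := Γ) g i
      by_cases e1 : g ∈ Γ.N k L ∧ g * Γ.s i ∈ D
      · exact ⟨_, ⟨e1.2, mem_N_of_d e1.1 hd⟩, by rwa [d_comm]⟩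
      by_cases e2 : g * Γ.s i ∈ Γ.N k L ∧ g ∈ D
      · exact subset_N _ _ ⟨e2.2, mem_N_of_d e2.1 (by rwa [d_comm])⟩
      · refine absurd ?_ hi
        simp only [f]
        split_ifs <;> simp_all)
  refine ⟨Du.mk w L q, fun A _ b v hv h0 => ?_⟩
  have key : ∀ h, ∃ r : ZG G, (∀ c ∈ L, r.coeff c = if c⁻¹ * h ∈ D then 1 else 0) ∧
      b (pr w L r) = v h := fun h => by
    by_cases e : ∃ c ∈ L, c⁻¹ * h ∈ D
    · obtain ⟨c, hc, e⟩ := e
      refine ⟨single c 1, fun a ha => ?_, ?_⟩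
      · by_cases e2 : a = c
        · simp [e2, e]
        · rw [if_neg fun e3 => e2 ?_]
          · simp [Finsupp.single_eq_of_ne e2]
          · have := h2 _ e (a⁻¹ * c) (L.mul_mem (L.inv_mem ha) hc) (by simpa [mul_assoc] using e3)
            exact inv_mul_eq_one.mp this
      · rw [pr_single_mem (⟨c, hc⟩ : L), hw c hc, ← hv ⟨c, hc⟩ _ (hD e)]
        simp
    · refine ⟨0, fun c hc => by rw [if_neg fun e2 => e ⟨c, hc, e2⟩]; simp, ?_⟩
      rw [map_zero, map_zero, h0 h fun c hc e2 => ?_]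
      obtain ⟨a, ha, e3⟩ := h1 _ e2
      exact e ⟨c * a, L.mul_mem hc ha, by simpa [mul_assoc] using e3⟩
  have hN : ∀ g ∈ Γ.N k L, v g = 0 := fun g hg => h0 g fun c hc e =>
    hU.out e ((mul_mem_N (L.inv_mem hc)).mpr hg)
  have hadj : ∀ g h, g ∉ Γ.N k L → h ∉ Γ.N k L → Γ.d g h ≤ 1 → ∀ c ∈ L, c⁻¹ * g ∈ U →
      c⁻¹ * h ∈ U := fun g h _ hh hd c hc e => by_contra fun e2 =>
    hh ((mul_mem_N (L.inv_mem hc)).mp (hU.adj e e2 (by rwa [d_mul])))
  refine fr_ext (φ := (lsum v).comp (bd Γ.s).toAddMonoidHom)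
    (ψ := b.comp ((pr w L).comp q.toAddMonoidHom)) fun g i => ?_
  obtain ⟨r1, a1, b1⟩ := key (g * Γ.s i)
  obtain ⟨r2, a2, b2⟩ := key g
  have e : pr w L (q (e g i)) = pr w L ((if g ∈ Γ.N k L then 1 else 0 : ℤ) • r1 -
      (if g * Γ.s i ∈ Γ.N k L then 1 else 0 : ℤ) • r2) := pr_congr fun c hc => by
    have := Loc.co_single q c⁻¹ (e g i)
    rw [inv_inv, smul_e, hq, ofFun_e] at this
    rw [← this]
    simp only [f, mul_assoc, mul_mem_N (L.inv_mem hc), ← a1 c hc, ← a2 c hc]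
    split_ifs <;> simp
  change lsum v (bd Γ.s (W.e g i)) = b (pr w L (q (W.e g i)))
  rw [e, Loc.lsum_bd_e, map_sub, map_sub, map_zsmul, map_zsmul, map_zsmul, map_zsmul, b1, b2]
  have hd := d_gen (Γ := Γ) g i
  split_ifs with e1 e2 e2
  · simp
  · simp [hN g e1]
  · simp [hN _ e2]
  · simp only [zero_smul, sub_self]
    rw [sub_eq_zero]
    by_cases e3 : ∃ c ∈ L, c⁻¹ * g ∈ U
    · obtain ⟨c, hc, e3⟩ := e3
      have x1 := hv ⟨c, hc⟩ _ e3
      have x2 := hv ⟨c, hc⟩ _ (hadj _ _ e1 e2 hd c hc e3)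
      simp only [mul_inv_cancel_left] at x1 x2
      rw [x1, x2]
    · rw [h0 g fun c hc e4 => e3 ⟨c, hc, e4⟩, h0 _ fun c hc e4 =>
        e3 ⟨c, hc, hadj _ _ e2 e1 (by rwa [d_comm]) c hc e4⟩]

/-- Orbit representatives of the deep components other than `E`. -/
theorem exists_reps (Γ : Gen G) (L : Subgroup G) (k : ℕ) (E : Set G) :
    ∃ (A : Type) (_ : Fintype A) (U : A → Set G) (r : ℕ),
      (∀ a, Γ.Comp (Γ.N k L) (U a) ∧ ¬ Γ.Near (U a) L ∧ U a ≠ E) ∧
      (∀ a b, ∀ c ∈ L, tr c (U a) = U b → a = b) ∧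
      ∀ W, Γ.Comp (Γ.N k L) W → W ⊆ Γ.N r L ∨ W = E ∨ ∃ a, ∃ c ∈ L, W = tr c (U a) := by
  classical
  obtain ⟨F, hF, -, h2⟩ := comp_finite (Γ := Γ) k L
  let orb : Set G → Set (Set G) := fun W => {V | ∃ c ∈ L, V = tr c W}
  have horb : ∀ W, ∀ c ∈ L, orb (tr c W) = orb W := fun W c hc => Set.ext fun V =>
    ⟨fun ⟨a, ha, e⟩ => ⟨a * c, L.mul_mem ha hc, by rw [e, tr_tr]⟩, fun ⟨a, ha, e⟩ =>
      ⟨a * c⁻¹, L.mul_mem ha (L.inv_mem hc), by rw [e, tr_tr, inv_mul_cancel_right]⟩⟩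
  let S : Set (Set (Set G)) :=
    {O | ∃ W, (Γ.Comp (Γ.N k L) W ∧ ¬ Γ.Near W L ∧ W ≠ E) ∧ O = orb W}
  have hS : S.Finite := (hF.image orb).subset fun O ⟨W, hW, e⟩ => by
    obtain ⟨c, hc, V, hV, e2⟩ := h2 W hW.1
    exact ⟨V, hV, by rw [e, e2, horb V c hc]⟩
  choose U hU hU' using fun a : S => a.2
  have hr : ∀ V : Set G, ∃ r, Γ.Near V L → V ⊆ Γ.N r L := fun V => by
    by_cases e : Γ.Near V L
    · exact ⟨e.choose, fun _ => e.choose_spec⟩
    · exact ⟨0, fun h => absurd h e⟩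
  choose ρ hρ using hr
  refine ⟨S, hS.fintype, U, hF.toFinset.sup ρ, hU, fun a b c hc e => Subtype.ext ?_,
    fun W hW => ?_⟩
  · rw [hU' a, hU' b, ← e, horb _ c hc]
  by_cases e1 : Γ.Near W L
  · obtain ⟨c, hc, V, hV, rfl⟩ := h2 W hW
    have := e1.tr c⁻¹
    rw [tr_inv_tr, tr_subgroup (L.inv_mem hc)] at this
    refine Or.inl fun x hx => (mul_mem_N (L.inv_mem hc)).mp ?_
    exact N_mono (Finset.le_sup (f := ρ) (hF.mem_toFinset.mpr hV)) subset_rfl (hρ V this hx)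
  by_cases e2 : W = E
  · exact Or.inr (Or.inl e2)
  · have : W ∈ orb (U ⟨orb W, W, ⟨hW, e1, e2⟩, rfl⟩) := by
      rw [← hU']
      exact ⟨1, L.one_mem, (tr_one W).symm⟩
    exact Or.inr (Or.inr ⟨_, this⟩)

/-- Elements of a projective submodule whose coordinates come from the ambient module. -/
theorem exists_AA {S M T : Type} [Ring S] [AddCommGroup M] [Module S M] [Fintype T]
    (K : Submodule S M) [Module.Projective S K] (p : T → M) (y : T → K)
    (h : ∀ l : K →ₗ[S] S, ∃ φ : M →ₗ[S] S, ∀ i, l (y i) = φ (p i)) :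
    ∃ AA : M →ₗ[S] M, (∀ v, AA v ∈ K) ∧ ∀ i, AA (p i) = y i := by
  classical
  obtain ⟨s, hs⟩ := Module.projective_def'.mp (inferInstance : Module.Projective S K)
  choose φ hφ using fun x : K => h (Finsupp.lapply x ∘ₗ s)
  refine ⟨∑ x ∈ Finset.univ.biUnion fun i => (s (y i)).support,
    LinearMap.toSpanSingleton S M x ∘ₗ φ x, fun v => ?_, fun i => ?_⟩
  · rw [LinearMap.sum_apply]
    exact K.sum_mem fun x _ => K.smul_mem _ x.2
  · have hx : Finsupp.linearCombination S id (s (y i)) = y i := LinearMap.congr_fun hs (y i)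
    conv_rhs => rw [← hx, Finsupp.linearCombination_apply, Finsupp.sum_of_support_subset _
      (Finset.subset_biUnion_of_mem (fun i => (s (y i)).support) (Finset.mem_univ i)) _ (by simp)]
    rw [LinearMap.sum_apply, Submodule.coe_sum]
    exact Finset.sum_congr rfl fun x _ => by
      rw [LinearMap.comp_apply, ← hφ]
      rfl

end CertP

open CertP in
/-- The certificate. -/
theorem Geo.certificate (X : Geo Γ) (hw : ∀ c ∈ L, X.w c = 1) (hinf : ¬ Γ.Near Set.univ L)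
    {n : ℕ} (t : Fin n → L) (ht : Subgroup.closure (Set.range t) = ⊤) {T : Type} [Fintype T]
    (p : T → Fr L n) (hp : ∀ i, bd t (p i) = 0) :
    ∃ k0, ∀ k, k0 ≤ k → ∀ E, Γ.Comp (Γ.N k L) E → (∀ c ∈ L, tr c E = E) →
      ∃ (A : Type) (_ : Fintype A) (U : A → Set G) (AA : Fr L n →ₗ[ZG L] Fr L n)
        (c : T → A → ZG L) (sig : A → Fr L n),
        (∀ a, Γ.Comp (Γ.N k L) (U a) ∧ ¬ Γ.Near (U a) L ∧ U a ≠ E) ∧
        (∀ a b, ∀ g ∈ L, tr g (U a) = U b → a = b) ∧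
        (∀ v, bd t (AA v) = 0) ∧ (∀ a, bd t (sig a) = 0 ∧ ∀ j, aug L (sig a j) = 0) ∧
        (∀ i, p i - AA (p i) = ∑ a, c i a • sig a) ∧
        ∀ a (s : L), (s : G) ∈ blk L (U a) → ∃ φ : Fr L n →ₗ[ZG L] ZG L,
          ∀ i, c i a * (single s 1 - 1) = φ (p i) := by
  classical
  have := infinite_quot hinf
  have := X.ker_proj L t ht
  obtain ⟨D⟩ := X.dual L
  obtain ⟨α⟩ := exists_alpha D t this
  obtain ⟨β⟩ := exists_beta α ht
  let p' : T → LinearMap.ker (bd t) := fun i => ⟨p i, hp i⟩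
  obtain ⟨k0, hk0⟩ := α.supp_fin p'
  refine ⟨k0, fun k hk E hE hE' => ?_⟩
  let M : Submodule (ZG L)ᵐᵒᵖ (T → ZG L) :=
    { carrier := {x | ∃ φ : Fr L n →ₗ[ZG L] ZG L, ∀ i, x i = φ (p i)}
      add_mem' := fun ⟨φ, h⟩ ⟨ψ, h'⟩ => ⟨φ + ψ, fun i => by simp [h, h']⟩
      zero_mem' := ⟨0, fun i => rfl⟩
      smul_mem' := fun r x ⟨φ, h⟩ => ⟨r • φ, fun i => by simp [h]⟩ }
  let act : ((T → ZG L) ⧸ M) →+ ZG L →+ ((T → ZG L) ⧸ M) :=
    AddMonoidHom.mk' (fun a => AddMonoidHom.mk' (fun r => MulOpposite.op r • a)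
      fun r s => by rw [MulOpposite.op_add, add_smul]) fun a b =>
        AddMonoidHom.ext fun r => smul_add (MulOpposite.op r) a b
  have hact : ∀ x r, act (M.mkQ x) r = M.mkQ fun i => x i * r := fun x r =>
    (map_smul M.mkQ (MulOpposite.op r) x).symm
  have hmul : ∀ a r s, act (act a r) s = act a (r * s) := fun a r s => by
    change MulOpposite.op s • MulOpposite.op r • a = MulOpposite.op (r * s) • a
    rw [smul_smul, MulOpposite.op_mul]
  have hsum : ∀ x : T → ZG L, ∑ j, act (M.mkQ (Pi.single j 1)) (x j) = M.mkQ x := fun x => by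
    simp only [hact]
    rw [← map_sum]
    congr 1
    funext i
    simp [Finset.sum_apply, Pi.single_apply]
  have hz : ∀ x : T → ZG L, M.mkQ x = 0 ↔ ∃ φ : Fr L n →ₗ[ZG L] ZG L, ∀ i, x i = φ (p i) :=
    fun x => Submodule.Quotient.mk_eq_zero M
  have h0 : ∀ i s, ∑ j, act (M.mkQ (Pi.single j 1)) ((p' j).1 i * s) = 0 := fun i s => by
    rw [hsum, hz]
    exact ⟨MulOpposite.op s • Finsupp.lapply i, fun j => rfl⟩
  obtain ⟨u, hu, hc, h4, h5⟩ := α.pot_end act hmul (fun j => M.mkQ (Pi.single j 1)) p'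
    (fun i => by simpa using h0 i 1) (r := k)
    (fun j g i hg => hk0 j g i fun h => hg (N_mono hk subset_rfl h)) hE hE'
  obtain ⟨A, _, U, r, hU, hU1, hU2⟩ := exists_reps Γ L k E
  choose q hq using fun a => exists_wall X.w hw (hU a).1
  choose x0 hx0 using fun a => (hU a).1.ne
  choose c hc' using fun a => M.mkQ_surjective (u (x0 a))
  have hconst : ∀ a, ∀ g ∈ U a, u g = u (x0 a) := fun a g hg =>
    PD.const_conn u h4 (((hU a).1.eq (hx0 a)).le hg)
  let v : A → G → (T → ZG L) ⧸ M := fun a g => if ∃ c ∈ L, c⁻¹ * g ∈ U a then u g else 0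
  have hv : ∀ a x, lsum (v a) (bd Γ.s x) = act (u (x0 a)) (prAt X.w L x (q a)) := fun a =>
    hq a _ _ (v a) (fun c g hg => by
      simp only [v]
      rw [if_pos ⟨c, c.2, by simpa using hg⟩, hc, hconst a g hg, hw c c.2])
      fun g hg => if_neg fun ⟨c, h1, h2⟩ => hg c h1 h2
  have htr : ∀ a, ∀ c ∈ L, Γ.Comp (Γ.N k L) (tr c (U a)) := fun a c hc => by
    have := (hU a).1.tr c
    rwa [tr_N, tr_subgroup hc] at this
  have cert := β.cert (fun j => act (M.mkQ (Pi.single j 1))) p' h0 u (fun g => ∑ a, v a g) hu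
    (fun a => act (u (x0 a))) q (fun x => by
      rw [← Finset.sum_congr rfl fun a _ => hv a x]
      exact (hom_ext (f' := ∑ a, lsum (v a)) (fun g => by simp) _).trans (by simp))
    (r := k + r) fun g hg => by
      have hg' : g ∉ Γ.N k L := fun h => hg (N_mono (by omega) subset_rfl h)
      have hW : Γ.Comp (Γ.N k L) {x | Γ.Conn (Γ.N k L) g x} := ⟨g, hg', rfl⟩
      have hgW : g ∈ {x | Γ.Conn (Γ.N k L) g x} := Conn.refl _ _
      rcases hU2 _ hW with h | h | ⟨a, c, hc, h⟩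
      · exact absurd (N_mono (by omega) subset_rfl (h hgW)) hg
      · rw [h] at hgW
        rw [h5 g hgW]
        refine (Finset.sum_eq_zero fun a _ => if_neg fun ⟨c, h1, h2⟩ => (hU a).2.2 ?_).symm
        rw [← tr_inv_tr c (U a), (htr a c h1).disj hE h2 hgW, hE' _ (L.inv_mem h1)]
      · rw [h] at hgW
        rw [Finset.sum_eq_single a (fun b _ hb => if_neg fun ⟨c2, h1, h2⟩ => hb
          (hU1 b a (c⁻¹ * c2) (L.mul_mem (L.inv_mem hc) h1) (by
            rw [← tr_tr, (htr b c2 h1).disj (htr a c hc) h2 hgW, tr_inv_tr]))) (by simp)]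
        exact (if_pos ⟨c, hc, hgW⟩).symm
  obtain ⟨AA, a1, a2⟩ := exists_AA (LinearMap.ker (bd t)) p
    (fun i => p' i - ∑ a, c a i • β.β2 (q a)) fun l => by
      refine (hz _).mp ?_
      have := cert l
      rw [hsum] at this
      simp only [← hc', hact] at this
      rw [← sub_eq_zero, ← map_sum, ← map_sub] at this
      rw [← this]
      congr 1
      funext i
      refine (map_sub l _ _).trans ?_
      simp [Finset.sum_apply]
  obtain ⟨B⟩ := exists_DB (G := G) (Fr G X.m)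
  refine ⟨A, inferInstance, U, AA, fun i a => c a i, fun a => β.β2 (q a), hU, hU1, a1,
    fun a => ⟨(β.β2 (q a)).2, fun j => ?_⟩, fun i => ?_, fun a s hs => (hz _).mp ?_⟩
  · have := rel B (T := Unit) (fun _ => (aug L).toAddMonoidHom)
      (fun _ => Du.map X.w L X.d1 (q a)) (fun x => by
        have := hq a ℤ (aug L).toAddMonoidHom (fun g => if ∃ c ∈ L, c⁻¹ * g ∈ U a then 1 else 0)
          (fun c g hg => by rw [if_pos ⟨c, c.2, by simpa using hg⟩]; simp)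
          (fun g hg => if_neg fun ⟨c, h1, h2⟩ => hg c h1 h2) (X.d1 x)
        rw [X.ex1.apply_apply_eq_zero, map_zero] at this
        simpa using this.symm) (Finsupp.lapply j ∘ₗ β.β1)
    simpa [β.hβ] using this
  · rw [a2]
    simp [p']
  · have h1 := hc s⁻¹ (x0 a)
    rw [hconst a _ (by
      have := hx0 a
      rw [← hs.2] at this
      simpa using this), hw _ (s⁻¹).2, inv_inv, ← hc', hact] at h1
    rw [← sub_eq_zero, ← map_sub] at h1
    rw [← neg_eq_zero, ← map_neg, ← h1]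
    congr 1
    funext i
    simp [mul_sub]

end Pool.Agent.Lib.MP_d98eb9_al.W
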