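import Pool.Agent.Lib.MP_d98eb9_al.P.UndSt
import Pool.Agent.Lib.MP_d98eb9_al.W.Comp
import Pool.Agent.Lib.MP_d98eb9_al.K.St

/-! Doors give the derivations for the variant of Theorem K. -/

namespace Pool.Agent.Lib.MP_d98eb9_al.W

open MonoidAlgebra Gen

variable {G : Type} [Group G] {Γ : Gen G} {n : ℕ} {Z Z' : Set G} {x y : Fr G n}

/-- The chain only involves cells based in `Z`. -/
def Sup (Z : Set G) (x : Fr G n) : Prop :=
  ∀ φ : Fr G n →+ ℤ, (∀ g ∈ Z, ∀ i, φ (e g i) = 0) → φ x = 0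

open Classical in
/-- The part of a chain that is based in `Z`. -/
noncomputable def prj (Z : Set G) : Fr G n →+ Fr G n :=
  ofFun fun g i => if g ∈ Z then e g i else 0

theorem prj_pos {g : G} (h : g ∈ Z) (i : Fin n) : prj Z (e g i) = e g i := by simp [prj, h]

theorem prj_neg {g : G} (h : g ∉ Z) (i : Fin n) : prj Z (e g i) = 0 := by simp [prj, h]

theorem prj_kill {A : Type} [AddCommGroup A] (φ : Fr G n →+ A) (h : ∀ g ∈ Z, ∀ i, φ (e g i) = 0)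
    (x : Fr G n) : φ (prj Z x) = 0 :=
  fr_ext (φ := φ.comp (prj Z)) (ψ := 0) (fun g i => by
    by_cases hg : g ∈ Z
    · simp [prj_pos hg, h g hg]
    · simp [prj_neg hg]) x

theorem sup_prj (Z : Set G) (x : Fr G n) : Sup Z (prj Z x) := fun φ h => prj_kill φ h x

theorem prj_add (Z : Set G) (x : Fr G n) : prj Z x + prj Zᶜ x = x :=
  fr_ext (φ := prj Z + prj Zᶜ) (ψ := AddMonoidHom.id _) (fun g i => by
    by_cases hg : g ∈ Z
    · simp [prj_pos hg, prj_neg (Z := Zᶜ) (fun h => h hg)]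
    · simp [prj_neg hg, prj_pos (Z := Zᶜ) hg]) x

theorem Sup.prj_eq (h : Sup Z x) : prj Z x = x := by
  have h1 : prj Zᶜ x = 0 := Finsupp.ext fun j => MonoidAlgebra.ext (Finsupp.ext fun k =>
    h (AddMonoidHom.mk' (fun v => (prj Zᶜ v j).coeff k) fun a b => by simp) fun g hg i => by
      simp [prj_neg (Z := Zᶜ) (fun h => h hg)])
  simpa [h1] using prj_add Z x

theorem Sup.kill {A : Type} [AddCommGroup A] (h : Sup Z x) (φ : Fr G n →+ A)
    (hφ : ∀ g ∈ Z, ∀ i, φ (e g i) = 0) : φ x = 0 := h.prj_eq ▸ prj_kill φ hφ x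

theorem Sup.congr {A : Type} [AddCommGroup A] (h : Sup Z x) (φ ψ : Fr G n →+ A)
    (hφ : ∀ g ∈ Z, ∀ i, φ (e g i) = ψ (e g i)) : φ x = ψ x :=
  sub_eq_zero.mp (h.kill (φ - ψ) fun g hg i => sub_eq_zero.mpr (hφ g hg i))

theorem Sup.inter (h : Sup Z x) (h' : Sup Z' x) : Sup (Z ∩ Z') x := fun φ hφ =>
  h.prj_eq ▸ h' (φ.comp (prj Z)) fun g hg i => by
    by_cases hz : g ∈ Z
    · simp [prj_pos hz, hφ g ⟨hz, hg⟩]
    · simp [prj_neg hz]

theorem Sup.mono (h : Sup Z x) (hZ : Z ⊆ Z') : Sup Z' x := fun φ hφ => h φ fun g hg => hφ g (hZ hg)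

theorem sup_zero (Z : Set G) : Sup Z (0 : Fr G n) := fun φ _ => map_zero φ

theorem Sup.add (h : Sup Z x) (h' : Sup Z y) : Sup Z (x + y) := fun φ hφ => by
  rw [map_add, h φ hφ, h' φ hφ, add_zero]

theorem Sup.neg (h : Sup Z x) : Sup Z (-x) := fun φ hφ => by rw [map_neg, h φ hφ, neg_zero]

theorem Sup.sub (h : Sup Z x) (h' : Sup Z y) : Sup Z (x - y) :=
  sub_eq_add_neg x y ▸ h.add h'.neg

theorem Sup.smul (h : Sup Z x) {g : G} (hg : ∀ p ∈ Z, g * p ∈ Z') :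
    Sup Z' ((single g 1 : ZG G) • x) := fun φ hφ =>
  h (φ.comp (DistribSMul.toAddMonoidHom _ (single g 1 : ZG G))) fun p hp i => by
    simpa [smul_e] using hφ _ (hg p hp) i

theorem sup_ball (Γ : Gen G) (x : Fr G n) : ∃ ρ, Sup {p | Γ.d 1 p ≤ ρ} x := by
  obtain ⟨ρ, h⟩ := loc Γ x
  exact ⟨ρ, fun φ hφ => by simpa [← one_def] using h ℤ φ 1 fun p i hp => hφ p hp i⟩

theorem sup_fin (Γ : Gen G) {T : Type} [Finite T] (x : T → Fr G n) :
    ∃ ρ, ∀ t, Sup {p | Γ.d 1 p ≤ ρ} (x t) := by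
  choose ρ h using fun t => sup_ball Γ (x t)
  obtain ⟨r, hr⟩ := (Set.finite_range ρ).bddAbove
  exact ⟨r, fun t => (h t).mono fun p hp => le_trans hp (hr ⟨t, rfl⟩)⟩

theorem sup_map (Γ : Gen G) {m : ℕ} (d : Fr G m →ₗ[ZG G] Fr G n) :
    ∃ l, ∀ Z y, Sup Z y → Sup (Γ.N l Z) (d y) := by
  obtain ⟨l, h⟩ := loc_map Γ d
  exact ⟨l, fun Z y hy φ hφ => hy (φ.comp d.toAddMonoidHom) fun g hg k =>
    h ℤ φ g k fun p i hp => hφ p ⟨g, hg, hp⟩ i⟩

theorem sup_chain {p q : G} (h : Γ.Conn Zᶜ p q) :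
    ∃ x : Fr G Γ.n, bd Γ.s x = single q 1 - single p 1 ∧ Sup Z x :=
  (exists_chain h).imp fun _ e => ⟨e.1, fun φ hφ => e.2 ℤ φ fun g i hg => hφ g (not_not.mp hg) i⟩

theorem Sup.ball_smul {J : Subgroup G} {ρ : ℕ} (h : Sup {p | Γ.d 1 p ≤ ρ} x) {c : G} (hc : c ∈ J) :
    Sup (Γ.N ρ J) ((single c 1 : ZG G) • x) :=
  h.smul fun p hp => ⟨c, hc, by rwa [d_mul_right]⟩

namespace DoorP

theorem sm_sm {M : Type} [AddCommGroup M] [Module (ZG G) M] (a b : G) (v : M) :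
    (single a 1 : ZG G) • (single b 1 : ZG G) • v = (single (a * b) 1 : ZG G) • v := by
  rw [smul_smul, single_mul_single, mul_one]

theorem sm_one {M : Type} [AddCommGroup M] [Module (ZG G) M] (v : M) :
    (single 1 1 : ZG G) • v = v := by rw [← one_def, one_smul]

/-- Derivations of a free group with given values. -/
theorem exists_der {Y M : Type} [AddCommGroup M] [Module (ZG G) M] (π : FreeGroup Y →* G)
    (y : Y → M) : ∃ D : FreeGroup Y → M,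
      (∀ u v, D (u * v) = D u + (single (π u) 1 : ZG G) • D v) ∧ ∀ a, D (FreeGroup.of a) = y a := by
  let T : Y → Equiv.Perm M := fun a =>
    ⟨fun v => y a + (single (π (FreeGroup.of a)) 1 : ZG G) • v,
      fun v => (single (π (FreeGroup.of a))⁻¹ 1 : ZG G) • (v - y a),
      fun v => by simp [sm_sm, sm_one], fun v => by simp [sm_sm, sm_one]⟩
  have key : ∀ w v, FreeGroup.lift T w v = FreeGroup.lift T w 0 + (single (π w) 1 : ZG G) • v := by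
    intro w
    induction w using FreeGroup.induction_on with
    | C1 => simp [sm_one]
    | of a => simp [T]
    | inv_of a _ =>
      intro v
      simp only [map_inv, FreeGroup.lift_apply_of]
      change (single (π (FreeGroup.of a))⁻¹ 1 : ZG G) • (v - y a) =
        (single (π (FreeGroup.of a))⁻¹ 1 : ZG G) • (0 - y a) + _
      rw [← smul_add, zero_sub, neg_add_eq_sub]
    | mul a b ha hb =>
      intro v
      simp only [map_mul, Equiv.Perm.mul_apply]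
      rw [ha, hb, ha (FreeGroup.lift T b 0), smul_add, sm_sm, add_assoc]
  exact ⟨fun w => FreeGroup.lift T w 0, fun u v => by
    simp only [map_mul, Equiv.Perm.mul_apply]
    exact key _ _, fun a => by simp [T]⟩

variable {F : Type} [Group F] {π : F →* G} {D : F → Fr G Γ.n}

theorem der_one (h : ∀ u v, D (u * v) = D u + (single (π u) 1 : ZG G) • D v) : D 1 = 0 := by
  simpa [sm_one] using h 1 1

theorem der_inv (h : ∀ u v, D (u * v) = D u + (single (π u) 1 : ZG G) • D v) (u : F) :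
    D u⁻¹ = -((single (π u)⁻¹ 1 : ZG G) • D u) := by
  have := h u⁻¹ u
  rw [inv_mul_cancel, der_one h, map_inv] at this
  exact eq_neg_of_add_eq_zero_left this.symm

/-- Paths for the elements of a free group. -/
theorem exists_path (Γ : Gen G) {Y : Type} [Finite Y] (π : FreeGroup Y →* G) {L : Subgroup G}
    (hL : ∀ w, π w ∈ L) : ∃ (D : FreeGroup Y → Fr G Γ.n) (c : ℕ),
      (∀ u v, D (u * v) = D u + (single (π u) 1 : ZG G) • D v) ∧
      ∀ w, bd Γ.s (D w) = single (π w) 1 - single 1 1 ∧ Sup (Γ.N c L) (D w) := by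
  choose y hy using fun a => exists_chain (conn_empty (Γ := Γ) 1 (π (FreeGroup.of a)))
  obtain ⟨D, h1, h2⟩ := exists_der π y
  obtain ⟨c, hc⟩ := sup_fin Γ y
  have inv : ∀ g ∈ L, ∀ p ∈ Γ.N c L, g * p ∈ Γ.N c L := fun g hg p hp => (mul_mem_N hg).mpr hp
  refine ⟨D, c, h1, fun w => ?_⟩
  induction w using FreeGroup.induction_on with
  | C1 => simpa [der_one h1] using sup_zero _
  | of a => exact h2 a ▸ ⟨(hy a).1, (hc a).mono fun p hp => ⟨1, L.one_mem, hp⟩⟩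
  | inv_of a ha =>
    rw [der_inv h1]
    exact ⟨by simp [ha.1, mul_sub, single_mul_single],
      (ha.2.smul (inv _ (L.inv_mem (hL _)))).neg⟩
  | mul a b ha hb =>
    rw [h1]
    exact ⟨by simp [ha.1, hb.1, mul_sub, single_mul_single], ha.2.add (hb.2.smul (inv _ (hL a)))⟩

/-- A chain near the image of `S` is homologous to the path of an element of `S`. -/
theorem ret (X : Geo Γ) (h : ∀ u v, D (u * v) = D u + (single (π u) 1 : ZG G) • D v)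
    (hb : ∀ w, bd Γ.s (D w) = single (π w) 1 - single 1 1) (S : Subgroup F) (c : ℕ) :
    ∃ ρ, ∀ t ∈ S.map π, ∀ x, Sup (Γ.N c (S.map π)) x → bd Γ.s x = single t 1 - single 1 1 →
      ∃ θ ∈ S, π θ = t ∧ ∃ y, Sup (Γ.N ρ (S.map π)) y ∧ D θ = x + X.d1 y := by
  classical
  have e1 : ∀ s : G, ∃ θ, s ∈ S.map π → θ ∈ S ∧ π θ = s := fun s => by
    by_cases hs : s ∈ S.map π
    · exact hs.imp fun _ e _ => e
    · exact ⟨1, fun e => (hs e).elim⟩
  choose θ hθ using e1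
  have e2 : ∀ v : G, ∃ s ∈ S.map π, (v ∈ S.map π → s = v) ∧
      (v ∈ Γ.N (c + 1) (S.map π) → Γ.d s v ≤ c + 1) := fun v => by
    by_cases h1 : v ∈ S.map π
    · exact ⟨v, h1, fun _ => rfl, fun _ => by simp⟩
    · by_cases h2 : v ∈ Γ.N (c + 1) (S.map π)
      · exact h2.imp fun s e => ⟨e.1, fun e => (h1 e).elim, fun _ => e.2⟩
      · exact ⟨1, Subgroup.one_mem _, fun e => (h1 e).elim, fun e => (h2 e).elim⟩
  choose σ hσ hσ1 hσ2 using e2
  have e4 : ∀ b : G, ∃ x : Fr G Γ.n, bd Γ.s x = single b 1 - single 1 1 ∧ (b = 1 → x = 0) :=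
    fun b => by
      by_cases hb : b = 1
      · exact ⟨0, by simp [hb], fun _ => rfl⟩
      · exact (exists_chain (conn_empty (Γ := Γ) 1 b)).imp fun _ e => ⟨e.1, fun e => (hb e).elim⟩
  choose lam hlam hlam1 using e4
  have e3 : ∀ z : {b | Γ.d 1 b ≤ c + 1} × {b | Γ.d 1 b ≤ 2 * c + 3} × Fin Γ.n, ∃ y,
      z.2.1.1 ∈ S.map π → X.d1 y = lam z.1 + e (z.1 : G) z.2.2 -
        (single z.2.1.1 1 : ZG G) • lam (z.2.1.1⁻¹ * z.1 * Γ.s z.2.2) - D (θ z.2.1) := fun z => by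
    by_cases hz : z.2.1.1 ∈ S.map π
    · refine ((X.ex1 _).mp ?_).imp fun _ e _ => e
      simp [hlam, bd_e, hb, (hθ _ hz).2, mul_sub, single_mul_single, mul_assoc]
    · exact ⟨0, fun e => (hz e).elim⟩
  choose Y hY using e3
  have := (Gen.ball_finite (Γ := Γ) 1 (c + 1)).to_subtype
  have := (Gen.ball_finite (Γ := Γ) 1 (2 * c + 3)).to_subtype
  obtain ⟨ρ, hρ⟩ := sup_fin Γ Y
  let M : AddSubgroup (Fr G Γ.n) :=
    { carrier := {v | ∃ k ∈ S, π k = 1 ∧ ∃ y, Sup (Γ.N ρ (S.map π)) y ∧ v = D k + X.d1 y}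
      zero_mem' := ⟨1, S.one_mem, map_one π, 0, sup_zero _, by simp [der_one h]⟩
      add_mem' := by
        rintro _ _ ⟨k, a1, a2, y, a3, rfl⟩ ⟨k', b1, b2, y', b3, rfl⟩
        exact ⟨k * k', S.mul_mem a1 b1, by simp [a2, b2], y + y', a3.add b3, by
          rw [h, a2, sm_one, map_add]; abel⟩
      neg_mem' := by
        rintro _ ⟨k, a1, a2, y, a3, rfl⟩
        exact ⟨k⁻¹, S.inv_mem a1, by simp [a2], -y, a3.neg, by
          rw [der_inv h, a2, inv_one, sm_one, map_neg]; abel⟩ }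
  let φ := QuotientAddGroup.mk' M
  let u : G → Fr G Γ.n ⧸ M := fun v => φ (D (θ (σ v)) + (single (σ v) 1 : ZG G) • lam ((σ v)⁻¹ * v))
  have hk : ∀ a ∈ S, ∀ b ∈ S, π a = π b → D a - D b ∈ M := fun a ha b hb' e =>
    ⟨a * b⁻¹, S.mul_mem ha (S.inv_mem hb'), by simp [e], 0, sup_zero _, by
      have := h (a * b⁻¹) b
      rw [inv_mul_cancel_right, map_mul, map_inv, e, mul_inv_cancel, sm_one] at this
      rw [this, map_zero, add_zero, add_sub_cancel_right]⟩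
  have hu : ∀ g ∈ Γ.N c (S.map π), ∀ i, φ (e g i) = u (g * Γ.s i) - u g := fun g hg i => by
    have a1 := hσ2 g (N_mono (Nat.le_succ c) subset_rfl hg)
    have a2 := hσ2 (g * Γ.s i) (mem_N_of_d hg (d_gen g i))
    have a3 : Γ.d 1 ((σ g)⁻¹ * σ (g * Γ.s i)) ≤ 2 * c + 3 := by
      have b1 := d_tri (Γ := Γ) (σ g) g (σ (g * Γ.s i))
      have b2 := d_tri (Γ := Γ) g (g * Γ.s i) (σ (g * Γ.s i))
      have b3 := d_gen (Γ := Γ) g i
      rw [d_comm] at a2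
      rw [← d_eq]
      omega
    have a4 := (S.map π).mul_mem ((S.map π).inv_mem (hσ g)) (hσ (g * Γ.s i))
    have a5 := hY ⟨⟨(σ g)⁻¹ * g, by rwa [d_eq] at a1⟩, ⟨_, a3⟩, i⟩ a4
    have a6 := hk _ (hθ _ (hσ (g * Γ.s i))).1 _ (S.mul_mem (hθ _ (hσ g)).1 (hθ _ a4).1) (by
      rw [map_mul, (hθ _ (hσ g)).2, (hθ _ a4).2, (hθ _ (hσ _)).2, mul_inv_cancel_left])
    have a7 : X.d1 ((single (σ g) 1 : ZG G) • Y ⟨⟨(σ g)⁻¹ * g, by rwa [d_eq] at a1⟩, ⟨_, a3⟩, i⟩)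
        ∈ M := ⟨1, S.one_mem, map_one π, _, (hρ _).ball_smul (hσ g), by rw [der_one h, zero_add]⟩
    rw [← map_sub]
    refine (QuotientAddGroup.mk'_eq_mk' M).mpr ⟨_, M.sub_mem a6 a7, ?_⟩
    rw [map_smul, a5, h, (hθ _ (hσ g)).2]
    simp only [smul_sub, smul_add, sm_sm, smul_e, mul_inv_cancel_left, mul_inv_rev, inv_inv,
      mul_assoc]
    abel
  refine ⟨ρ, fun t ht x hx hbx => ?_⟩
  let ψ : Fr G Γ.n →+ Fr G Γ.n ⧸ M := (lsum u).comp (bd Γ.s).toAddMonoidHom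
  have h1 : φ x = lsum u (bd Γ.s x) := Sup.congr (A := Fr G Γ.n ⧸ M) hx φ ψ fun g hg i =>
    (hu g hg i).trans (Loc.lsum_bd_e Γ.s u g i).symm
  have h2 : ∀ s ∈ S.map π, u s = φ (D (θ s)) := fun s hs => by
    simp only [u, hσ1 s hs, inv_mul_cancel, hlam1 1 rfl, smul_zero, add_zero]
  have h0 := (S.map π).one_mem
  rw [hbx, map_sub, lsum_single, lsum_single, one_smul, one_smul, h2 t ht, h2 1 h0, ← map_sub,
    ← sub_eq_zero, ← map_sub] at h1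
  obtain ⟨k, a1, a2, y, a3, a4⟩ := M.sub_mem ((QuotientAddGroup.eq_zero_iff _).mp h1)
    (hk _ (hθ 1 h0).1 1 S.one_mem (by rw [(hθ 1 h0).2, map_one]))
  refine ⟨k * θ t, S.mul_mem a1 (hθ t ht).1, by rw [map_mul, a2, one_mul, (hθ t ht).2], -y, a3.neg, ?_⟩
  rw [der_one h] at a4
  rw [h, a2, sm_one, map_neg]
  linear_combination (norm := abel) -a4

/-- Two chains with the same boundary, one along `U` and one along `L`, are cut at the wall. -/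
theorem cut (X : Geo Γ) (h : ∀ u v, D (u * v) = D u + (single (π u) 1 : ZG G) • D v)
    (hb : ∀ w, bd Γ.s (D w) = single (π w) 1 - single 1 1) (S : Subgroup F) {L U : Set G}
    (hS : (S.map π : Set G) ⊆ L) (hU : Γ.Near (Γ.fr U) (S.map π)) (hL : L ⊆ Uᶜ) (c : ℕ) :
    ∃ ρ, ∀ t ∈ S.map π, ∀ x x0, Sup (U ∪ Γ.N c (S.map π)) x → Sup (Γ.N c L) x0 →
      bd Γ.s x = single t 1 - single 1 1 → bd Γ.s x0 = single t 1 - single 1 1 →
      ∃ θ ∈ S, π θ = t ∧ ∀ φ : Fr G Γ.n →+ ℤ, (∀ g ∈ Γ.N ρ L, ∀ k, φ (X.d1 (e g k)) = 0) →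
        ((∀ g ∈ U, ∀ k, φ (X.d1 (e g k)) = 0) → φ (D θ) = φ x) ∧
        ((∀ g ∈ Uᶜ, ∀ k, φ (X.d1 (e g k)) = 0) → φ (D θ) = φ x0) := by
  obtain ⟨l, hl⟩ := sup_map Γ X.d1
  obtain ⟨a, ha⟩ := hU
  obtain ⟨ρ, hρ⟩ := ret X h hb S (a + (c + l))
  refine ⟨ρ, fun t ht x x0 hx hx0 b1 b0 => ?_⟩
  obtain ⟨y, hy⟩ := (X.ex1 (x0 - x)).mp (by rw [map_sub, b1, b0, sub_self])
  have e1 : x + X.d1 (prj U y) = x0 - X.d1 (prj Uᶜ y) := by
    rw [← prj_add U y, map_add] at hy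
    linear_combination (norm := abel) hy
  have s1 : Sup (Γ.N (c + l) U ∪ Γ.N c (S.map π)) (x + X.d1 (prj U y)) :=
    (hx.mono (Set.union_subset_union_left _ (subset_N _ _))).add ((hl _ _ (sup_prj U y)).mono
      fun p hp => Or.inl (N_mono (by omega) subset_rfl hp))
  have s2 : Sup (Γ.N (c + l) Uᶜ) (x + X.d1 (prj U y)) :=
    e1 ▸ (hx0.mono (N_mono (by omega) hL)).sub ((hl _ _ (sup_prj Uᶜ y)).mono
      (N_mono (by omega) subset_rfl))
  obtain ⟨θ, h1, h2, y', h3, h4⟩ := hρ t ht _ ((s1.inter s2).mono fun p hp => hp.1.elim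
    (fun e => N_N ha (N_inter_subset _ U ⟨e, hp.2⟩)) fun e => N_mono (by omega) subset_rfl e)
    (by rw [map_add, b1, X.ex1.apply_apply_eq_zero, add_zero])
  refine ⟨θ, h1, h2, fun φ hφ => ?_⟩
  have h5 : φ (X.d1 y') = 0 :=
    h3 (φ.comp X.d1.toAddMonoidHom) fun g hg k => hφ g (N_mono le_rfl hS hg) k
  refine ⟨fun h6 => ?_, fun h6 => ?_⟩
  · have h7 : φ (X.d1 (prj U y)) = 0 := sup_prj U y (φ.comp X.d1.toAddMonoidHom) h6
    rw [h4, map_add, map_add, h5, h7, add_zero, add_zero]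
  · have h7 : φ (X.d1 (prj Uᶜ y)) = 0 := sup_prj Uᶜ y (φ.comp X.d1.toAddMonoidHom) h6
    rw [h4, e1, map_add, map_sub, h5, h7, add_zero, sub_zero]

theorem comp_tr {L : Subgroup G} {k : ℕ} {U : Set G} (h : Γ.Comp (Γ.N k L) U) {c : G}
    (hc : c ∈ L) : Γ.Comp (Γ.N k L) (tr c U) := by
  have := h.tr c
  rwa [tr_N, tr_subgroup hc] at this

theorem fr_near {L H : Subgroup G} {k : ℕ} {U : Set G} (h : Γ.Comp (Γ.N k L) U)
    (hH : ∀ c ∈ L, tr c U = U → c ∈ H) : Γ.Near (U ∩ Γ.fr U) H :=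
  near_of_stab (J := L) ⟨k + 1, fun _ hp => N_N subset_rfl (h.fr_subset hp.2)⟩
    fun c hc _ ha hca => hH c hc ((comp_tr h hc).disj h (mul_mem_tr.mpr ha.1) hca.1)

/-- A deep set contains a far path from a point to a translate. -/
theorem far_path (h1 : OE (⊤ : Subgroup G)) {L : Subgroup G} (hL : (L : Set G).Infinite)
    {U : Set G} (hU : ¬ Γ.Near U L) (r : ℕ) :
    ∃ p ∈ U, p ∉ Γ.N r L ∧ ∃ t ∈ L, t ≠ 1 ∧ Γ.Conn (Γ.N r L) p (t * p) := by
  by_contra hn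
  obtain ⟨T, hT, a1, a2⟩ := comp_finite (Γ := Γ) r L
  obtain ⟨s, hs⟩ := bdd_of_finite (Γ := Γ) ((hT.inter_of_left {W | W.Finite}).biUnion
    (t := fun W => W) fun W hW => hW.2) 1
  refine hU ⟨r + s, fun p hp => ?_⟩
  by_cases hr : p ∈ Γ.N r L
  · exact N_mono (by omega) subset_rfl hr
  have hW : Γ.Comp (Γ.N r L) {q | Γ.Conn (Γ.N r L) p q} := ⟨p, hr, rfl⟩
  have hf := (OE.finite_of_fr h1 ((fr_near (H := ⊥) hW fun c hc e => by_contra fun h =>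
    hn ⟨p, hp, hr, c, hc, h, e.le (mul_mem_tr.mpr (Conn.refl _ _))⟩).finite (by simp))).resolve_right
      fun hf => hL (hf.subset fun c hc e => hW.out e (subset_N _ _ hc))
  obtain ⟨c, hc, W, hWT, e⟩ := a2 _ hW
  have h2 := hs (c⁻¹ * p) (Set.mem_biUnion (x := W) ⟨hWT, by
    simpa [e, tr_inv_tr] using tr_finite c⁻¹ hf⟩ (e.le (Conn.refl _ _)))
  exact ⟨c, hc, by rw [d_eq]; omega⟩

end DoorP

open DoorP

/-- A door: far cocycles inside `U` link cycles near `L`. -/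
def Door (X : Geo Γ) (L : Subgroup G) (U : Set G) : Prop :=
  ∃ c, ∀ ρ, ∃ F : Fr G Γ.n →ₗ[ZG G] ZG G,
    (∀ g k, co F (X.d1 (e g k)) ≠ 0 → g ∈ U ∧ g ∉ Γ.N ρ L) ∧
      ∃ x, bd Γ.s x = 0 ∧ Sup (Γ.N c L) x ∧ co F x ≠ 0

theorem door_of_not_und1 {X : Geo Γ} {L : Subgroup G} {U : Set G} (h : ¬ Und1 X L U) :
    Door X L U := by
  obtain ⟨c, hc⟩ := not_forall.mp h
  refine ⟨c, fun ρ => by_contra fun hn => hc ⟨ρ, fun y hy z hz hs => by_contra fun h0 =>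
    hn ⟨y, fun g k e => ⟨by_contra fun e' => e (hy g k (Or.inr e')),
      fun e' => e (hy g k (Or.inl e'))⟩, z, hz, fun φ hφ => hs φ fun g i hg => hφ g hg i, h0⟩⟩⟩

/-- Doors give the hypotheses of the variant of Theorem K. -/
theorem Geo.doors (X : Geo Γ) {L : Subgroup G} (hL : (L : Set G).Infinite) {Y A : Type}
    [Finite Y] [Finite A] (π : FreeGroup Y →* L) {k : ℕ} (U : A → Set G)
    (hU : ∀ a, Γ.Comp (Γ.N k L) (U a)) (hd : ∀ a, ¬ Γ.Near (U a) L)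
    (hdis : ∀ a b, ∀ g ∈ L, tr g (U b) = U a → a = b) (S : A → Subgroup (FreeGroup Y))
    (hS : ∀ a (g : L), g ∈ (S a).map π ↔ tr (g : G) (U a) = U a) (door : ∀ a, ¬ Und1 X L (U a))
    (R0 : Finset (FreeGroup Y)) (hR : ∀ r ∈ R0, π r = 1) :
    ∃ (d : A → FreeGroup Y → L →₀ ℤ) (n θ : A → FreeGroup Y) (f : A → A → L →₀ ℤ),
      (∀ a, PD3K.IsDer π (d a)) ∧
      (∀ a, n a ∈ S a ∧ π (n a) = 1 ∧ d a (n a) ≠ 0 ∧
        ∀ b g, (b ≠ a ∨ g ∉ (S a).map π) → d b (n a) g = 0) ∧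
      (∀ a, θ a ∈ S a ∧ π (θ a) ≠ 1 ∧ ∀ b g, (b ≠ a ∨ g ∉ (S a).map π) →
        d b (θ a) g = f a b g - f a b ((π (θ a))⁻¹ * g)) ∧
      ∀ r ∈ R0, ∀ a, d a r = 0 := by
  classical
  let π' : FreeGroup Y →* G := L.subtype.comp π
  have hS' : ∀ a, ∀ g ∈ L, tr g (U a) = U a → g ∈ (S a).map π' := fun a g hg e => by
    obtain ⟨w, hw, e'⟩ := (hS a ⟨g, hg⟩).mpr e
    exact ⟨w, hw, congrArg Subtype.val e'⟩
  have hSL : ∀ a, ((S a).map π' : Set G) ⊆ L := by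
    rintro a _ ⟨w, -, rfl⟩
    exact (π w).2
  have hLU : ∀ a, (L : Set G) ⊆ (U a)ᶜ := fun a c hc e => (hU a).out e (subset_N _ _ hc)
  obtain ⟨D, c0, hD, hD'⟩ := exists_path Γ π' (L := L) fun w => (π w).2
  choose c1 hc1 using fun a => door_of_not_und1 (door a)
  obtain ⟨c2, hc2⟩ := (Set.finite_range c1).bddAbove
  choose p0 hp0 using fun a => (hU a).ne
  choose γ0 hγ0 using fun a => exists_chain (conn_empty (Γ := Γ) 1 (p0 a))
  obtain ⟨c3, hc3⟩ := sup_fin Γ γ0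
  choose ρ1 hρ1 using fun a => cut X hD (fun w => (hD' w).1) (S a) (hSL a)
    (Near.trans ⟨1, fr_subset_inner _⟩ (fr_near (hU a) (hS' a))) (hLU a) (c0 + c2 + c3)
  obtain ⟨ρ2, hρ2⟩ := (Set.finite_range ρ1).bddAbove
  choose y0 hy0 using fun r : R0 => (X.ex1 (D r)).mp (by
    rw [(hD' r).1, show π' r = 1 from congrArg Subtype.val (hR r r.2), sub_self])
  obtain ⟨ρ0, hρ0⟩ := sup_fin Γ y0
  choose F hF x hx1 hx2 hx3 using fun a => hc1 a (ρ0 + ρ2)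
  obtain ⟨R, hR'⟩ := bdd_of_finite (Γ := Γ) (Set.finite_iUnion fun a => co_finite (F a)) 1
  let φ : A → L → Fr G Γ.n →+ ℤ := fun b g =>
    (co (F b)).comp (DistribSMul.toAddMonoidHom _ (single (g : G)⁻¹ 1 : ZG G))
  have hφ : ∀ b g v, φ b g v = co (F b) ((single (g : G)⁻¹ 1 : ZG G) • v) := fun _ _ _ => rfl
  have fin : ∀ b v, (Function.support fun g : L => φ b g v).Finite := fun b v =>
    (Loc.co_fin (F b) v).preimage (f := fun g : L => (g : G)⁻¹)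
      (inv_injective.comp Subtype.val_injective).injOn
  let ev : A → Fr G Γ.n → L →₀ ℤ := fun b v => Finsupp.ofSupportFinite _ (fin b v)
  have hev : ∀ b v g, ev b v g = φ b g v := fun _ _ _ => rfl
  have hsm : ∀ b (g t : L) v, φ b g ((single (t : G) 1 : ZG G) • v) = φ b (t⁻¹ * g) v :=
    fun b g t v => by simp [hφ, sm_sm]
  have hδ : ∀ b (g : L) p j, φ b g (X.d1 (e p j)) ≠ 0 → p ∈ tr (g : G) (U b) ∧ p ∉ Γ.N (ρ0 + ρ2) L :=
    fun b g p j h => by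
      rw [hφ, ← map_smul, smul_e] at h
      exact ⟨(hF b _ j h).1, fun e => (hF b _ j h).2 ((mul_mem_N (L.inv_mem g.2)).mpr e)⟩
  have hδ1 : ∀ a b (g : L), ∀ p ∈ Γ.N (ρ1 a) L, ∀ j, φ b g (X.d1 (e p j)) = 0 :=
    fun a b g p hp j => by_contra fun h => (hδ b g p j h).2
      (N_mono (le_trans (hρ2 ⟨a, rfl⟩) (by omega)) subset_rfl hp)
  have hδ2 : ∀ a b (g : L), (b ≠ a ∨ g ∉ (S a).map π) → ∀ p ∈ U a, ∀ j,
      φ b g (X.d1 (e p j)) = 0 := fun a b g hg p hp j => by_contra fun h => by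
    have e1 := (comp_tr (hU b) g.2).disj (hU a) (hδ b g p j h).1 hp
    obtain rfl := hdis a b g g.2 e1
    exact hg.elim (fun e => e rfl) fun e => e ((hS a g).mpr e1)
  have e1 : ∀ a, ∃ n ∈ S a, π n = 1 ∧ ev a (D n) ≠ 0 ∧
      ∀ b g, (b ≠ a ∨ g ∉ (S a).map π) → ev b (D n) g = 0 := fun a => by
    obtain ⟨n, h1, h2, h3⟩ := hρ1 a 1 (Subgroup.one_mem _) 0 (x a) (sup_zero _)
      ((hx2 a).mono (N_mono (le_trans (hc2 ⟨a, rfl⟩) (by omega)) subset_rfl)) (by simp)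
      (by simp [hx1])
    refine ⟨n, h1, Subtype.ext h2, fun e0 => hx3 a ?_, fun b g hg => ?_⟩
    · have h4 := (h3 (φ a 1) (hδ1 a a 1)).2 fun p hp j => by_contra fun h =>
        hp (by simpa using (hδ a 1 p j h).1)
      rw [← hev, e0, hφ] at h4
      simpa [sm_one] using h4.symm
    · rw [hev, (h3 (φ b g) (hδ1 a b g)).1 (hδ2 a b g hg), map_zero]
  have e2 : ∀ a, ∃ θ ∈ S a, ∃ γ, π θ ≠ 1 ∧ ∀ b g, (b ≠ a ∨ g ∉ (S a).map π) →
      ev b (D θ) g = ev b γ g - ev b γ ((π θ)⁻¹ * g) := fun a => by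
    obtain ⟨p, hp, hp', t, ht, ht1, hc⟩ := far_path X.oe hL (hd a) (k + R)
    have hW : Γ.Comp (Γ.N (k + R) L) {q | Γ.Conn (Γ.N (k + R) L) p q} := ⟨p, hp', rfl⟩
    have hWU : {q | Γ.Conn (Γ.N (k + R) L) p q} ⊆ U a := fun q hq =>
      ((hU a).eq hp).ge (Conn.mono hq (N_mono (by omega) subset_rfl))
    have htU := (comp_tr (hU a) ht).disj (hU a) (mul_mem_tr.mpr hp) (hWU hc)
    have htS := hS' a t ht htU
    obtain ⟨μ, m1, m2⟩ := sup_chain (hW.conn (Conn.refl _ _) hc)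
    obtain ⟨γ1, g1, g2⟩ := sup_chain ((hU a).conn (hp0 a) hp)
    have g3 : Sup (U a ∪ Γ.N (c0 + c2 + c3) ((S a).map π')) (γ0 a + γ1) :=
      ((hc3 a).mono fun q hq => Or.inr ⟨1, Subgroup.one_mem _, le_trans hq (by omega)⟩).add
        (g2.mono Set.subset_union_left)
    obtain ⟨θ0, -, t0⟩ := id htS
    obtain ⟨θ, h1, h2, h3⟩ := hρ1 a t htS
      (γ0 a + γ1 + μ - (single t 1 : ZG G) • (γ0 a + γ1)) (D θ0)
      ((g3.add (m2.mono (hWU.trans Set.subset_union_left))).sub (g3.smul fun q hq =>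
        hq.imp (fun e => htU.le (mul_mem_tr.mpr e)) (mul_mem_N htS).mpr))
      ((hD' θ0).2.mono (N_mono (by omega) subset_rfl))
      (by simp [(hγ0 a).1, g1, m1, mul_sub, single_mul_single]) (t0 ▸ (hD' θ0).1)
    have h4 : π θ = ⟨t, ht⟩ := Subtype.ext h2
    refine ⟨θ, h1, γ0 a + γ1, fun e0 => ht1 (congrArg Subtype.val (h4.symm.trans e0)),
      fun b g hg => ?_⟩
    have h5 : φ b g μ = 0 := m2 _ fun q hq i => by_contra fun h => by
      rw [hφ, smul_e] at h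
      exact hW.out hq ((mul_mem_N (L.inv_mem g.2)).mp ⟨1, L.one_mem,
        le_trans (hR' _ (Set.mem_iUnion.mpr ⟨b, i, h⟩)) (by omega)⟩)
    rw [hev, hev, hev, (h3 (φ b g) (hδ1 a b g)).1 (hδ2 a b g hg), map_sub, map_add, h5, add_zero,
      h4, ← hsm b g ⟨t, ht⟩]
  choose n n1 n2 n3 n4 using e1
  choose θ t1 γ t2 t3 using e2
  refine ⟨fun b w => ev b (D w), n, θ, fun a b => ev b (γ a), fun b u v g => ?_,
    fun a => ⟨n1 a, n2 a, n3 a, n4 a⟩, fun a => ⟨t1 a, t2 a, t3 a⟩, fun r hr a => ?_⟩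
  · rw [hev, hev, hev, hD, map_add]
    exact congrArg _ (hsm b g (π u) _)
  · refine Finsupp.ext fun g => ?_
    rw [hev, ← hy0 ⟨r, hr⟩]
    exact hρ0 ⟨r, hr⟩ ((φ a g).comp X.d1.toAddMonoidHom) fun p hp j => by_contra fun h =>
      (hδ a g p j h).2 ⟨1, L.one_mem, le_trans hp (by omega)⟩

end Pool.Agent.Lib.MP_d98eb9_al.W
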