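import Pool.Agent.Lib.MP_d98eb9_al.W.Loc

/-! Fox calculus, and the lift of a finite certificate to a quotient of the free group. -/

namespace Pool.Agent.Lib.MP_d98eb9_al.W

open MonoidAlgebra

namespace Fox

variable {n : ℕ} {Q : Type} [Group Q]

/-- The affine permutation of a generator. -/
noncomputable def aff (g : Q) (v : Fr Q n) : Equiv.Perm (Fr Q n) where
  toFun x := v + (single g 1 : ZG Q) • x
  invFun x := (single g⁻¹ 1 : ZG Q) • (x - v)
  left_inv x := by simp [smul_smul, single_mul_single, ← one_def]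
  right_inv x := by simp [smul_smul, single_mul_single, ← one_def]

theorem exists_fox (n : ℕ) : ∃ δ : FreeGroup (Fin n) → Fr (FreeGroup (Fin n)) n,
    (∀ a b, δ (a * b) = δ a + (single a 1 : ZG (FreeGroup (Fin n))) • δ b) ∧
      ∀ i, δ (FreeGroup.of i) = e 1 i := by
  let P : FreeGroup (Fin n) →* Equiv.Perm (Fr (FreeGroup (Fin n)) n) :=
    FreeGroup.lift fun i => aff (FreeGroup.of i) (e 1 i)
  have h : ∀ a x, P a x = P a 0 + (single a 1 : ZG (FreeGroup (Fin n))) • x := fun a => by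
    induction a using FreeGroup.induction_on with
    | C1 => intro x; simp [← one_def]
    | of i => intro x; simp [P, aff]
    | inv_of i _ =>
      intro x
      have : ∀ y, P (FreeGroup.of i)⁻¹ y =
          (single (FreeGroup.of i)⁻¹ 1 : ZG (FreeGroup (Fin n))) • (y - e 1 i) := fun y => by
        rw [map_inv, FreeGroup.lift_apply_of]
        rfl
      rw [this, this, ← smul_add]
      congr 1
      abel
    | mul a b ha hb =>
      intro x
      rw [map_mul, Equiv.Perm.mul_apply, Equiv.Perm.mul_apply, ha (P b x), ha (P b 0), hb x,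
        smul_add, smul_smul, single_mul_single, one_mul, add_assoc]
  refine ⟨fun a => P a 0, fun a b => ?_, fun i => by simp [P, aff]⟩
  simp only [map_mul, Equiv.Perm.mul_apply]
  exact h a _

/-- The map of group rings. -/
noncomputable def mp {F : Type} [Group F] (ψ : F →* Q) : ZG F →+* ZG Q :=
  MonoidAlgebra.mapDomainRingHom ℤ ψ

@[simp] theorem mp_single {F : Type} [Group F] (ψ : F →* Q) (g : F) (k : ℤ) :
    mp ψ (single g k) = single (ψ g) k := by
  simp [mp]

theorem mp_surj {F : Type} [Group F] {ψ : F →* Q} (h : Function.Surjective ψ) :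
    Function.Surjective (mp ψ) := fun r => by
  induction r using ind1 with
  | h0 => exact ⟨0, map_zero _⟩
  | hadd a b ha hb =>
    obtain ⟨x, rfl⟩ := ha
    obtain ⟨y, rfl⟩ := hb
    exact ⟨x + y, map_add _ _ _⟩
  | hneg a ha =>
    obtain ⟨x, rfl⟩ := ha
    exact ⟨-x, map_neg _ _⟩
  | hs g =>
    obtain ⟨x, rfl⟩ := h g
    exact ⟨single x 1, mp_single _ _ _⟩

/-- An element of the kernel dies because of finitely many relators. -/
theorem mp_fin {F L : Type} [Group F] [Group L] (π : F →* L) (x : ZG F) (hx : mp π x = 0) :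
    ∃ R : Finset F, (∀ g ∈ R, π g = 1) ∧
      ∀ (Q : Type) [Group Q] (ψ : F →* Q), (∀ g ∈ R, ψ g = 1) → mp ψ x = 0 := by
  classical
  refine ⟨((x.coeff.support ×ˢ x.coeff.support).image fun p => p.1 * p.2⁻¹).filter
    fun g => π g = 1, fun g hg => (Finset.mem_filter.mp hg).2, fun Q _ ψ h => ?_⟩
  let f : L → ZG Q := fun l =>
    if h : ∃ g ∈ x.coeff.support, π g = l then single (ψ h.choose) 1 else 0
  have h1 : ∀ y, lsum f (mp π y) = lsum (fun g => f (π g)) y :=
    hom_ext (f := (lsum f).comp (mp π).toAddMonoidHom) fun g => by simp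
  have h2 : mp ψ x = lsum (fun g => (single (ψ g) 1 : ZG Q)) x :=
    hom_ext (f := (mp ψ).toAddMonoidHom) (fun g => by simp) x
  rw [h2, ← map_zero (lsum f), ← hx, h1]
  refine lsum_congr fun g hg => ?_
  have h3 : ∃ g' ∈ x.coeff.support, π g' = π g := ⟨g, hg, rfl⟩
  have h4 := h (g * h3.choose⁻¹) (Finset.mem_filter.mpr ⟨Finset.mem_image.mpr
    ⟨(g, h3.choose), Finset.mem_product.mpr ⟨hg, h3.choose_spec.1⟩, rfl⟩, by
      rw [map_mul, map_inv, h3.choose_spec.2, mul_inv_cancel]⟩)
  rw [map_mul, map_inv, mul_inv_eq_one] at h4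
  simp only [f, dif_pos h3, h4]

theorem lin_eq {M : Type} [AddCommGroup M] [Module (ZG Q) M] (f : Fr Q n →ₗ[ZG Q] M)
    (x : Fr Q n) : f x = ∑ j, x j • f (e 1 j) := by
  have h : ∑ j, x j • e 1 j = x := by
    conv_rhs => rw [← Finsupp.univ_sum_single x]
    exact Finset.sum_congr rfl fun i _ => by simp [e, ← one_def]
  conv_lhs => rw [← h, map_sum]
  simp only [map_smul]

end Fox

open Fox

variable {n : ℕ} {Q : Type} [Group Q]

/-- The Fox derivative over a quotient. -/
noncomputable def fox (ψ : FreeGroup (Fin n) →* Q) (a : FreeGroup (Fin n)) : Fr Q n :=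
  ((exists_fox n).choose a).mapRange (mp ψ) (map_zero _)

theorem fox_mul (ψ : FreeGroup (Fin n) →* Q) (a b : FreeGroup (Fin n)) :
    fox ψ (a * b) = fox ψ a + (single (ψ a) 1 : ZG Q) • fox ψ b := by
  ext1 j
  simp [fox, (exists_fox n).choose_spec.1]

theorem fox_of (ψ : FreeGroup (Fin n) →* Q) (i : Fin n) : fox ψ (FreeGroup.of i) = e 1 i := by
  rw [fox, (exists_fox n).choose_spec.2]
  simp [e]

theorem fox_one (ψ : FreeGroup (Fin n) →* Q) : fox ψ 1 = 0 := by
  have := fox_mul ψ 1 1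
  simpa [← one_def] using this

theorem fox_inv (ψ : FreeGroup (Fin n) →* Q) (a : FreeGroup (Fin n)) :
    fox ψ a⁻¹ = -((single (ψ a)⁻¹ 1 : ZG Q) • fox ψ a) := by
  have := fox_mul ψ a⁻¹ a
  rw [inv_mul_cancel, fox_one, map_inv] at this
  exact eq_neg_of_add_eq_zero_left this.symm

theorem fox_mul_ker (ψ : FreeGroup (Fin n) →* Q) {a : FreeGroup (Fin n)} (h : ψ a = 1)
    (b : FreeGroup (Fin n)) : fox ψ (a * b) = fox ψ a + fox ψ b := by
  rw [fox_mul, h, ← one_def, one_smul]

theorem fox_inv_ker (ψ : FreeGroup (Fin n) →* Q) {a : FreeGroup (Fin n)} (h : ψ a = 1) :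
    fox ψ a⁻¹ = -fox ψ a := by
  rw [fox_inv, h, inv_one, ← one_def, one_smul]

theorem fox_div (ψ : FreeGroup (Fin n) →* Q) {a b : FreeGroup (Fin n)} (h : ψ a = ψ b) :
    fox ψ (a * b⁻¹) = fox ψ a - fox ψ b := by
  rw [fox_mul, fox_inv, h, smul_neg, smul_smul, single_mul_single, mul_inv_cancel, one_mul,
    ← one_def, one_smul, sub_eq_add_neg]

theorem fox_conj (ψ : FreeGroup (Fin n) →* Q) (g : FreeGroup (Fin n)) {a : FreeGroup (Fin n)}
    (h : ψ a = 1) : fox ψ (g * a * g⁻¹) = (single (ψ g) 1 : ZG Q) • fox ψ a := by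
  rw [fox_div ψ (by rw [map_mul, h, mul_one]), fox_mul, add_sub_cancel_left]

theorem bd_fox (ψ : FreeGroup (Fin n) →* Q) (a : FreeGroup (Fin n)) :
    bd (fun i => ψ (FreeGroup.of i)) (fox ψ a) = single (ψ a) 1 - 1 := by
  induction a using FreeGroup.induction_on with
  | C1 => simp [fox_one, ← one_def]
  | of i => rw [fox_of, bd_e, one_mul, one_def]
  | inv_of i h =>
    rw [fox_inv, map_neg, map_smul, h, smul_eq_mul, mul_sub, single_mul_single, inv_mul_cancel,
      one_mul, mul_one, ← one_def, neg_sub, map_inv]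
  | mul a b ha hb =>
    rw [fox_mul, map_add, map_smul, ha, hb, smul_eq_mul, mul_sub, single_mul_single, one_mul,
      mul_one, map_mul]
    abel

/-- Every cycle is the Fox vector of a relator. -/
theorem fox_surj {ψ : FreeGroup (Fin n) →* Q} (h : Function.Surjective ψ) {x : Fr Q n}
    (hx : bd (fun i => ψ (FreeGroup.of i)) x = 0) : ∃ r, ψ r = 1 ∧ fox ψ r = x := by
  choose w hw using h
  have : ∀ x : Fr Q n, ∃ r, ψ r = 1 ∧
      fox ψ r = x - lsum (fun g => fox ψ (w g)) (bd (fun i => ψ (FreeGroup.of i)) x) := fun x => by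
    induction x using Loc.fr_ind with
    | h0 => exact ⟨1, map_one _, by simp [fox_one]⟩
    | hadd a b ha hb =>
      obtain ⟨r, h1, h2⟩ := ha
      obtain ⟨s, h3, h4⟩ := hb
      refine ⟨r * s, by rw [map_mul, h1, h3, mul_one], ?_⟩
      rw [fox_mul_ker ψ h1, h2, h4, map_add, map_add]
      abel
    | hneg a ha =>
      obtain ⟨r, h1, h2⟩ := ha
      refine ⟨r⁻¹, by rw [map_inv, h1, inv_one], ?_⟩
      rw [fox_inv_ker ψ h1, h2, map_neg, map_neg]
      abel
    | hs g i =>
      have h1 : ψ (w g * FreeGroup.of i) = ψ (w (g * ψ (FreeGroup.of i))) := by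
        rw [map_mul, hw, hw]
      refine ⟨w g * FreeGroup.of i * (w (g * ψ (FreeGroup.of i)))⁻¹,
        by rw [map_mul, h1, map_inv, mul_inv_cancel], ?_⟩
      rw [fox_div ψ h1, fox_mul, fox_of, hw, smul_e, mul_one, Loc.lsum_bd_e]
      abel
  simpa [hx] using this x

/-- A word whose Fox vector has augmentation zero is in the commutator subgroup. -/
theorem fox_comm (ψ : FreeGroup (Fin n) →* Q) {a : FreeGroup (Fin n)}
    (h : ∀ j, aug Q (fox ψ a j) = 0) : a ∈ commutator (FreeGroup (Fin n)) := by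
  let f : Fin n → Additive (Abelianization (FreeGroup (Fin n))) := fun j =>
    Additive.ofMul (Abelianization.of (FreeGroup.of j))
  have h1 : ∀ a, ∑ j, aug Q (fox ψ a j) • f j = Additive.ofMul (Abelianization.of a) := fun a => by
    induction a using FreeGroup.induction_on with
    | C1 => simp [fox_one]
    | of i =>
      rw [fox_of, Finset.sum_eq_single i (fun j _ hj => by simp [e, Finsupp.single_eq_of_ne hj])
        (by simp)]
      simp [e, f]
    | inv_of i h =>
      rw [map_inv, ofMul_inv, ← h, fox_inv, ← Finset.sum_neg_distrib]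
      exact Finset.sum_congr rfl fun j _ => by simp
    | mul a b ha hb =>
      rw [map_mul, ofMul_mul, ← ha, ← hb, fox_mul, ← Finset.sum_add_distrib]
      exact Finset.sum_congr rfl fun j _ => by simp [add_smul]
  have h2 := h1 a
  simp only [h, zero_smul, Finset.sum_const_zero] at h2
  rw [← Abelianization.ker_of]
  exact Additive.ofMul.injective h2.symm

/-- The class of a word in `⁅F, N⁆` is absorbed. -/
theorem fox_absorb (ψ : FreeGroup (Fin n) →* Q) {T K : Type} (p : T → Fr Q n) (c : T → ZG Q)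
    (s : K → FreeGroup (Fin n)) (hs : Subgroup.closure (Set.range s) ⊔ ψ.ker = ⊤)
    (h : ∀ j, ∃ φ : Fr Q n →ₗ[ZG Q] ZG Q, ∀ i, c i * (single (ψ (s j)) 1 - 1) = φ (p i))
    {u : FreeGroup (Fin n)} (hu : u ∈ ⁅(⊤ : Subgroup (FreeGroup (Fin n))), ψ.ker⁆) :
    ∃ B : Fr Q n →ₗ[ZG Q] Fr Q n, (∀ x, bd (fun i => ψ (FreeGroup.of i)) (B x) = 0) ∧
      ∀ i, B (p i) = c i • fox ψ u := by
  let H : Subgroup (FreeGroup (Fin n)) :=
    { carrier := {g | ∃ φ : Fr Q n →ₗ[ZG Q] ZG Q, ∀ i, c i * (single (ψ g) 1 - 1) = φ (p i)}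
      one_mem' := ⟨0, fun i => by simp [← one_def]⟩
      mul_mem' := by
        rintro a b ⟨φ, ha⟩ ⟨φ', hb⟩
        refine ⟨LinearMap.toSpanSingleton (ZG Q) _ (single (ψ b) 1) ∘ₗ φ + φ', fun i => ?_⟩
        simp only [LinearMap.add_apply, LinearMap.comp_apply, LinearMap.toSpanSingleton_apply,
          smul_eq_mul, ← ha, ← hb, map_mul]
        rw [← one_mul (1 : ℤ), ← single_mul_single, one_mul]
        noncomm_ring
      inv_mem' := by
        rintro a ⟨φ, ha⟩
        refine ⟨-(LinearMap.toSpanSingleton (ZG Q) (ZG Q) (single (ψ a)⁻¹ 1) ∘ₗ φ), fun i => ?_⟩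
        simp only [LinearMap.neg_apply, LinearMap.comp_apply, LinearMap.toSpanSingleton_apply,
          smul_eq_mul, ← ha, map_inv]
        rw [mul_assoc, sub_mul, single_mul_single, mul_inv_cancel, one_mul, one_mul, ← one_def,
          ← mul_neg, neg_sub] }
  have hH : ∀ g, g ∈ H := fun g => (hs.ge.trans (sup_le ((Subgroup.closure_le H).mpr (by
    rintro _ ⟨j, rfl⟩
    exact h j)) fun a ha => ⟨0, fun i => by simp [MonoidHom.mem_ker.mp ha, ← one_def]⟩)) trivial
  let H2 : Subgroup (FreeGroup (Fin n)) :=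
    { carrier := {u | ψ u = 1 ∧ ∃ B : Fr Q n →ₗ[ZG Q] Fr Q n,
        (∀ x, bd (fun i => ψ (FreeGroup.of i)) (B x) = 0) ∧ ∀ i, B (p i) = c i • fox ψ u}
      one_mem' := ⟨map_one _, 0, by simp, fun i => by simp [fox_one]⟩
      mul_mem' := by
        rintro a b ⟨ha, B, h1, h2⟩ ⟨hb, B', h3, h4⟩
        exact ⟨by rw [map_mul, ha, hb, mul_one], B + B', fun x => by simp [h1, h3],
          fun i => by simp [h2, h4, fox_mul_ker ψ ha]⟩
      inv_mem' := by
        rintro a ⟨ha, B, h1, h2⟩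
        exact ⟨by rw [map_inv, ha, inv_one], -B, fun x => by simp [h1],
          fun i => by simp [h2, fox_inv_ker ψ ha]⟩ }
  refine (Subgroup.commutator_le.mpr (fun g _ v hv => ?_) hu : u ∈ H2).2
  have hv' : ψ v = 1 := hv
  have h1 : ψ (g * v * g⁻¹) = 1 := by simp [hv']
  obtain ⟨φ, hφ⟩ := hH g
  refine ⟨by simp [commutatorElement_def, hv'],
    LinearMap.toSpanSingleton (ZG Q) _ (fox ψ v) ∘ₗ φ, fun x => ?_, fun i => ?_⟩
  · simp [bd_fox, hv', ← one_def]
  · rw [commutatorElement_def, fox_div ψ (h1.trans hv'.symm), fox_conj ψ g hv',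
      LinearMap.comp_apply, LinearMap.toSpanSingleton_apply, ← hφ, mul_smul, sub_smul, one_smul]

/-- A finite certificate lifts to suitable quotients of the free group. -/
theorem lift_of_cert {L : Type} [Group L] (π : FreeGroup (Fin n) →* L)
    (hπ : Function.Surjective π) {T A K : Type} [Finite T] [Fintype A] [Finite K]
    (r : T → FreeGroup (Fin n)) (AA : Fr L n →ₗ[ZG L] Fr L n)
    (hAA : ∀ x, bd (fun i => π (FreeGroup.of i)) (AA x) = 0) (c : T → A → ZG L) (σ : A → Fr L n)
    (hσ : ∀ a, bd (fun i => π (FreeGroup.of i)) (σ a) = 0) (hσ' : ∀ a j, aug L (σ a j) = 0)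
    (s : A → K → FreeGroup (Fin n)) (φ : A → K → Fr L n →ₗ[ZG L] ZG L)
    (h1 : ∀ i, fox π (r i) - AA (fox π (r i)) = ∑ a, c i a • σ a)
    (h2 : ∀ i a j, c i a * (single (π (s a j)) 1 - 1) = φ a j (fox π (r i))) :
    ∃ R1 : Finset (FreeGroup (Fin n)), (∀ x ∈ R1, π x = 1) ∧
      ∀ (Q : Type) [Group Q] (ψ : FreeGroup (Fin n) →* Q), (∀ x ∈ R1, ψ x = 1) →
        (∀ x ∈ R1, x ∈ commutator (FreeGroup (Fin n)) →
          x ∈ ⁅(⊤ : Subgroup (FreeGroup (Fin n))), ψ.ker⁆) →
        (∀ a, Subgroup.closure (Set.range (s a)) ⊔ ψ.ker = ⊤) →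
        ∃ δ : FreeGroup (Fin n) → Fr Q n,
          (∀ a b, δ (a * b) = δ a + (single (ψ a) 1 : ZG Q) • δ b) ∧
          (∀ a, bd (fun i => ψ (FreeGroup.of i)) (δ a) = single (ψ a) 1 - 1) ∧
          ∀ i, δ (r i) = 0 := by
  classical
  have := Fintype.ofFinite T
  have := Fintype.ofFinite K
  choose w hw hw' using fun j => fox_surj hπ (hAA (e 1 j))
  choose u hu hu' using fun a => fox_surj hπ (hσ a)
  choose c0 hc0 using fun i a => mp_surj hπ (c i a)
  choose φ0 hφ0 using fun a j l => mp_surj hπ (φ a j (e 1 l))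
  let D := (exists_fox n).choose
  have hD : ∀ (Q : Type) [Group Q] (ψ : FreeGroup (Fin n) →* Q) a j, mp ψ (D a j) = fox ψ a j :=
    fun Q _ ψ a j => rfl
  choose R hR hR' using fun (i : T) (j : Fin n) => mp_fin π
    (D (r i) j - ∑ l, D (r i) l * D (w l) j - ∑ a, c0 i a * D (u a) j) (by
      have := congrArg (fun x => x j) (h1 i)
      rw [lin_eq AA] at this
      simp only [Finsupp.sub_apply, Finsupp.finsetSum_apply, Finsupp.smul_apply,
        smul_eq_mul] at this
      simp only [map_sub, map_sum, map_mul, hD, hw', hu', hc0, this, sub_self])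
  choose R' hR2 hR2' using fun (i : T) (a : A) (j : K) => mp_fin π
    (c0 i a * (single (s a j) 1 - 1) - ∑ l, D (r i) l * φ0 a j l) (by
      have := h2 i a j
      rw [lin_eq (φ a j)] at this
      simp only [smul_eq_mul] at this
      simp only [map_sub, map_sum, map_mul, map_one, mp_single, hD, hc0, hφ0, this, sub_self])
  refine ⟨Finset.univ.image w ∪ Finset.univ.image u ∪
    (Finset.univ.biUnion fun p : T × Fin n => R p.1 p.2) ∪
    (Finset.univ.biUnion fun p : T × A × K => R' p.1 p.2.1 p.2.2), fun x hx => ?_,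
    fun Q _ ψ k1 k2 k3 => ?_⟩
  · simp only [Finset.mem_union, Finset.mem_image, Finset.mem_biUnion, Finset.mem_univ,
      true_and] at hx
    rcases hx with ((⟨j, rfl⟩ | ⟨a, rfl⟩) | ⟨p, hp⟩) | ⟨p, hp⟩
    exacts [hw j, hu a, hR _ _ x hp, hR2 _ _ _ x hp]
  simp only [Finset.mem_union, Finset.mem_image, Finset.mem_biUnion, Finset.mem_univ,
    true_and] at k1 k2
  have lc : ∀ {M : Type} [AddCommGroup M] [Module (ZG Q) M] (v : Fin n → M) (x : Fr Q n),
      Finsupp.linearCombination (ZG Q) v x = ∑ l, x l • v l := fun v x => by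
    rw [Finsupp.linearCombination_apply, Finsupp.sum_fintype _ _ (by simp)]
  choose B hB hB' using fun a => fox_absorb ψ (fun i => fox ψ (r i)) (fun i => mp ψ (c0 i a)) (s a)
    (k3 a) (fun j => ⟨Finsupp.linearCombination (ZG Q) fun l => mp ψ (φ0 a j l), fun i => by
      have := hR2' i a j Q ψ fun g hg => k1 g (Or.inr ⟨(i, a, j), hg⟩)
      simp only [map_sub, map_sum, map_mul, map_one, mp_single, hD, sub_eq_zero] at this
      rw [lc, this]
      rfl⟩)
    (k2 (u a) (Or.inl (Or.inl (Or.inr ⟨a, rfl⟩))) (fox_comm π fun j => by rw [hu', hσ']))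
  let A' : Fr Q n →ₗ[ZG Q] Fr Q n :=
    Finsupp.linearCombination (ZG Q) (fun l => fox ψ (w l)) + ∑ a, B a
  have hA' : ∀ x, A' x = ∑ l, x l • fox ψ (w l) + ∑ a, B a x := fun x => by
    simp only [A', LinearMap.add_apply, lc, LinearMap.sum_apply]
  refine ⟨fun a => fox ψ a - A' (fox ψ a), fun a b => ?_, fun a => ?_, fun i => ?_⟩
  · simp only [fox_mul, map_add, map_smul, smul_sub]
    abel
  · have : ∀ l, ψ (w l) = 1 := fun l => k1 _ (Or.inl (Or.inl (Or.inl ⟨l, rfl⟩)))
    simp [hA', bd_fox, hB, this, ← one_def]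
  · ext1 j
    have := hR' i j Q ψ fun g hg => k1 g (Or.inl (Or.inr ⟨(i, j), hg⟩))
    simp only [map_sub, map_sum, map_mul, hD] at this
    simp only [hA', hB', Finsupp.sub_apply, Finsupp.finsetSum_apply,
      Finsupp.smul_apply, smul_eq_mul, Finsupp.zero_apply, ← sub_sub, this]

end Pool.Agent.Lib.MP_d98eb9_al.W
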