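import Pool.Agent.Lib.MP_d98eb9_al.W.Resolve
import Pool.Agent.Lib.MP_d98eb9_al.W.Rep
import Pool.Agent.Lib.MP_d98eb9_al.W.Sys
import Pool.Agent.Lib.MP_d98eb9_al.W.Comp

/-! Homomorphisms of the stabiliser of a component die on deeper stabilisers. -/

namespace Pool.Agent.Lib.MP_d98eb9_al.W

open MonoidAlgebra

variable {G : Type} [Group G] {Γ : Gen G}

/-- Invariant cocompact 2-cocycles are torsion if the subgroup has no map onto the integers. -/
def Cyc (X : Geo Γ) : Prop :=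
  ∀ J : Subgroup G, J.FG → (∀ φ : J →* Multiplicative ℤ, φ = 1) →
    ∀ y : Du X.w J (Fr G X.m), (∀ z, X.d1 z = 0 → aug J (prAt X.w J z y) = 0) →
      ∃ m : ℤ, m ≠ 0 ∧ ∃ b : Du X.w J (Fr G Γ.n),
        ∀ z, m * aug J (prAt X.w J z y) = aug J (prAt X.w J (X.d1 z) b)

namespace Dies

theorem tor {H M : Type} [Group H] [AddCommGroup M] (hH : Group.FG H)
    (h0 : ∀ φ : H →* Multiplicative ℤ, φ = 1) (σ : H → M) (hσ : ∀ a b, σ (a * b) = σ a + σ b) :
    ∃ m : ℤ, m ≠ 0 ∧ ∀ c, m • σ c = 0 := by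
  obtain ⟨S, hS, hSf⟩ := Group.fg_iff.mp hH
  let σ' : H →* Multiplicative M := MonoidHom.mk' (fun a => Multiplicative.ofAdd (σ a))
    fun a b => by rw [hσ, ofAdd_add]
  let N : Submodule ℤ M := Submodule.span ℤ (σ '' S)
  have hN : ∀ c, σ c ∈ N := fun c => by
    have hc : c ∈ Subgroup.closure S := hS ▸ Subgroup.mem_top c
    induction hc using Subgroup.closure_induction with
    | mem x hx => exact Submodule.subset_span ⟨x, hx, rfl⟩
    | one =>
      have e : σ 1 = 0 := congrArg Multiplicative.toAdd σ'.map_one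
      exact e ▸ N.zero_mem
    | mul a b _ _ ha hb => exact hσ a b ▸ N.add_mem ha hb
    | inv a _ ha =>
      have e : σ a⁻¹ = -σ a := congrArg Multiplicative.toAdd (σ'.map_inv a)
      exact e ▸ N.neg_mem ha
  have : Module.Finite ℤ N := Module.Finite.span_of_finite ℤ (hSf.image σ)
  have key : ∀ c, ∃ m : ℤ, m ≠ 0 ∧ m • σ c = 0 := fun c => by
    have h1 : (Submodule.torsion ℤ N).mkQ ⟨σ c, hN c⟩ = 0 := by
      refine (Module.forall_dual_apply_eq_zero_iff ℤ _).mp fun l => ?_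
      have := h0 (MonoidHom.mk' (fun a => Multiplicative.ofAdd
        (l ((Submodule.torsion ℤ N).mkQ ⟨σ a, hN a⟩))) fun a b => by
          rw [← ofAdd_add, ← map_add, ← map_add]
          exact congrArg (fun v => Multiplicative.ofAdd (l ((Submodule.torsion ℤ N).mkQ v)))
            (Subtype.ext (hσ a b)))
      exact congrArg Multiplicative.toAdd (DFunLike.congr_fun this c)
    obtain ⟨m, hm⟩ := (Submodule.Quotient.mk_eq_zero _).mp h1
    exact ⟨m, nonZeroDivisors.coe_ne_zero m, congrArg Subtype.val hm⟩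
  choose m hm hm' using key
  refine ⟨∏ s ∈ hSf.toFinset, m s, Finset.prod_ne_zero_iff.mpr fun s _ => hm s, fun c => ?_⟩
  refine Submodule.span_induction (p := fun v _ => (∏ s ∈ hSf.toFinset, m s) • v = 0) ?_
    (smul_zero _) (fun a b _ _ ha hb => by rw [smul_add, ha, hb, add_zero])
    (fun k a _ ha => by rw [smul_comm, ha, smul_zero]) (hN c)
  rintro _ ⟨s, hs, rfl⟩
  obtain ⟨k, hk⟩ := Finset.dvd_prod_of_mem m (hSf.mem_toFinset.mpr hs)
  rw [hk, mul_comm, mul_smul, hm', smul_zero]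

variable {w : G →* ℤ} {J : Subgroup G}

theorem inv_smul {V M : Type} [AddCommGroup V] [Module (ZG J) V] [AddCommGroup M] (π : V →+ M)
    (hπ : ∀ (c : J) v, π ((single c 1 : ZG J) • v) = π v) (r : ZG J) (v : V) :
    π (r • v) = aug J r • π v := by
  induction r using ind1 with
  | h0 => simp
  | hadd a b ha hb => simp only [add_smul, map_add, ha, hb]
  | hneg a ha => simp only [neg_smul, map_neg, ha]
  | hs g => simp [hπ]

theorem inv_zero {P M : Type} [AddCommGroup P] [Module (ZG G) P] [AddCommGroup M] (B : DB G P)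
    (π : Du w J P →+ M) (hπ : ∀ (c : J) v, π ((single c 1 : ZG J) • v) = π v) (u : Du w J P)
    (hu : ∀ z, aug J (prAt w J z u) = 0) : π u = 0 := by
  rw [B.dual_eq u, map_sum]
  refine Finset.sum_eq_zero fun i _ => ?_
  rw [← lc_kap, Finsupp.linearCombination_apply, Finsupp.sum, map_sum]
  refine Finset.sum_eq_zero fun y _ => ?_
  have := hu ((single y.out⁻¹ 1 : ZG G) • B.x i)
  rw [prAt_apply, map_smul, smul_eq_mul] at this
  rw [inv_smul π hπ, kap_apply, this, zero_smul]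

/-- The invariant cochain of a finite cochain. -/
noncomputable def av (w : G →* ℤ) (J : Subgroup G) {P : Type} [AddCommGroup P] [Module (ZG G) P] :
    Du w J P →+ P →+ ℤ :=
  AddMonoidHom.mk' (fun y => AddMonoidHom.mk' (fun z => aug J (prAt w J z y)) fun a b => by simp)
    fun a b => AddMonoidHom.ext fun z => by simp

theorem cyc {m : ℕ} (d1 : Fr G m →ₗ[ZG G] Fr G Γ.n) {P3 P4 : Type}
    [AddCommGroup P3] [Module (ZG G) P3] [AddCommGroup P4] [Module (ZG G) P4]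
    (d2 : P3 →ₗ[ZG G] Fr G m) (d3 : P4 →ₗ[ZG G] P3) (h12 : ∀ z, d1 (d2 z) = 0)
    (h23 : ∀ z, d2 (d3 z) = 0) (B : DB G P3) (K : AddSubgroup (P3 →ₗ[ZG G] ZG G))
    (hK : ∀ t, t ∈ K ↔ t ∘ₗ d3 = 0) (η0 : K →+ ℤ) (hs0 : Function.Surjective η0)
    (hk0 : ∀ t, η0 t = 0 ↔ ∃ θ : Fr G m →ₗ[ZG G] ZG G, θ ∘ₗ d2 = t)
    (hinv : ∀ (g : G) (t t' : K), (∀ x, t'.1 x = t.1 x * single g⁻¹ (w g)) → η0 t' = η0 t)
    (ρ : Du w J P3 →ₗ[ZG J] Du w J P3) (hρ1 : ∀ q, Du.map w J d3 (ρ q) = 0)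
    (hρ2 : ∀ q, Du.map w J d3 q = 0 → ρ q = q)
    (H2 : Function.Exact (Du.map w J d1) (Du.map w J d2)) (hJ : J.FG)
    (h0 : ∀ φ : J →* Multiplicative ℤ, φ = 1) (y : Du w J (Fr G m))
    (hy : ∀ z, d1 z = 0 → aug J (prAt w J z y) = 0) : ∃ k : ℤ, k ≠ 0 ∧ ∃ b : Du w J (Fr G Γ.n),
      ∀ z, k * aug J (prAt w J z y) = aug J (prAt w J (d1 z) b) := by
  let Bd : AddSubgroup (Fr G m →+ ℤ) := ((av w J).comp (Du.map w J d1).toAddMonoidHom).range
  let Pi : Du w J (Fr G m) →+ (Fr G m →+ ℤ) ⧸ Bd := (QuotientAddGroup.mk' Bd).comp (av w J)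
  have p1 : ∀ (c : J) v, Pi ((single c 1 : ZG J) • v) = Pi v := fun c v =>
    congrArg (QuotientAddGroup.mk' Bd) (AddMonoidHom.ext fun z => by
      change aug J (prAt w J z _) = aug J (prAt w J z v)
      rw [map_smul, smul_eq_mul, map_mul, aug_single, one_mul])
  have p2 : ∀ a b, Du.map w J d2 a = Du.map w J d2 b → Pi a = Pi b := fun a b e => by
    obtain ⟨v, hv⟩ := (H2 (a - b)).mp (by rw [map_sub, e, sub_self])
    rw [← sub_eq_zero, ← map_sub, ← hv]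
    exact (QuotientAddGroup.eq_zero_iff _).mpr ⟨v, rfl⟩
  let toK : Du w J P3 →+ K := AddMonoidHom.mk' (fun q => ⟨(ρ q).ev, (hK _).2 (hρ1 q)⟩)
    fun a b => Subtype.ext (by simp)
  let η : Du w J P3 →+ ℤ := η0.comp toK
  have e1 : ∀ (c : J) v, η ((single c 1 : ZG J) • v) = η v := fun c v =>
    hinv c _ _ fun z => by
      change (ρ _).ev z = _
      rw [map_smul]
      exact Du.ev_single_smul c _ z
  obtain ⟨t, ht⟩ := hs0 1
  have q1 : ρ (Du.mk w J t.1) = Du.mk w J t.1 := hρ2 _ ((hK _).1 t.2)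
  have q2 : η (Du.mk w J t.1) = 1 := (congrArg η0 (Subtype.ext q1)).trans ht
  have e2 : ∀ u, ∃ θ, Du.map w J d2 θ = ρ u - η u • Du.mk w J t.1 := fun u => by
    obtain ⟨θ, hθ⟩ := (hk0 (toK (u - η u • Du.mk w J t.1))).1 (by
      change η _ = 0
      rw [map_sub, map_zsmul, q2, smul_eq_mul, mul_one, sub_self])
    refine ⟨Du.mk w J θ, hθ.trans ?_⟩
    change ρ _ = _
    rw [map_sub, map_zsmul, q1]
  choose θ hθ using e2
  let π0 : Du w J P3 →+ (Fr G m →+ ℤ) ⧸ Bd := AddMonoidHom.mk' (fun u => Pi (θ u)) fun a b => by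
    rw [← map_add]
    refine p2 _ _ ?_
    rw [map_add, hθ, hθ, hθ, map_add, map_add, add_smul]
    abel
  have e3 : ∀ (c : J) u, π0 ((single c 1 : ZG J) • u) =
      π0 u + η u • π0 ((single c 1 : ZG J) • Du.mk w J t.1) := fun c u => by
    change Pi _ = Pi _ + _ • Pi _
    rw [← p1 c (θ u), ← map_zsmul, ← map_add]
    refine p2 _ _ ?_
    rw [map_add, map_zsmul, map_smul, hθ, hθ, hθ, e1, e1, q2, map_smul, map_smul, q1, one_smul,
      smul_sub, smul_sub, smul_comm]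
    abel
  obtain ⟨k, hk, hk'⟩ := tor ((Group.fg_iff_subgroup_fg J).mpr hJ) h0
    (fun c => π0 ((single c 1 : ZG J) • Du.mk w J t.1)) fun a b => by
      have e : (single (a * b) 1 : ZG J) = single a 1 * single b 1 := by
        rw [single_mul_single, one_mul]
      rw [e, mul_smul, e3, e1, q2, one_smul, add_comm]
  have e4 := inv_zero B (k • π0) (fun c v => by
    rw [AddMonoidHom.smul_apply, AddMonoidHom.smul_apply, e3, smul_add, smul_comm, hk', smul_zero,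
      add_zero]) (Du.map w J d2 y) fun z => hy _ (h12 z)
  have e5 : ρ (Du.map w J d2 y) = Du.map w J d2 y := hρ2 _ (Du.ext fun z => by simp [h23])
  have e6 : η (Du.map w J d2 y) = 0 := (hk0 _).2 ⟨y.ev, e5.symm⟩
  have e7 : π0 (Du.map w J d2 y) = Pi y := p2 _ _ (by rw [hθ, e5, e6, zero_smul, sub_zero])
  rw [AddMonoidHom.smul_apply, e7, ← map_zsmul] at e4
  obtain ⟨b, hb⟩ := (QuotientAddGroup.eq_zero_iff _).mp e4
  refine ⟨k, hk, b, fun z => ?_⟩
  have := DFunLike.congr_fun hb z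
  rw [map_zsmul] at this
  exact this.symm

theorem const {Z : Set G} {p q : G} (h : Γ.Conn Z p q) (v : G → ℤ)
    (hv : ∀ g i, g ∉ Z → g * Γ.s i ∉ Z → v (g * Γ.s i) = v g) : v q = v p :=
  h.ind (P := fun x => v x = v p) rfl fun a b ha hb hd e => by
    rcases Gen.d_le_one.mp hd with rfl | ⟨i, rfl | rfl⟩
    exacts [e, (hv _ i ha hb).trans e, (hv _ i hb ha).symm.trans e]

end Dies

open Resolve Dies

theorem exists_geo2 (hG : IsPD 3 G) (Γ : Gen G) : ∃ X : Geo Γ, Cyc X := by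
  obtain ⟨X, hX, ⟨φ⟩⟩ := hG
  obtain ⟨m, d1, h1, ⟨T⟩⟩ := exists_tail X Γ
  let Y := cay Γ (Tail.cons inferInstance inferInstance (bd Γ.s) (fun _ => Iff.rfl)
    (Tail.cons inferInstance inferInstance d1 h1 T))
  have hY : ∀ i, i ≠ 3 → Subsingleton (Y.H i) := fun i hi => by
    obtain ⟨ψ⟩ := Resol.H_equiv Y X i
    have := hX i hi
    exact ψ.toEquiv.subsingleton
  obtain ⟨ψ⟩ := Resol.H_equiv Y X 3
  obtain ⟨w, η0, hs0, hk0, hinv⟩ := Y.orient (ψ.trans φ)
  obtain ⟨B⟩ := Y.db 3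
  refine ⟨⟨m, d1, h1, w, inf Γ fun θ h => Y.mem_cob (hY 0 (by omega)) θ h,
    fun θ h => Y.mem_cob (hY 1 (by omega)) θ h, fun θ h => Y.mem_cob (hY 2 (by omega)) θ
      (LinearMap.ext fun z => h _ ((Y.exact_succ 1).apply_apply_eq_zero z)), fun J => ?_⟩,
    fun J => ?_⟩
  · obtain ⟨ρ, hρ1, hρ2⟩ := Y.retract w J hY
    exact exists_dual Γ d1 (Y.d 2) (Y.d 3) (Y.exact_succ 2).apply_apply_eq_zero B w J (Y.δ 3).ker
      (fun _ => Iff.rfl) η0 hs0 hk0 hinv ρ hρ1 hρ2 (Y.exact_Du w J (hY 2 (by omega)))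
  · obtain ⟨ρ, hρ1, hρ2⟩ := Y.retract w J hY
    exact cyc d1 (Y.d 2) (Y.d 3) (Y.exact_succ 1).apply_apply_eq_zero
      (Y.exact_succ 2).apply_apply_eq_zero B (Y.δ 3).ker
      (fun _ => Iff.rfl) η0 hs0 hk0 hinv ρ hρ1 hρ2 (Y.exact_Du w J (hY 2 (by omega)))

theorem Geo.hom_dies (X : Geo Γ) (hX : Cyc X) {L : Subgroup G} (hL : L.FG)
    (hw : ∀ c ∈ L, X.w c = 1) (h0 : ∀ φ : L →* Multiplicative ℤ, φ = 1) {t : ℕ} {P : Set G}
    (hP : Γ.Comp (Γ.N t L) P) (φ : blk L P →* Multiplicative ℤ) : ∃ t2, ∀ t3, t2 ≤ t3 →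
      ∀ P2, P2 ⊆ P → Γ.Comp (Γ.N t3 L) P2 → ∀ c : blk L P, tr (c : G) P2 = P2 → φ c = 1 := by
  obtain ⟨F, hF⟩ : ∃ F : G → ℤ, ∀ (s : blk L P) p, F (s * p) = (φ s).toAdd + F p := by
    have hm : ∀ p : G, p * ((p⁻¹ : G) : G ⧸ blk L P).out ∈ blk L P := fun p => by
      simpa using (blk L P).inv_mem (out_inv_mul_mem (C := blk L P) p⁻¹)
    refine ⟨fun p => (φ ⟨_, hm p⟩).toAdd, fun s p => ?_⟩
    have e : ((((s : G) * p)⁻¹ : G) : G ⧸ blk L P) = (p⁻¹ : G) :=
      QuotientGroup.eq.mpr (by simp)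
    rw [← toAdd_mul, ← map_mul]
    exact congrArg (fun v => (φ v).toAdd) (Subtype.ext (by simp only [e, Subgroup.coe_mul, mul_assoc]))
  have hT : ∀ l ∈ L, Γ.Comp (Γ.N t L) (tr l P) := fun l hl => by
    have := hP.tr l
    rwa [Gen.tr_N, tr_subgroup hl] at this
  have key : ∀ (g : G) (i : Fin Γ.n), ∃ k : ℤ,
      (∀ l ∈ L, g ∈ tr l P → g * Γ.s i ∈ tr l P → k = F (l⁻¹ * (g * Γ.s i)) - F (l⁻¹ * g)) ∧
      ((∀ l ∈ L, ¬ (g ∈ tr l P ∧ g * Γ.s i ∈ tr l P)) → k = 0) := fun g i => by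
    by_cases e : ∃ l ∈ L, g ∈ tr l P ∧ g * Γ.s i ∈ tr l P
    · obtain ⟨l, hl, h1, h2⟩ := e
      refine ⟨F (l⁻¹ * (g * Γ.s i)) - F (l⁻¹ * g), fun l' hl' h3 _ => ?_,
        fun h => (h l hl ⟨h1, h2⟩).elim⟩
      have h4 : l'⁻¹ * l ∈ blk L P := ⟨L.mul_mem (L.inv_mem hl') hl, by
        rw [← tr_tr, (hT l hl).disj (hT l' hl') h1 h3, tr_inv_tr]⟩
      have h5 := fun p => hF ⟨_, h4⟩ (l⁻¹ * p)
      simp only [mul_assoc, mul_inv_cancel_left] at h5
      rw [h5, h5, add_sub_add_left_eq_sub]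
    · exact ⟨0, fun l hl h1 h2 => (e ⟨l, hl, h1, h2⟩).elim, fun _ => rfl⟩
  choose c hc1 hc2 using key
  have c1 : ∀ l ∈ L, ∀ g i, c (l * g) i = c g i := fun l hl g i => by
    by_cases e : ∃ l' ∈ L, g ∈ tr l' P ∧ g * Γ.s i ∈ tr l' P
    · obtain ⟨l', hl', h1, h2⟩ := e
      rw [hc1 g i l' hl' h1 h2, hc1 (l * g) i (l * l') (L.mul_mem hl hl')
        (by simpa [mul_assoc] using h1) (by simpa [mul_assoc] using h2)]
      simp [mul_assoc]
    · rw [hc2 g i fun l' hl' h => e ⟨l', hl', h⟩, hc2 (l * g) i fun l' hl' h => e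
        ⟨l⁻¹ * l', L.mul_mem (L.inv_mem hl) hl', by simpa [mul_assoc] using h⟩]
  have c2 : ∀ (l : L) x, ofFun c ((single (l : G) 1 : ZG G) • x) = ofFun c x := fun l x => by
    induction x using Loc.fr_ind with
    | h0 => rw [smul_zero]
    | hadd a b ha hb => rw [smul_add, map_add, map_add, ha, hb]
    | hneg a ha => rw [smul_neg, map_neg, map_neg, ha]
    | hs g i => rw [smul_e, ofFun_e, ofFun_e, c1 _ l.2]
  obtain ⟨ρ, hρ⟩ := Loc.loc_cocycle X
  have c3 : ∀ h k, h ∉ Γ.N (t + (ρ + 1)) L → ofFun c (X.d1 (e h k)) = 0 := fun h k hh => by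
    have hc : ∀ p, Γ.d h p ≤ ρ + 1 → Γ.Conn (Γ.N t L) h p := fun p hp =>
      Gen.conn_of_d (fun e => hh (Gen.N_N subset_rfl e)) hp
    refine hρ ℤ c h ?_ k
    by_cases e : ∃ l ∈ L, h ∈ tr l P
    · obtain ⟨l, hl, h1⟩ := e
      refine ⟨fun p => F (l⁻¹ * p), fun p i hp => hc1 p i l hl
        (((hT l hl).eq h1).ge (hc p (by omega))) (((hT l hl).eq h1).ge (hc _ ?_))⟩
      exact (Gen.d_tri h p _).trans (add_le_add hp (Gen.d_gen p i))
    · exact ⟨0, fun p i hp => (hc2 p i fun l hl h1 => e ⟨l, hl,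
        ((hT l hl).eq h1.1).ge (hc p (by omega)).symm⟩).trans (by simp)⟩
  obtain ⟨T, b, q, hq⟩ := (Rep.dbFr G X.m).repr (w := X.w) (C := L) (aug L)
    ((ofFun c).comp X.d1.toAddMonoidHom) (fun l x => by
      change ofFun c (X.d1 _) = ofFun c (X.d1 x) * _
      rw [map_smul, c2, aug_single, hw _ l.2, mul_one]) fun x => by
      obtain ⟨r, hr⟩ := loc Γ x
      obtain ⟨T, hT⟩ := Rep.cosets Γ L (t + (ρ + 1) + r)
      refine T.finite_toSet.subset fun y hy => by_contra fun n => hy (hr _ _ _ fun h k hd =>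
        c3 h k fun e => hT y.out⁻¹ (by simpa using n) ?_)
      exact Gen.mem_N_of_d e (by rwa [Gen.d_comm])
  have hy : ∀ z, aug L (prAt X.w L z (∑ j ∈ T, b j • q j)) = ofFun c (X.d1 z) := fun z => by
    rw [map_sum, map_sum]
    refine (Finset.sum_congr rfl fun j _ => ?_).trans (hq z).symm
    rw [map_zsmul, map_zsmul, smul_eq_mul]
    rfl
  obtain ⟨m, hm, β, hβ⟩ := hX L hL h0 _ fun z hz => by rw [hy, hz, map_zero]
  obtain ⟨u, hu⟩ := exists_pot Γ.s Γ.gen (m • ofFun c - av X.w L β) fun x hx => by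
    obtain ⟨z, rfl⟩ := (X.ex1 x).mp hx
    rw [AddMonoidHom.sub_apply, AddMonoidHom.smul_apply, ← hy, smul_eq_mul, hβ]
    exact sub_self _
  have u1 : ∀ g i, u (g * Γ.s i) - u g = m * c g i - av X.w L β (e g i) := fun g i => by
    rw [← Loc.lsum_bd_e, ← hu, AddMonoidHom.sub_apply, AddMonoidHom.smul_apply, ofFun_e, smul_eq_mul]
  have u2 : ∀ (l : L) g, u (l * g) - u g = u l - u 1 := fun l g => by
    have := const (Gen.conn_empty (Γ := Γ) 1 g) (fun p => u (l * p) - u p) fun p i _ _ => by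
      have k1 := u1 (l * p) i
      have k2 := u1 p i
      have k3 : av X.w L β (e (l * p) i) = av X.w L β (e p i) := by
        change aug L (pr _ _ (β.ev _)) = aug L (pr _ _ (β.ev _))
        rw [← smul_e, map_smul, smul_eq_mul, pr_mul_left, map_mul, aug_single, hw _ l.2, mul_one]
      rw [c1 _ l.2, k3, mul_assoc] at k1
      omega
    simpa using this
  have u3 : ∀ (l : L) g, u (l * g) = u g := fun l g => by
    have := h0 (MonoidHom.mk' (fun a : L => Multiplicative.ofAdd (u a - u 1)) fun a b => by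
      rw [← ofAdd_add]
      have := u2 a b
      exact congrArg _ (by rw [Subgroup.coe_mul]; omega))
    have k1 : u l - u 1 = 0 := congrArg Multiplicative.toAdd (DFunLike.congr_fun this l)
    have := u2 l g
    omega
  obtain ⟨r, hr⟩ := Gen.bdd_of_finite (Γ := Γ) (co_finite β.ev) 1
  refine ⟨r, fun t3 ht P2 hs hP2 s hs' => ?_⟩
  obtain ⟨p, hp⟩ := hP2.ne
  have k1 := const (hP2.conn hp (hs'.le (mul_mem_tr.mpr hp))) (fun g => u g - m * F g)
    fun g i h1 h2 => by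
      have k2 := u1 g i
      have k3 : av X.w L β (e g i) = 0 := by
        change aug L (prAt X.w L (e g i) β) = 0
        rw [prAt_eq_zero (Z := Γ.N t3 L) (fun l hl g hg => (Gen.mul_mem_N hl).mpr hg) β
          (fun g i hg => by_contra fun n => hg ⟨1, L.one_mem, (hr g ⟨i, n⟩).trans ht⟩)
          (hP2.out (not_not.mp h1)), map_zero]
      rw [k3, hc1 g i 1 L.one_mem (by simpa using hs (not_not.mp h1))
        (by simpa using hs (not_not.mp h2)), inv_one, one_mul, one_mul, mul_sub] at k2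
      omega
  rw [hF, u3 ⟨s, s.2.1⟩, mul_add] at k1
  have k2 : m * (φ s).toAdd = 0 := by omega
  exact (mul_eq_zero.mp k2).resolve_left hm

end Pool.Agent.Lib.MP_d98eb9_al.W
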