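import Pool.Agent.Lib.MP_d98eb9_al.P.FixIn

/-! A deep component with exactly one deep component of every higher level. -/

namespace Pool.Agent.Lib.MP_d98eb9_al.W

open Gen FixIn

variable {G : Type} [Group G] {Γ : Gen G} {L : Subgroup G} {U P : Set G} {j k r : ℕ}

theorem FixIn.near_blk (hU : Γ.Comp (Γ.N k L) U) : Γ.Near (Γ.fr U) (blk L U) :=
  Near.trans ⟨1, fr_subset_inner U⟩ (fr_near hU)

theorem FixIn.blk_near (hU : Γ.Comp (Γ.N k L) U) : Γ.Near (blk L U) (Γ.fr U) :=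
  near_of_inv (fun c hc a ha => by
    rw [← hc.2, ← tr_fr]
    simpa using ha) (by
    obtain ⟨p, hp⟩ := hU.ne
    obtain ⟨b, hb, -⟩ := exists_fr (Γ := Γ) hp fun e => hU.out e (subset_N _ _ L.one_mem)
    exact ⟨b, hb⟩)

/-- The stabiliser of a component of high level is finitely generated. -/
theorem blk_fg (h0 : Γ.LP0) (hrc : Γ.RC r L) (hr : r ≤ k) (hU : Γ.Comp (Γ.N k L) U) :
    (blk L U).FG := by
  obtain ⟨r0, hr0⟩ := h0.rc_fr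
  exact fg_of_near (hr0 U (fun _ hp _ hq => hU.conn hp hq) fun _ hp _ hq =>
    hU.conn' ⟨1, subset_N _ _ L.one_mem⟩ (fun _ hp _ hq => conn_N hrc hr hp hq) hp hq)
    (FixIn.near_blk hU) (FixIn.blk_near hU)

theorem FixIn.inf_of_deep (hd : ¬ Γ.Near P L) : P.Infinite := fun h => by
  obtain ⟨r, hr⟩ := bdd_of_finite (Γ := Γ) h 1
  exact hd ⟨r, fun p hp => ⟨1, L.one_mem, hr p hp⟩⟩

/-- If distinct deep components in `U` are separated by finite cuts of `U`, then some deep component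
in `U` contains exactly one deep component of every higher level. -/
theorem fix_in_dl (h1 : OE (⊤ : Subgroup G)) (tf : ∀ g : G, IsOfFinOrder g → g = 1)
    (hL : (L : Set G).Infinite) (hU : Γ.Comp (Γ.N j L) U) (hd : ¬ Γ.Near U L)
    (hfg : (blk L U).FG)
    (DL : ∀ t, j ≤ t → ∀ C1 C2, Γ.Comp (Γ.N t L) C1 → Γ.Comp (Γ.N t L) C2 → C1 ⊆ U → C2 ⊆ U →
      ¬ Γ.Near C1 L → ¬ Γ.Near C2 L → C1 ≠ C2 →
      ∃ D, (Cx Γ U D).Finite ∧ (C1 ∩ D).Infinite ∧ (C2 \ D).Infinite) :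
    ∃ t, j ≤ t ∧ ∃ P, Γ.Comp (Γ.N t L) P ∧ P ⊆ U ∧ ¬ Γ.Near P L ∧
      (∀ D, (Cx Γ U D).Finite → (P ∩ D).Finite ∨ (P \ D).Finite) ∧
      ∀ s, t ≤ s → ∃! Q, Γ.Comp (Γ.N s L) Q ∧ Q ⊆ P ∧ ¬ Γ.Near Q L := by
  obtain ⟨t, ht, P, a1, a2, a3, h⟩ := fix_in h1 tf hL hU hd hfg
  refine ⟨t, ht, P, a1, a2, a3, h, fun s hs => ?_⟩
  obtain ⟨Q, hQ⟩ := deep_sub a1 a3 hs
  refine ⟨Q, hQ, fun Q' hQ' => by_contra fun hn => ?_⟩
  obtain ⟨D, hD, i1, i2⟩ := DL s (ht.trans hs) Q' Q hQ'.1 hQ.1 (hQ'.2.1.trans a2) (hQ.2.1.trans a2)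
    hQ'.2.2 hQ.2.2 hn
  rcases h D hD with k | k
  · exact i1 (k.subset (Set.inter_subset_inter_left _ hQ'.2.1))
  · exact i2 (k.subset (Set.sdiff_subset_sdiff_left hQ.2.1))

/-- The unique deep component is fixed by the stabiliser. -/
theorem tr_eq_of_unique {Q : Set G} {s : ℕ}
    (h : ∃! Q, Γ.Comp (Γ.N s L) Q ∧ Q ⊆ P ∧ ¬ Γ.Near Q L) (hQ : Γ.Comp (Γ.N s L) Q)
    (hQP : Q ⊆ P) (hd : ¬ Γ.Near Q L) {c : G} (hc : c ∈ blk L P) : tr c Q = Q := by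
  refine h.unique ⟨tr_comp hQ hc.1, (tr_mono c hQP).trans hc.2.le, fun e => hd ?_⟩ ⟨hQ, hQP, hd⟩
  have := e.tr c⁻¹
  rwa [tr_inv_tr, tr_subgroup (L.inv_mem hc.1)] at this

/-- With unique deep components, deep points of `P` are joined far from `L`. -/
theorem conn_of_unique {s : ℕ} (hP : Γ.Comp (Γ.N k L) P) (hs : k ≤ s)
    (h : ∃! Q, Γ.Comp (Γ.N s L) Q ∧ Q ⊆ P ∧ ¬ Γ.Near Q L) :
    ∃ R, ∀ p ∈ P, ∀ q ∈ P, p ∉ Γ.N R L → q ∉ Γ.N R L → Γ.Conn (Γ.N s L) p q := by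
  obtain ⟨Φ, hΦ, -, h2⟩ := comp_finite (Γ := Γ) s L
  have h3 : ∀ W : Set G, ∃ r, Γ.Near W L → W ⊆ Γ.N r L := fun W => by
    by_cases h : Γ.Near W L
    · exact h.imp fun _ e _ => e
    · exact ⟨0, fun e => absurd e h⟩
  choose r hr using h3
  obtain ⟨R, hR⟩ := (hΦ.image r).bddAbove
  have key : ∀ p ∈ P, p ∉ Γ.N (R + s) L → Γ.Comp (Γ.N s L) {q | Γ.Conn (Γ.N s L) p q} ∧
      {q | Γ.Conn (Γ.N s L) p q} ⊆ P ∧ ¬ Γ.Near {q | Γ.Conn (Γ.N s L) p q} L := fun p hp hn => by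
    have hQ : Γ.Comp (Γ.N s L) {q | Γ.Conn (Γ.N s L) p q} :=
      ⟨p, fun e => hn (N_mono (by omega) subset_rfl e), rfl⟩
    refine ⟨hQ, fun q hq => (hP.eq hp).ge (Conn.mono hq (N_mono hs subset_rfl)), fun e => ?_⟩
    obtain ⟨c, hc, W, hW, e1⟩ := h2 _ hQ
    have e2 : Γ.Near W L := by
      have := e.tr c⁻¹
      rwa [e1, tr_inv_tr, tr_subgroup (L.inv_mem hc)] at this
    have e3 : p ∈ tr c W := e1 ▸ (Conn.refl _ _ : p ∈ {q | Γ.Conn (Γ.N s L) p q})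
    exact hn (N_mono (le_trans (hR ⟨W, hW, rfl⟩) (by omega)) subset_rfl
      ((mul_mem_N (L.inv_mem hc)).mp (hr W e2 e3)))
  refine ⟨R + s, fun p hp q hq k1 k2 => ?_⟩
  have e := h.unique (key p hp k1) (key q hq k2)
  exact e.ge (Conn.refl _ _ : q ∈ {x | Γ.Conn (Γ.N s L) q x})

end Pool.Agent.Lib.MP_d98eb9_al.W
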