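import Pool.Agent.Lib.MP_d98eb9_al.P.UndSt
import Pool.Agent.Lib.MP_d98eb9_al.W.Rep

/-! Symmetry of linking: the second condition follows from the first. -/

namespace Pool.Agent.Lib.MP_d98eb9_al.W

open MonoidAlgebra

variable {G : Type} [Group G] {Γ : Gen G}

namespace Und21

variable {w : G →* ℤ}

/-- The basic cochains. -/
noncomputable def bc (w : G →* ℤ) {n : ℕ} (i : Fin n) : Du w ⊤ (Fr G n) :=
  rm w ⊤ (Finsupp.lapply i) 1

/-- An element of the group as an element of the group ring of the top subgroup. -/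
noncomputable def tp (g : G) : ZG (⊤ : Subgroup G) := single ⟨g, trivial⟩ 1

theorem du_ind {n : ℕ} {Z : Set G} (ψ : Du w ⊤ (Fr G n))
    (h : ∀ g i, g ∉ Z → co ψ.ev (e g i) = 0) (φ : Du w ⊤ (Fr G n) →+ ℤ)
    (hφ : ∀ g ∈ Z, ∀ i, φ (tp g • bc w i) = 0) : φ ψ = 0 := by
  rw [(Rep.dbFr G n).dual_eq ψ, map_sum]
  refine Finset.sum_eq_zero fun (i : Fin n) _ => ?_
  have h1 : ∀ r, φ (rm w ⊤ (Finsupp.lapply i) r) =
      lsum (fun g => φ (rm w ⊤ (Finsupp.lapply i) (single g 1))) r :=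
    hom_ext (f := φ.comp (rm w ⊤ (Finsupp.lapply i))) fun g => by simp
  change φ (rm w ⊤ (Finsupp.lapply i) (ψ.ev (e 1 i))) = 0
  rw [h1, lsum_congr (u' := fun _ => 0), lsum_const, smul_zero]
  intro g hg
  have h2 : g⁻¹ ∈ Z := by_contra fun hn => Finsupp.mem_support_iff.1 hg (by
    have := h _ i hn
    rwa [Loc.e_eq, Loc.co_single, inv_inv] at this)
  have h3 := hφ _ h2 i
  rw [tp, bc, ← rm_mul, one_mul, single_eq_zsmul, map_zsmul, map_zsmul, smul_eq_mul] at h3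
  have h4 := congrArg (w g * ·) h3
  simpa [← mul_assoc, w_mul_inv] using h4

theorem far {n : ℕ} (Γ : Gen G) {T : Type} [Finite T] (q : T → Du w ⊤ (Fr G n)) :
    ∃ ρ, ∀ t g p i, ¬ Γ.d g p ≤ ρ → co (tp g • q t).ev (e p i) = 0 := by
  obtain ⟨ρ, hρ⟩ := Γ.bdd_of_finite (Set.finite_iUnion fun t => co_finite (q t).ev) 1
  refine ⟨ρ, fun t g p i hn => ?_⟩
  have h1 := co_smul (⟨g, trivial⟩ : (⊤ : Subgroup G)) (q t) (e (g⁻¹ * p) i)
  rw [smul_e, mul_inv_cancel_left] at h1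
  rw [tp, h1, show co (q t).ev (e (g⁻¹ * p) i) = 0 from by_contra fun h =>
    hn ((Gen.d_eq g p).trans_le (hρ _ (Set.mem_iUnion.2 ⟨t, i, h⟩))), mul_zero]

/-- Evaluation at a chain. -/
noncomputable def ca {n : ℕ} (x : Fr G n) : Du w ⊤ (Fr G n) →+ ℤ :=
  AddMonoidHom.mk' (fun q => co q.ev x) fun a b => by simp [co_apply]

end Und21

open Und21

theorem und2_of_und1 {X : Geo Γ} {L : Subgroup G} {U : Set G} (hU : Γ.Near (Γ.fr U) L)
    (h : Und1 X L U) : Und2 X L U := by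
  obtain ⟨R, hR⟩ := hU
  obtain ⟨D⟩ := X.dual ⊤
  let t : Fin Γ.n → (⊤ : Subgroup G) := fun i => ⟨Γ.s i, trivial⟩
  have ht : Subgroup.closure (Set.range t) = ⊤ := by
    apply Subgroup.map_injective (Subgroup.subtype_injective ⊤)
    rw [MonoidHom.map_closure, ← Set.range_comp, ← MonoidHom.range_eq_map, Subgroup.range_subtype]
    exact Γ.gen
  let A : Fr (⊤ : Subgroup G) Γ.n →+ Fr G Γ.n := ofFun fun c i => e (c : G) i
  have hA : ∀ (g : G) x, A (tp g • x) = (single g 1 : ZG G) • A x :=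
    fun g => fr_ext (φ := A.comp (DistribSMul.toAddMonoidHom _ (tp g)))
      (ψ := (DistribSMul.toAddMonoidHom _ (single g 1 : ZG G)).comp A) fun c i => by
        simp [A, tp, smul_e]
  have hb : ∀ x, bd Γ.s (A x) =
      lsum (fun c : (⊤ : Subgroup G) => (single (c : G) 1 : ZG G)) (bd t x) :=
    fr_ext (φ := (bd Γ.s).toAddMonoidHom.comp A)
      (ψ := (lsum fun c : (⊤ : Subgroup G) => (single (c : G) 1 : ZG G)).comp
        (bd t).toAddMonoidHom) fun g i => by simp [A, bd_e, t]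
  let α1 : Fr (⊤ : Subgroup G) Γ.n →ₗ[ZG (⊤ : Subgroup G)] Du X.w ⊤ (Fr G X.m) :=
    Finsupp.linearCombination _ (D.ν 1)
  have hα : ∀ x, α1 x = ofFun D.ν (A x) :=
    fr_ext (φ := α1.toAddMonoidHom) (ψ := (ofFun D.ν).comp A) fun c i => by
      change α1 (e c i) = ofFun D.ν (A (e c i))
      rw [ofFun_e, ofFun_e, e, Finsupp.linearCombination_single, D.ν_smul, mul_one]
  have hν : ∀ x, D.e1 (ofFun D.ν x) = lsum D.q (bd Γ.s x) :=
    fr_ext (φ := D.e1.toAddMonoidHom.comp (ofFun D.ν))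
      (ψ := (lsum D.q).comp (bd Γ.s).toAddMonoidHom) fun g i => by simp [D.e1_ν, bd_e]
  have hν' : ∀ (g : G) x, ofFun D.ν ((single g 1 : ZG G) • x) = tp g • ofFun D.ν x :=
    fun g => fr_ext (φ := (ofFun D.ν).comp (DistribSMul.toAddMonoidHom _ (single g 1 : ZG G)))
      (ψ := (DistribSMul.toAddMonoidHom _ (tp g)).comp (ofFun D.ν)) fun c i => by
        simp [tp, smul_e, D.ν_smul]
  have h1 : ∀ v, D.e1 (α1 v) = bd t v • D.q 1 :=
    fr_ext (φ := D.e1.toAddMonoidHom.comp α1.toAddMonoidHom)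
      (ψ := ((LinearMap.toSpanSingleton _ _ (D.q 1)) ∘ₗ bd t).toAddMonoidHom) fun c i => by
        simp [hα, A, D.e1_ν, bd_e, sub_smul, D.q_smul, t]
  have p2 := (Rep.dbFr G X.m).projective (w := X.w) (C := ⊤)
  have pQ := D.proj
  obtain ⟨β0, hβ0⟩ := exists_beta' D.η_smul
  obtain ⟨β1, hβ⟩ := Rep.lift p2 (bd t) (β0 ∘ₗ D.e1) fun x =>
    (exact_bd t ht _).mp (by rw [LinearMap.comp_apply, hβ0]; exact D.exη.apply_apply_eq_zero x)
  simp only [LinearMap.comp_apply] at hβ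
  obtain ⟨h0, hh0⟩ := Rep.lift D.proj D.e1
    (LinearMap.id - LinearMap.toSpanSingleton _ _ (D.q 1) ∘ₗ β0) fun x =>
      (D.exη _).mp (by
        rw [LinearMap.sub_apply, LinearMap.comp_apply, LinearMap.toSpanSingleton_apply, map_sub,
          eps_smul D.η_smul, hβ0, D.η_q, mul_one, LinearMap.id_apply, sub_self])
  simp only [LinearMap.sub_apply, LinearMap.comp_apply, LinearMap.toSpanSingleton_apply,
    LinearMap.id_apply] at hh0
  obtain ⟨k1, hk1⟩ := Rep.lift p2 (Du.map X.w ⊤ X.d1)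
    (LinearMap.id - α1 ∘ₗ β1 - h0 ∘ₗ D.e1) fun y => (D.ex2 _).mp (by
      simp only [LinearMap.sub_apply, LinearMap.comp_apply, LinearMap.id_apply, map_sub, hh0,
        h1, hβ, sub_self])
  simp only [LinearMap.sub_apply, LinearMap.comp_apply, LinearMap.id_apply] at hk1
  choose ν2 hν2 using fun k => (D.ex2 (ofFun D.ν (X.d1 (e 1 k)))).mp (by
    rw [hν, X.ex1.apply_apply_eq_zero, map_zero])
  obtain ⟨ρ1, hρ1⟩ := far Γ fun k => k1 (bc X.w k)
  choose ρ2 hρ2 using fun k => loc Γ (A (β1 (bc X.w k)))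
  obtain ⟨ρ3, hρ3⟩ := far Γ ν2
  obtain ⟨ρ4, hρ4⟩ := D.ν_loc
  intro c
  obtain ⟨ρ, hρ⟩ := h (c + Finset.univ.sup ρ2)
  refine ⟨c + ρ1 + (ρ + R + ρ3), fun y hy z hz hs => ?_⟩
  obtain ⟨Y, rfl⟩ := (X.ex1 z).mp hz
  let ψ := Du.map X.w ⊤ X.d1 (Du.mk X.w ⊤ y)
  have hψ : D.e1 ψ = 0 := D.ex2.apply_apply_eq_zero _
  have e1 : co (k1 ψ).ev (X.d1 Y) = 0 :=
    du_ind ψ hy ((ca (X.d1 Y)).comp k1.toAddMonoidHom) fun g hg k => by
      change co (k1 (tp g • bc X.w k)).ev (X.d1 Y) = 0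
      rw [map_smul]
      exact hs _ fun p i hp => hρ1 k g p i fun hd =>
        hp.2 (Gen.N_mono (by omega) subset_rfl (Gen.mem_N_of_d hg hd))
  obtain ⟨r, hr⟩ := loc Γ Y
  obtain ⟨y2, hy2⟩ := exists_co ((ca Y).comp (ofFun D.ν))
    ((Gen.ball_finite (Γ := Γ) 1 (r + ρ4)).subset fun g ⟨i, hi⟩ => by
      by_contra hn
      have := hr ℤ (co (D.ν g i).ev) 1 fun p k hp => by_contra fun h' => hn (by
        have h2 := hρ4 g i p k h'
        have h3 := Γ.d_tri 1 p g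
        rw [Gen.d_comm] at h2
        change Γ.d 1 g ≤ _
        omega)
      rw [← one_def, one_smul] at this
      exact hi (by simpa [ca] using this))
  have e2 : co y2 (A (β1 ψ)) = 0 := by
    refine hρ y2 (fun g k hg => ?_) _ (by rw [hb, hβ, hψ, map_zero, map_zero]) fun φ hφ =>
      du_ind ψ hy (φ.comp (A.comp β1.toAddMonoidHom)) fun g hg k => ?_
    · rw [hy2, Loc.e_eq, map_smul]
      change co (ofFun D.ν _).ev Y = 0
      rw [hν', ← hν2, ← map_smul]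
      refine hs (co (tp g • ν2 k).ev) fun p i hp => hρ3 k g p i fun hd => hp.2 ?_
      rcases hg with hg | hg
      · exact Gen.N_mono (by omega) subset_rfl (Gen.mem_N_of_d hg hd)
      · exact Gen.N_mono (by omega) subset_rfl (Gen.N_N hR (Gen.mem_N_fr hp.1 ⟨g, hg, hd⟩))
    · change φ (A (β1 (tp g • bc X.w k))) = 0
      rw [map_smul, hA]
      exact hρ2 k ℤ φ g fun p i hd => hφ p i (Gen.mem_N_of_d hg
        (hd.trans (Finset.le_sup (Finset.mem_univ k))))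
  have e3 := congrArg (ca Y) (hk1 ψ)
  rw [hψ, map_zero, sub_zero, map_sub, hα] at e3
  rw [hy2] at e2
  exact sub_eq_zero.1 (e3.symm.trans e1) |>.trans e2

end Pool.Agent.Lib.MP_d98eb9_al.W
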