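import Pool.Agent.Lib.MP_d98eb9_al.P.UndA
import Pool.Agent.Lib.MP_d98eb9_al.P.FixDL
import Pool.Agent.Lib.MP_d98eb9_al.P.Dies
import Pool.Agent.Lib.MP_d98eb9_al.P.Und21
import Pool.Agent.Lib.MP_d98eb9_al.E.End

/-! Every deep component other than the fixed end has a door. -/

namespace Pool.Agent.Lib.MP_d98eb9_al.W

open MonoidAlgebra Gen

variable {G : Type} [Group G] {Γ : Gen G}

namespace UndP

/-- The cochains supported near `J` lie in a finitely generated module. -/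
theorem van_fin (Γ : Gen G) (w : G →* ℤ) (J : Subgroup G) (n R : ℕ) :
    ∃ T : Set (Du w J (Fr G n)), T.Finite ∧ ∀ y : Du w J (Fr G n),
      (∀ g i, g ∉ Γ.N R J → co y.ev (e g i) = 0) → y ∈ Submodule.span (ZG J) T := by
  classical
  choose δ hδ using fun p : G × Fin n => exists_co (ofFun fun h j => if (h, j) = p then 1 else 0)
    ((Set.finite_singleton p.1).subset fun g ⟨i, hi⟩ => by
      rw [ofFun_e] at hi
      exact congrArg Prod.fst (by_contra fun h => hi (if_neg h) : (g, i) = p))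
  have hδ' : ∀ p g i, co (δ p) (e g i) = if (g, i) = p then 1 else 0 := fun p g i => by
    rw [hδ, ofFun_e]
  refine ⟨(fun p => Du.mk w J (δ p)) '' ({f | Γ.d 1 f ≤ R} ×ˢ Set.univ),
    (Set.Finite.prod (Gen.ball_finite (Γ := Γ) 1 R) Set.finite_univ).image _, fun y hy => ?_⟩
  have h1 : y = ∑ p ∈ (co_finite y.ev).toFinset ×ˢ Finset.univ,
      co y.ev (e p.1 p.2) • Du.mk w J (δ p) := by
    refine Du.ext fun x => DFunLike.congr_fun (co_ext (fr_ext fun g i => ?_)) x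
    let ev : Du w J (Fr G n) →+ ℤ := AddMonoidHom.mk' (fun q => co q.ev (e g i))
      fun a b => by simp [co_apply]
    change ev y = ev _
    rw [map_sum, Finset.sum_eq_single (g, i) (fun p _ hp => ?_) fun hp => ?_]
    · rw [map_zsmul]
      change _ = _ • co (δ _) _
      rw [hδ', if_pos rfl, smul_eq_mul, mul_one]
      rfl
    · rw [map_zsmul]
      change _ • co (δ _) _ = _
      rw [hδ', if_neg hp.symm, smul_zero]
    · rw [show co y.ev (e (g, i).1 (g, i).2) = 0 from by_contra fun h => hp (by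
        simpa using ⟨i, h⟩), zero_smul, map_zero]
  rw [h1]
  refine Submodule.sum_mem _ fun p _ => ?_
  by_cases h0 : co y.ev (e p.1 p.2) = 0
  · rw [h0, zero_smul]
    exact Submodule.zero_mem _
  obtain ⟨c, hc, hd⟩ : p.1 ∈ Γ.N R J := by_contra fun h => h0 (hy _ _ h)
  have h2 : Du.mk w J (δ p) = w c⁻¹ • (single (⟨c, hc⟩ : J) 1 : ZG J) •
      Du.mk w J (δ (c⁻¹ * p.1, p.2)) := by
    refine Du.ext fun x => DFunLike.congr_fun (co_ext (fr_ext fun g i => ?_)) x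
    have h3 := co_smul (w := w) (⟨c, hc⟩ : J) (Du.mk w J (δ (c⁻¹ * p.1, p.2))) (e (c⁻¹ * g) i)
    rw [smul_e, mul_inv_cancel_left, Du.ev_mk, hδ'] at h3
    have h4 : ∀ (k : ℤ) (q : Du w J (Fr G n)), co (k • q).ev (e g i) = k * co q.ev (e g i) :=
      fun k q => map_zsmul (AddMonoidHom.mk' (fun q : Du w J (Fr G n) => co q.ev (e g i))
        fun a b => by simp [co_apply]) k q
    rw [h4, h3, ← mul_assoc, w_inv_mul, one_mul, Du.ev_mk, hδ']
    exact if_congr (by simp [Prod.ext_iff]) rfl rfl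
  rw [h2]
  refine zsmul_mem (zsmul_mem (Submodule.smul_mem _ _ (Submodule.subset_span ?_)) _) _
  exact ⟨(c⁻¹ * p.1, p.2), ⟨by rwa [d_eq] at hd, trivial⟩, rfl⟩

variable {L : Subgroup G} {P : Set G} {t : ℕ}

theorem cover (hP : Γ.Comp (Γ.N t L) P) {s : ℕ} (hs : t ≤ s)
    (h : ∃! Q, Γ.Comp (Γ.N s L) Q ∧ Q ⊆ P ∧ ¬ Γ.Near Q L) {Q : Set G} (hQ : Γ.Comp (Γ.N s L) Q)
    (hQP : Q ⊆ P) (hd : ¬ Γ.Near Q L) : ∃ c, ∀ p ∈ P, p ∉ Γ.N c (blk L P) → p ∈ Q := by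
  obtain ⟨R, hR⟩ := conn_of_unique hP hs h
  obtain ⟨x, hx, hx'⟩ := PD.exists_far hd R
  obtain ⟨c, hc⟩ := near_of_stab (Γ := Γ) (J := L) (H := blk L P) (A := P ∩ Γ.N R L)
    ⟨R, Set.inter_subset_right⟩ fun c hc a ha h => FixIn.mem_blk hP hc ha.1 h.1
  exact ⟨c, fun p hp hn => (hQ.eq hx).ge (hR x (hQP hx) p hp hx' fun h => hn (hc ⟨hp, h⟩))⟩

/-- The stabiliser of a component without doors and with one end is of type `FP_2`. -/
theorem fp2 (X : Geo Γ) (hfg : L.FG) (hP : Γ.Comp (Γ.N t L) P) (hfg' : (blk L P).FG)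
    (hd : ¬ Γ.Near P L) (hu : ∀ s, t ≤ s → ∃! Q, Γ.Comp (Γ.N s L) Q ∧ Q ⊆ P ∧ ¬ Γ.Near Q L)
    (hE : ∀ r, ∃ Q, Γ.Comp (Γ.N r L) Q ∧ (∀ k ∈ L, tr k Q = Q) ∧ ¬ Q ⊆ P)
    (u1 : Und1 X L P) (u2 : Und2 X L P) : IsFP2 (blk L P) := by
  classical
  have hcov := fun s hs Q => cover hP (s := s) (Q := Q) hs (hu s hs)
  have hinv := fun s hs Q q1 q2 q3 c => tr_eq_of_unique (Q := Q) (c := c) (hu s hs) q1 q2 q3
  obtain ⟨a, ha⟩ := FixIn.near_blk hP
  have hS : ∀ c ∈ blk L P, c ∈ L ∧ tr c P = P := fun c hc => hc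
  generalize blk L P = S at *
  have hSL : (S : Set G) ⊆ L := fun c hc => (hS c hc).1
  obtain ⟨k, τ, ht⟩ := exists_gen_family hfg'
  obtain ⟨D⟩ := X.dual S
  have := infinite_quot (Γ := Γ) (J := S) fun hn => hd ((Near.of_subset (Set.subset_univ _)).trans
    (hn.trans (Near.of_subset hSL)))
  have := X.ker_proj S τ ht
  obtain ⟨R, hR⟩ : Γ.Near (Γ.fr P) L := ⟨_, hP.fr_subset.trans (N_N subset_rfl)⟩
  obtain ⟨ρ1, hρ1⟩ := loc_map Γ X.d1
  obtain ⟨ρ, hρ⟩ := D.ν_loc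
  obtain ⟨r1, hr1⟩ := acyc2 X hfg hR u1 hE (R + ρ1)
  obtain ⟨r2, hr2⟩ := conn_of_unique hP (s := r1 + R + ρ + t) (by omega) (hu _ (by omega))
  obtain ⟨x0, x1, x2⟩ := Set.not_subset.1 fun h => hd ⟨r2, h⟩
  have hW : ∀ c ∈ S, ∀ g, c * g ∈ P ↔ g ∈ P := fun c hc g => by
    rw [← mul_mem_tr (g := c) (p := g), (hS c hc).2]
  choose γ hγ hγ' using fun κ => exists_chain (Γ := Γ) (Z := Γ.N (r1 + R + ρ + t) L ∪ Pᶜ)
    ((hr2 x0 x1 (τ κ * x0) ((hW _ (τ κ).2 _).2 x1) x2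
      fun h => x2 ((mul_mem_N (hS _ (τ κ).2).1).1 h)).inside
      (fun _ h => N_mono (by omega) subset_rfl (hR h.2)) x1
      fun _ h => h.1.resolve_right fun h' => h' h.2)
  let α1 : (Fin k →₀ ZG S) →ₗ[ZG S] Du X.w S (Fr G X.m) :=
    Finsupp.linearCombination (ZG S) fun κ => ofFun D.ν (γ κ)
  have h1 : ∀ v, D.e1 (α1 v) = bd τ v • D.q x0 := fun v => by
    have h2 : ∀ x, D.e1 (ofFun D.ν x) = lsum D.q (bd Γ.s x) :=
      fr_ext (φ := D.e1.toAddMonoidHom.comp (ofFun D.ν))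
        (ψ := (lsum D.q).comp (bd Γ.s).toAddMonoidHom) fun g i => by simp [D.e1_ν, bd_e]
    induction v using Finsupp.induction_linear with
    | zero => simp
    | add a b ha hb => rw [map_add, map_add, map_add, add_smul, ha, hb]
    | single κ s =>
      simp only [α1, bd, Finsupp.linearCombination_single, map_smul, h2, smul_eq_mul, mul_smul,
        sub_smul, one_smul, D.q_smul]
      rw [← bd, hγ, map_sub, lsum_single, lsum_single, one_smul, one_smul]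
  have h2 : ∀ v, α1 v ∈ Acyc.van X.w S X.m (Γ.N r1 L ∪ Pᶜ) fun c hc g hg =>
      hg.imp (mul_mem_N (hS c hc).1).2 fun h h' => h ((hW c hc g).1 h') := fun v => by
    rw [Finsupp.linearCombination_apply]
    refine Submodule.sum_mem _ fun κ _ => Submodule.smul_mem _ _ fun h hh l => ?_
    refine hγ' κ ℤ (AddMonoidHom.mk' (fun x => co (ofFun D.ν x).ev (e h l))
      fun a b => by simp [co_apply]) fun g i hg => ?_
    change co (ofFun D.ν (e g i)).ev (e h l) = 0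
    rw [ofFun_e]
    by_contra h0
    have h3 := hρ g i h l h0
    rw [d_comm] at h3
    refine hg (Or.inl ?_)
    rcases hh with h4 | h4
    · exact N_mono (by omega) subset_rfl (mem_N_of_d h4 h3)
    · exact N_mono (by omega) subset_rfl
        (HonP.cross hR h3 fun h5 => h4 (h5.2 (by_contra fun h6 => hg (Or.inr h6))))
  obtain ⟨c1, hc1⟩ := supp (Γ := Γ) α1
  obtain ⟨ρ2, hρ2⟩ := u2 c1
  obtain ⟨A, ⟨A1, A2, A3⟩, -⟩ := hu (t + ρ2) (by omega)
  obtain ⟨cA, hcA⟩ := hcov _ (by omega) _ A1 A2 A3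
  have h3 : ∀ κ : LinearMap.ker (bd τ), ∃ y : Du X.w S (Fr G Γ.n),
      Du.map X.w S X.d1 y = α1 κ ∧ ∀ g i, g ∉ Γ.N (cA + a + 1) S → co y.ev (e g i) = 0 := fun κ => by
    obtain ⟨y, hy⟩ := (D.ex2 (α1 κ)).1 (by rw [h1, LinearMap.mem_ker.1 κ.2, zero_smul])
    have h4 : ∀ x, co y.ev (X.d1 x) = co (α1 κ).ev x := fun x => by rw [← hy]; rfl
    obtain ⟨θ, hθ⟩ := hr1 y.ev fun g l hg => by rw [h4, h2 _ g hg]
    have hz : ∀ (y : Fr G Γ.n →ₗ[ZG G] ZG G) (θ : ZG G →ₗ[ZG G] ZG G) x,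
        co (y - θ ∘ₗ bd Γ.s) (X.d1 x) = co y (X.d1 x) := fun y θ x => by
      rw [Acyc.co_sub, co_apply (θ ∘ₗ _), LinearMap.comp_apply, X.ex1.apply_apply_eq_zero, map_zero]
      simp
    let y1 := y.ev - θ ∘ₗ bd Γ.s
    have h5 : ∀ g i, g ∈ Γ.N (R + ρ1) L → co y1 (e g i) = 0 := fun g i hg => by
      rw [Acyc.co_sub, hθ g i hg]
      exact sub_self _
    have h6 : ∀ x, co y1 (X.d1 x) = co (α1 κ).ev x := fun x => by rw [hz, h4]
    obtain ⟨y2, h7⟩ := exists_co (ofFun fun g i => if g ∈ P then co y1 (e g i) else 0)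
      ((co_finite y1).subset fun g ⟨i, hi⟩ => ⟨i, fun h => hi (by simp [h])⟩)
    have h8 : ∀ x, co y2 (X.d1 x) = co (α1 κ).ev x := fr_ext
      (φ := (co y2).comp X.d1.toAddMonoidHom) fun g l => by
      change co y2 (X.d1 (e g l)) = _
      by_cases hg : g ∈ P
      · rw [← h6, ← sub_eq_zero]
        refine hρ1 ℤ (co y2 - co y1) g l fun h i hh => ?_
        rw [AddMonoidHom.sub_apply, h7, ofFun_e]
        split_ifs with h8
        · exact sub_self _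
        · rw [h5 h i (HonP.cross hR hh fun h9 => h8 (h9.1 hg)), sub_self]
      · rw [h2 _ g (Or.inr hg)]
        refine hρ1 ℤ (co y2) g l fun h i hh => ?_
        rw [h7, ofFun_e]
        split_ifs with h8
        · exact h5 h i (HonP.cross hR hh fun h9 => hg (h9.2 h8))
        · rfl
    obtain ⟨u, hu'⟩ := pot_on A (co y2) fun z hz hs => hρ2 y2
      (fun g l hg => by rw [h8, hc1 _ g l fun h => hg (N_mono le_rfl hSL h)]) z hz
      (hs.mono fun p hp => ⟨A2 hp, fun h => A1.out hp (N_mono (by omega) subset_rfl h)⟩)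
    obtain ⟨b, hb⟩ := bdd_of_finite (Γ := Γ) (co_finite y2) 1
    obtain ⟨Q, Q1, Q2, Q3⟩ := FixIn.deep_sub A1 A3 (s := t + ρ2 + b) (by omega)
    obtain ⟨x, hx⟩ := Q1.ne
    obtain ⟨cQ, hcQ⟩ := hcov _ (by omega) _ Q1 (Q2.trans A2) Q3
    obtain ⟨k1, k2⟩ := ae (Γ := Γ) (J := S) (fun c hc => hinv _ (by omega) A A1 A2 A3 c hc)
      (fun p hp q hq => A1.conn hp hq) Q2 (x := x)
      (fun c hc => (hinv _ (by omega) Q Q1 (Q2.trans A2) Q3 c hc).le (mul_mem_tr.mpr hx))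
      (fun q hq => Q1.conn hx hq) (co_finite y2)
      (fun q hq h => Q1.out hq ⟨1, L.one_mem, (hb q h).trans (by omega)⟩) u fun g i g1 g2 g3 => by
        have k1 := hu' g i g1 g2
        have k2 : co y2 (e g i) = 0 := by_contra fun h => g3 ⟨i, h⟩
        omega
    obtain ⟨θ2, hθ2⟩ := exists_co0 (lsum fun g => if g ∈ A then u g - u x else 0)
      ((k2 cQ).subset fun g hg => by
        simp only [Set.mem_ofPred_eq, lsum_single, one_smul] at hg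
        split_ifs at hg with h9
        · exact ⟨h9, by_contra fun h => hg (by rw [k1 g (hcQ g (A2 h9) h), sub_self]),
            sub_ne_zero.mp hg⟩
        · exact absurd rfl hg)
    refine ⟨Du.mk X.w S (y2 - θ2 ∘ₗ bd Γ.s), Du.ext fun x => DFunLike.congr_fun
      (co_ext (q := (y2 - θ2 ∘ₗ bd Γ.s) ∘ₗ X.d1) (q' := (α1 κ).ev) fun x =>
        (hz y2 θ2 x).trans (h8 x)) x, fun g i hg => ?_⟩
    have g1 : g ∈ P ↔ g * Γ.s i ∈ P := by_contra fun h =>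
      hg (N_mono (by omega) subset_rfl (ha ⟨_, d_gen g i, h⟩))
    rw [Du.ev_mk, Acyc.co_sub]
    change _ - co θ2 (bd Γ.s (e g i)) = 0
    rw [hθ2, Loc.lsum_bd_e]
    by_cases g2 : g ∈ P
    · have g3 := hcA g g2 fun h => hg (N_mono (by omega) subset_rfl h)
      have g4 := hcA _ (g1.mp g2) fun h => hg (N_mono (by omega) subset_rfl
        (mem_N_of_d h (show Γ.d _ g ≤ 1 by rw [d_comm]; exact d_gen g i)))
      rw [if_pos g3, if_pos g4, hu' g i g3 g4]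
      ring
    · rw [if_neg fun h => g2 (A2 h), if_neg fun h => g2 (g1.mpr (A2 h)), h7, ofFun_e, if_neg g2]
      ring
  obtain ⟨α2, h4⟩ := Rep.lift (S := ZG S) (P := LinearMap.ker (bd τ)) this (Du.map X.w S X.d1)
    (α1 ∘ₗ (LinearMap.ker (bd τ)).subtype) fun κ => (h3 κ).imp fun _ h => h.1
  obtain ⟨β⟩ := exists_beta (D := D) ⟨x0, α1, α2, h1, h4⟩ ht
  obtain ⟨T, hT, hT'⟩ := van_fin Γ X.w S Γ.n (cA + a + 1)
  have := Module.Finite.span_of_finite (ZG S) hT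
  refine IsFP2.of_ker τ ht (Module.Finite.of_surjective
    ((β.β2 ∘ₗ (Submodule.span (ZG S) T).subtype).coprod β.k1) fun κ => ?_)
  obtain ⟨y, y1, y2⟩ := h3 κ
  refine ⟨(⟨y, hT' y y2⟩, κ), ?_⟩
  conv_rhs => rw [β.hk κ]
  refine congrArg (· + β.k1 κ) (Subtype.ext ?_)
  change (β.β2 y : Fin k →₀ ZG S) = _
  rw [β.hβ, β.hβ, y1]
  exact congrArg β.β1 (h4 κ).symm

end UndP

open UndP in
/-- A deep component beside a fixed end has a door. -/
theorem und_false (X : Geo Γ) (hX : Cyc X) {L : Subgroup G} (hfg : L.FG) (hL : L ≠ ⊥)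
    (hw : ∀ c ∈ L, X.w c = 1) (h0 : ∀ φ : L →* Multiplicative ℤ, φ = 1) {U : Set G} {k : ℕ}
    (hU : Γ.Comp (Γ.N k L) U) (hd : ¬ Γ.Near U L)
    (hE : ∀ r, ∃ Q, Γ.Comp (Γ.N r L) Q ∧ (∀ c ∈ L, tr c Q = Q) ∧ ¬ Q ⊆ U)
    (u1 : Und1 X L U) (u2 : Und2 X L U) : False := by
  have hinf : (L : Set G).Infinite := fun h => by
    have : Finite L := h
    obtain ⟨c, hc⟩ := Subgroup.ne_bot_iff_exists_ne_one.1 hL
    exact hc (Subtype.ext (X.tf c (L.subtype.isOfFinOrder (isOfFinOrder_of_finite c))))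
  obtain ⟨R1, h1⟩ := (fg_iff_rc (Γ := Γ)).mp hfg
  obtain ⟨ρ, hρ⟩ := door X hfg (fun h => hd ((Near.of_subset (Set.subset_univ _)).trans h)) u2
  obtain ⟨V, v1, v2, v3⟩ := FixIn.deep_sub hU hd (s := k + ρ + R1) (by omega)
  obtain ⟨t, ht, P, p1, p2, p3, -, hu⟩ := fix_in_dl X.oe X.tf hinf v1 v3
    (blk_fg X.lp0 h1 (by omega) v1) fun t ht C1 C2 c1 c2 s1 s2 =>
      hρ _ (by omega) V v2 v1 t ht C1 C2 s1 s2 c1 c2
  have hS := blk_fg X.lp0 h1 (by omega) p1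
  have hPU := p2.trans v2
  obtain ⟨φ, hφ⟩ := X.hom_of_fp2 hS (fp2 X hfg p1 hS p3 hu
    (fun r => (hE r).imp fun Q h => ⟨h.1, h.2.1, fun h' => h.2.2 (h'.trans hPU)⟩)
    (u1.mono hPU) (u2.mono hPU)) (fun hb => by
      have hf := (FixIn.fr_near p1).finite (by rw [hb]; simp)
      rcases OE.finite_of_fr (Γ := Γ) X.oe hf with h | h
      · exact FixIn.inf_of_deep p3 h
      · exact hinf (h.subset fun c hc h' => p1.out h' (subset_N _ _ hc))) fun r => by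
    obtain ⟨Q, ⟨q1, q2, q3⟩, -⟩ := hu (t + r) (by omega)
    obtain ⟨x, hx⟩ := q1.ne
    have hm : Γ.N r (blk L P) ⊆ Γ.N (t + r) L := N_mono (by omega) (blk_le L P)
    have hc : Γ.Comp (Γ.N r (blk L P)) _ := ⟨x, fun h => q1.out hx (hm h), rfl⟩
    exact ⟨_, hc, fun c hc' => (comp_tr hc hc').disj hc (mul_mem_tr.mpr (Conn.refl _ _))
      (Conn.mono ((q1.eq hx).le ((tr_eq_of_unique (hu _ (by omega)) q1 q2 q3 hc').le
        (mul_mem_tr.mpr hx))) hm)⟩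
  obtain ⟨t2, ht2⟩ := X.hom_dies hX hfg hw h0 p1 φ
  obtain ⟨Q, ⟨q1, q2, q3⟩, -⟩ := hu (t + t2) (by omega)
  exact hφ (MonoidHom.ext fun c => ht2 _ (by omega) Q q2 q1 c
    (tr_eq_of_unique (hu _ (by omega)) q1 q2 q3 c.2))

/-- The same for a nested sequence of invariant components. -/
theorem und_false' (X : Geo Γ) (hX : Cyc X) {L : Subgroup G} (hfg : L.FG) (hL : L ≠ ⊥)
    (hw : ∀ c ∈ L, X.w c = 1) (h0 : ∀ φ : L →* Multiplicative ℤ, φ = 1) {E : ℕ → Set G}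
    (hE : ∀ r, Γ.Comp (Γ.N r L) (E r) ∧ E (r + 1) ⊆ E r ∧ ∀ c ∈ L, tr c (E r) = E r)
    {U : Set G} {k : ℕ} (hU : Γ.Comp (Γ.N k L) U) (hd : ¬ Γ.Near U L) (hne : U ≠ E k)
    (u1 : Und1 X L U) (u2 : Und2 X L U) : False := by
  have hm : Antitone E := antitone_nat_of_succ_le fun r => (hE r).2.1
  refine und_false X hX hfg hL hw h0 hU hd (fun r => ⟨E r, (hE r).1, (hE r).2.2, fun h => ?_⟩) u1 u2
  obtain ⟨x, hx⟩ := (hE (r + k)).1.ne
  exact hne (hU.disj (hE k).1 (h (hm (by omega) hx)) (hm (by omega) hx))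

/-- Every deep component other than the fixed end has a door. -/
theorem not_und1 (X : Geo Γ) (hX : Cyc X) {L : Subgroup G} (hfg : L.FG) (hL : L ≠ ⊥)
    (hw : ∀ c ∈ L, X.w c = 1) (h0 : ∀ φ : L →* Multiplicative ℤ, φ = 1) {E : ℕ → Set G}
    (hE : ∀ r, Γ.Comp (Γ.N r L) (E r) ∧ E (r + 1) ⊆ E r ∧ ∀ c ∈ L, tr c (E r) = E r)
    {U : Set G} {k : ℕ} (hU : Γ.Comp (Γ.N k L) U) (hd : ¬ Γ.Near U L) (hne : U ≠ E k) :
    ¬ Und1 X L U := fun u1 => und_false' X hX hfg hL hw h0 hE hU hd hne u1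
  (und2_of_und1 ⟨_, hU.fr_subset.trans (N_N subset_rfl)⟩ u1)

end Pool.Agent.Lib.MP_d98eb9_al.W
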