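import Pool.Agent.Lib.MP_d98eb9_al.J.Main
import Pool.Agent.Lib.MP_d98eb9_al.PD.Lift
import Pool.Agent.Lib.MP_d98eb9_al.P.Fox
import Pool.Agent.Lib.MP_d98eb9_al.P.Door
import Pool.Agent.Lib.MP_d98eb9_al.P.Cert
import Pool.Agent.Lib.MP_d98eb9_al.P.Und
import Pool.Agent.Lib.MP_d98eb9_al.K.VL
import Pool.Agent.Lib.MP_d98eb9_al.K.V3
import Pool.Agent.Lib.MP_d98eb9_al.BH

/-! Assembly: subgroups that fix an end are of type `FP_2`. -/

namespace Pool.Agent.Lib.MP_d98eb9_al.W

open MonoidAlgebra Gen Pool.Agent.PD3K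

variable {G : Type} [Group G] {Γ : Gen G}

theorem wall_fg (X : Geo Γ) {L : Subgroup G} {j : ℕ} {U : Set G} (hrc : Γ.RC j L)
    (hU : Γ.Comp (Γ.N j L) U) : (blk L U).FG := by
  obtain ⟨ρ, hρ⟩ := X.lp0.rc_fr
  have h1 : (1 : G) ∈ Γ.N j (L : Set G) := subset_N j _ L.one_mem
  have hc := hρ U (fun p hp q hq => hU.conn hp hq) fun p hp q hq =>
    hU.conn' ⟨1, h1⟩ (fun a ha b hb => conn_N hrc le_rfl ha hb) hp hq
  have hne : (Γ.fr U).Nonempty := by
    obtain ⟨p, hp⟩ := hU.ne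
    obtain ⟨b, hb, -⟩ := exists_fr (Γ := Γ) hp (q := 1) fun h => hU.out h h1
    exact ⟨b, hb⟩
  exact fg_of_near hc (J.ExcP.near_blk hU) (J.near_of_fix (fun k hk => by
    rw [tr_fr, hk.2]) hne)

theorem infinite_of_ne (X : Geo Γ) {L : Subgroup G} (h : L ≠ ⊥) : (L : Set G).Infinite := by
  intro hf
  refine h (eq_bot_iff.mpr fun g hg => X.tf g ?_)
  have : Finite L := hf
  exact (Subgroup.subtype L).isOfFinOrder (isOfFinOrder_of_finite (⟨g, hg⟩ : L))

theorem not_near_of_ray {L : Subgroup G} (h : J.FixE Γ L) : ¬ Γ.Near Set.univ L :=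
  fun ⟨r, hr⟩ => by
    obtain ⟨E, hE⟩ := h
    obtain ⟨x, hx, -⟩ := (hE r).1
    exact hx (hr trivial)

theorem rk_of_end (X : Geo Γ) (hX : Cyc X)
    {L : Subgroup G} (hfg : L.FG) (hne : L ≠ ⊥) (hw : ∀ c ∈ L, X.w c = 1)
    (hb : ∀ f : L →* Multiplicative ℤ, f = 1) {E : ℕ → Set G} 
    (hE : ∀ r, Γ.Comp (Γ.N r L) (E r) ∧ E (r + 1) ⊆ E r ∧ ∀ c ∈ L, tr c (E r) = E r) :
    Nonempty (Rk L) := by
  classical
  obtain ⟨n, t, ht⟩ := exists_gen_family hfg
  have hL := infinite_of_ne X hne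
  have hs : Function.Surjective (FreeGroup.lift t) := by
    rw [← MonoidHom.range_eq_top, FreeGroup.range_lift_eq_closure, ht]
  replace ht : Subgroup.closure (Set.range fun i => FreeGroup.lift t (FreeGroup.of i)) = ⊤ := by
    simpa using ht
  generalize FreeGroup.lift t = π at hs ht
  refine rk_of_lift π hs fun R0 B h0 hB => ?_
  obtain ⟨j0, hj⟩ := X.certificate hw (not_near_of_ray ⟨E, hE⟩) (fun i => π (FreeGroup.of i)) ht
    (fun i : R0 => fox π i) fun i => by rw [bd_fox, h0 i i.2, ← one_def, sub_self]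
  obtain ⟨ρ, hρ⟩ := (fg_iff_rc (Γ := Γ)).mp hfg
  have w1 : Γ.RC (j0 + ρ) L := hρ.mono (by omega)
  generalize hj' : j0 + ρ = j at w1
  obtain ⟨A, _, U, AA, c, σ, w2, w3, c1, c2, c4, c5⟩ := hj j (by omega) _ (hE j).1 (hE j).2.2
  rcases isEmpty_or_nonempty A with hA | hA
  · have : Countable L := hs.countable
    refine ⟨L, inferInstance, this, π, n, fun i => π (FreeGroup.of i),
      fun u => fox π u - AA (fox π u), fun a b => ?_, fun a => ?_, fun r hr => ?_, hB⟩
    · simp only [fox_mul, map_add, map_smul, smul_sub]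
      abel
    · rw [map_sub, c1, bd_fox, sub_zero]
    · simpa using c4 ⟨r, hr⟩
  have gen : ∀ a, ∃ (k : ℕ) (s : Fin k → FreeGroup (Fin n)), ∀ g : L,
      g ∈ (Subgroup.closure (Set.range s)).map π ↔ tr (g : G) (U a) = U a := fun a => by
    obtain ⟨k, u, hu⟩ := exists_gen_family (wall_fg X w1 (w2 a).1)
    choose s hs' using fun i => hs (Subgroup.inclusion (blk_le L (U a)) (u i))
    refine ⟨k, s, fun g => ?_⟩
    have e : (Subgroup.closure (Set.range s)).map π =
        (Subgroup.inclusion (blk_le L (U a))).range := by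
      rw [MonoidHom.map_closure, MonoidHom.range_eq_map, ← hu, MonoidHom.map_closure,
        ← Set.range_comp, ← Set.range_comp]
      exact congrArg _ (congrArg _ (funext hs'))
    rw [e]
    exact ⟨fun ⟨x, hx⟩ => hx ▸ x.2.2, fun h => ⟨⟨g, g.2, h⟩, rfl⟩⟩
  choose k s hk using gen
  let s' : A → Option (Σ a, Fin (k a)) → FreeGroup (Fin n) := fun a o =>
    o.elim 1 fun x => if x.1 = a then s x.1 x.2 else 1
  have e' : ∀ a, Subgroup.closure (Set.range (s' a)) = Subgroup.closure (Set.range (s a)) :=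
    fun a => by
      refine le_antisymm ((Subgroup.closure_le _).mpr ?_) (Subgroup.closure_mono ?_)
      · rintro _ ⟨_ | ⟨b, i⟩, rfl⟩
        · exact one_mem _
        · by_cases h : b = a
          · subst h
            simp only [s', Option.elim, if_true]
            exact Subgroup.subset_closure ⟨i, rfl⟩
          · simp only [s', Option.elim, if_neg h]
            exact one_mem _
      · rintro _ ⟨i, rfl⟩
        exact ⟨some ⟨a, i⟩, by simp [s']⟩
  choose φ hφ using fun a o => c5 a (π (s' a o)) ⟨(π (s' a o)).2, (hk a _).mp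
    ⟨_, e' a ▸ Subgroup.subset_closure ⟨o, rfl⟩, rfl⟩⟩
  obtain ⟨R1, r1, r2⟩ := lift_of_cert π hs (T := R0) Subtype.val AA c1 c σ
    (fun a => (c2 a).1) (fun a => (c2 a).2) s' φ c4
    fun i a o => hφ a o i
  obtain ⟨d, m, θ, f, d1, d2, d3, d4⟩ := X.doors hL π U (fun a => (w2 a).1) (fun a => (w2 a).2.1)
    (fun a b g hg h => (w3 b a g hg h).symm) (fun a => Subgroup.closure (Set.range (s a))) hk
    (fun a => not_und1 X hX hfg hne hw hb hE (w2 a).1 (w2 a).2.1 (w2 a).2.2) R1 r1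
  have : Infinite L := hL.to_subtype
  obtain ⟨N, n1, n2, n3, n4, n5⟩ := kv_of_kmv kmv (Fin n) L π A d _ m θ f
    (fun g l hl h => Subtype.ext (X.tf g (isOfFinOrder_iff_pow_eq_one.mpr
      ⟨l, Nat.pos_of_ne_zero hl, congrArg Subtype.val h⟩))) hs d1 d2 d3 R1 B
    (fun r hr => ⟨r1 r hr, d4 r hr⟩) hB
  obtain ⟨δ, e1, e2, e3⟩ := r2 (FreeGroup (Fin n) ⧸ N) (QuotientGroup.mk' N)
    (fun x hx => (QuotientGroup.eq_one_iff x).mpr (n2 x hx))
    (fun x hx hc => by
      rw [QuotientGroup.ker_mk']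
      exact n4 x (Subgroup.subset_normalClosure hx) hc)
    fun a => by rw [QuotientGroup.ker_mk', e', n5]
  exact ⟨_, inferInstance, (QuotientGroup.mk'_surjective N).countable, QuotientGroup.mk' N, n, _,
    δ, e1, e2, fun r hr => e3 ⟨r, hr⟩, fun w hw h => n3 w hw ((QuotientGroup.eq_one_iff w).mp h)⟩

theorem fp2_of_rk' (X : Geo Γ) {L : Subgroup G} (hfg : L.FG) (h : J.FixE Γ L)
    (R : Nonempty (Rk L)) : IsFP2 L := by
  obtain ⟨R⟩ := R
  obtain ⟨k, t, ht⟩ := exists_gen_family hfg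
  exact IsFP2.of_ker t ht (X.ker_finite (not_near_of_ray h) R t ht)

/-- An orientable subgroup that fixes an end is locally indicable. -/
theorem locInd_of_end (X : Geo Γ) (hX : Cyc X)
    {K : Subgroup G} (hw : ∀ c ∈ K, X.w c = 1) (h : J.FixE Γ K) : LocInd K := by
  intro L hfg hne
  by_contra hb
  push Not at hb
  have hle : L.map K.subtype ≤ K := Subgroup.map_subtype_le L
  have e := Subgroup.equivMapOfInjective L K.subtype K.subtype_injective
  have f1 : (L.map K.subtype).FG := by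
    have := (Group.fg_iff_subgroup_fg L).mpr hfg
    exact (Group.fg_iff_subgroup_fg _).mp (Group.fg_of_surjective (f := e.toMonoidHom) e.surjective)
  have f2 : L.map K.subtype ≠ ⊥ := fun h0 =>
    hne ((Subgroup.map_eq_bot_iff_of_injective L K.subtype_injective).mp h0)
  have f3 : ∀ f : L.map K.subtype →* Multiplicative ℤ, f = 1 := fun f => by
    ext x
    obtain ⟨y, rfl⟩ := e.surjective x
    exact congrArg _ (DFunLike.congr_fun (hb (f.comp e.toMonoidHom)) y)
  obtain ⟨E, hE⟩ := h.mono hle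
  obtain ⟨φ, hφ⟩ := X.hom_of_fp2 f1 (fp2_of_rk' X f1 ⟨E, hE⟩ (rk_of_end X hX f1 f2
    (fun c hc => hw c (hle hc)) f3 hE)) f2 fun r => ⟨E r, (hE r).1, (hE r).2.2⟩
  exact hφ (f3 φ)

/-- The orientable part of a subgroup. -/
def ori (X : Geo Γ) (K : Subgroup G) : Subgroup G := K ⊓ X.w.toHomUnits.ker

theorem ori_w (X : Geo Γ) (K : Subgroup G) : ∀ c ∈ ori X K, X.w c = 1 :=
  fun _ hc => congrArg Units.val (MonoidHom.mem_ker.mp hc.2)

/-- Finitely generated subgroups that fix an end are of type `FP_2`. -/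
theorem s1 (hG : IsPD 3 G) (Γ : Gen G) : J.S1 Γ := by
  obtain ⟨X, hX⟩ := exists_geo2 hG Γ
  intro K hfg h
  have hK : ori X K ≤ K := inf_le_left
  have hi : ((ori X K).subgroupOf K).FiniteIndex := by
    rw [ori, Subgroup.inf_subgroupOf_left]
    infer_instance
  have f1 := (Group.fg_iff_subgroup_fg K).mpr hfg
  have f2 : (ori X K).FG := (Group.fg_iff_subgroup_fg _).mp (Group.fg_of_surjective
    (f := (Subgroup.subgroupOfEquivOfLe hK).toMonoidHom) (Subgroup.subgroupOfEquivOfLe hK).surjective)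
  exact IsFP2.of_finiteIndex (Subgroup.inclusion hK) (Subgroup.inclusion_injective hK)
    (by rwa [Subgroup.inclusion_range]) f1 (fp2_of_rk' X f2 (h.mono hK)
      (locInd_of_end X hX (ori_w X K) (h.mono hK)).leftOrd.azd.rk)

end Pool.Agent.Lib.MP_d98eb9_al.W
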