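import Pool.Agent.Lib.MP_d98eb9_al.W.Linnell

/-! A square-summable count with a trace term. -/

namespace Pool.Agent.Lib.MP_d98eb9_al.W

namespace L2

open ContinuousLinearMap

section Abs

variable {V W : Type} [NormedAddCommGroup V] [InnerProductSpace ℝ V] [CompleteSpace V]
  [NormedAddCommGroup W] [InnerProductSpace ℝ W] [CompleteSpace W]

theorem abs_bound2 {ι κ T : Type} [Fintype ι] [Fintype κ] (A : V →L[ℝ] W) (e m : ι → V)
    (hk : ∀ i, A (e i - m i) = 0) (hm : ∀ i, m i ∈ A.kerᗮ) (e' : κ → W)
    (he' : ∀ j, ‖e' j‖ = 1) (τ : T → V →L[ℝ] V)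
    (hτ : ∀ t x, (adjoint A) (A (τ t x)) = τ t ((adjoint A) (A x)))
    (htr : ∀ R : V →L[ℝ] V, (∀ t x, R (τ t x) = τ t (R x)) →
      ∑ i, inner ℝ ((A ∘L R) (e i)) (A (e i))
        = ∑ j, inner ℝ (adjoint (A ∘L R) (e' j)) (adjoint A (e' j))) :
    ∑ i, ‖m i‖ ^ 2 ≤ Fintype.card κ := by
  classical
  refine le_of_forall_pos_le_add fun ε0 hε0 => ?_
  set S : ℝ := ∑ i, ‖m i‖ + 1 with hS
  have hSpos : 0 < S := by positivity
  set η : ℝ := ε0 / (2 * S) with hη
  have hηpos : 0 < η := by positivity
  have hy : ∀ i, ∃ y : W, ‖m i - adjoint A y‖ < η := by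
    intro i
    have h1 : m i ∈ (adjoint A).range.topologicalClosure := by
      rw [← Submodule.orthogonal_orthogonal_eq_closure, orthogonal_range, adjoint_adjoint]
      exact hm i
    obtain ⟨z, ⟨y, rfl⟩, hz⟩ := Metric.mem_closure_iff.1 h1 η hηpos
    exact ⟨y, by rwa [dist_eq_norm] at hz⟩
  choose y hy using hy
  set M : ℝ := ∑ i, ‖y i‖ + 1 with hM
  have hMpos : 0 < M := by positivity
  have hyM : ∀ i, ‖y i‖ ≤ M := by
    intro i
    have := Finset.single_le_sum (f := fun i => ‖y i‖) (fun i _ => norm_nonneg _)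
      (Finset.mem_univ i)
    linarith
  set δ : ℝ := η / M with hδ
  have hδpos : 0 < δ := by positivity
  have hε : 0 < δ ^ 2 := by positivity
  obtain ⟨R, hR1, hR2⟩ := exists_res A hε
  have hRτ : ∀ t x, R (τ t x) = τ t (R x) := by
    intro t x
    conv_lhs => rw [← hR1 x]
    rw [map_add, map_smul, ← hτ, hR2]
  have hsym : ∀ x z, inner ℝ (R x) z = inner ℝ x (R z) := by
    intro x z
    conv_lhs => rw [← hR1 z]
    conv_rhs => rw [← hR1 x]
    simp only [inner_add_left, inner_add_right, adjoint_inner_left, adjoint_inner_right,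
      real_inner_smul_left, real_inner_smul_right]
  have hadj : ∀ w, adjoint (A ∘L R) w = R (adjoint A w) := by
    intro w
    refine ext_inner_right ℝ fun v => ?_
    rw [adjoint_inner_left, hsym, adjoint_inner_left, comp_apply]
  have h1 := htr R hRτ
  have h2 : ∀ j, inner ℝ (adjoint (A ∘L R) (e' j)) (adjoint A (e' j)) ≤ (1 : ℝ) := by
    intro j
    rw [hadj, adjoint_inner_right]
    have h3 := (est_adj A hε (hR1 (adjoint A (e' j)))).1
    have h4 := real_inner_le_norm (A (R (adjoint A (e' j)))) (e' j)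
    rw [he'] at h3 h4
    linarith
  have h3 : ∀ i, ‖m i‖ ^ 2 - 2 * η * ‖m i‖ ≤ inner ℝ ((A ∘L R) (e i)) (A (e i)) := by
    intro i
    have k1 : A (e i) = A (m i) := by rw [← sub_eq_zero, ← map_sub, hk]
    have k2 : A (R (e i)) = A (R (m i)) := by
      have k3 := hR2 (e i - m i)
      rw [hk, map_zero, zero_add, map_smul] at k3
      have k4 := hk i
      rw [← k3, map_smul, smul_eq_zero_iff_right hε.ne', map_sub, map_sub, sub_eq_zero] at k4
      exact k4
    rw [comp_apply, k1, k2, ← adjoint_inner_left]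
    have h4 : adjoint A (A (R (m i))) = m i - δ ^ 2 • R (m i) := eq_sub_of_add_eq (hR1 _)
    rw [h4, inner_sub_left, real_inner_self_eq_norm_sq, real_inner_smul_left]
    have h5 := real_inner_le_norm (R (m i)) (m i)
    have h6 : R (m i) = R (m i - adjoint A (y i)) + R (adjoint A (y i)) := by
      rw [← map_add, sub_add_cancel]
    have h7 := est_small A (hR1 (m i - adjoint A (y i)))
    have h8 := (est_adj A hε (hR1 (adjoint A (y i)))).2
    have h9 : δ * ‖R (adjoint A (y i))‖ ≤ ‖y i‖ := by
      rw [← mul_pow] at h8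
      exact (pow_le_pow_iff_left₀ (by positivity) (norm_nonneg _) two_ne_zero).1 h8
    have h10 : δ * M = η := by rw [hδ]; field_simp
    have h11 : ‖R (m i)‖ ≤ ‖R (m i - adjoint A (y i))‖ + ‖R (adjoint A (y i))‖ := by
      conv_lhs => rw [h6]
      exact norm_add_le _ _
    have h12 : δ ^ 2 * ‖R (adjoint A (y i))‖ ≤ η := by
      have := mul_le_mul_of_nonneg_left (h9.trans (hyM i)) hδpos.le
      nlinarith
    have h13 : δ ^ 2 * ‖R (m i)‖ ≤ 2 * η := by
      have := mul_le_mul_of_nonneg_left h11 hε.le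
      have := hy i
      nlinarith
    have h14 := mul_le_mul_of_nonneg_left h5 hε.le
    have h15 := mul_le_mul_of_nonneg_right h13 (norm_nonneg (m i))
    nlinarith
  have h4 : ∑ i, (‖m i‖ ^ 2 - 2 * η * ‖m i‖) ≤ (Fintype.card κ : ℝ) := by
    calc _ ≤ _ := Finset.sum_le_sum fun i _ => h3 i
      _ = _ := h1
      _ ≤ ∑ _j : κ, (1 : ℝ) := Finset.sum_le_sum fun j _ => h2 j
      _ = _ := by simp
  rw [Finset.sum_sub_distrib, ← Finset.mul_sum] at h4
  have h5 : 2 * η * S = ε0 := by rw [hη]; field_simp
  nlinarith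

end Abs

variable {H : Type} [Group H] {ι κ : Type} [Fintype ι] [Fintype κ]

lemma trace_comm (S : F ι H →L[ℝ] F κ H) (U : F κ H →L[ℝ] F ι H)
    (hS : ∀ h x, S (tau ι h x) = tau κ h (S x)) (hU : ∀ h x, U (tau κ h x) = tau ι h (U x)) :
    ∑ i, U (S (bs i 1)) i 1 = ∑ j, S (U (bs j 1)) j 1 := by
  have := trace_eq (adjoint U) S (adj_tau U hU) hS
  simp only [adjoint_adjoint, adjoint_inner_left, adjoint_inner_right, inner_bs] at this
  rw [this]
  exact Finset.sum_congr rfl fun j _ => by rw [real_inner_comm, inner_bs]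

/-- If the kernel of `A` is the range of the idempotent `g` then `card ι - tr g ≤ card κ`. -/
theorem card_le2 (A : F ι H →L[ℝ] F κ H) (hA : ∀ h x, A (tau ι h x) = tau κ h (A x))
    (g : F ι H →L[ℝ] F ι H) (hg : ∀ h x, g (tau ι h x) = tau ι h (g x))
    (h1 : ∀ x, A (g x) = 0) (h2 : ∀ x, A x = 0 → g x = x) :
    (Fintype.card ι : ℝ) - ∑ i, g (bs i 1) i 1 ≤ Fintype.card κ := by
  have : CompleteSpace A.ker := A.isClosed_ker.completeSpace_coe
  set P := A.ker.starProjection with hP
  have hPm : ∀ x, A (P x) = 0 := fun x => A.ker.starProjection_apply_mem x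
  have hPτ : ∀ h x, P (tau ι h x) = tau ι h (P x) := fun h x =>
    Submodule.eq_starProjection_of_mem_of_inner_eq_zero
      (show A _ = 0 by rw [hA, hPm, map_zero]) fun w hw => by
        rw [← map_sub, inner_tau_left]
        exact Submodule.inner_left_of_mem_orthogonal
          (show A _ = 0 by rw [hA, show A w = 0 from hw, map_zero])
          (A.ker.sub_starProjection_mem_orthogonal x)
  have h3 := trace_comm g P hg hPτ
  have h4 : ∀ x, P (g x) = g x := fun x => Submodule.starProjection_eq_self_iff.mpr (h1 x)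
  simp only [h4, h2 _ (hPm _)] at h3
  have h5 := abs_bound2 A (fun i => bs i (1 : H)) (fun i => bs i 1 - P (bs i 1))
    (fun i => by simpa using hPm _) (fun i => A.ker.sub_starProjection_mem_orthogonal _)
    (fun j => bs j (1 : H)) (fun j => norm_bs j 1) (tau ι)
    (fun t x => by rw [hA, adj_tau A hA]) fun R hR =>
      trace_eq (A ∘L R) A (fun h x => by rw [comp_apply, comp_apply, hR, hA]) hA
  have h6 : ∀ i : ι, ‖bs i (1 : H) - P (bs i 1)‖ ^ 2 = 1 - P (bs i 1) i 1 := fun i => by
    have k1 : inner ℝ (P (bs i 1)) (bs i (1 : H) - P (bs i 1)) = 0 :=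
      Submodule.inner_right_of_mem_orthogonal (hPm _) (A.ker.sub_starProjection_mem_orthogonal _)
    rw [← real_inner_self_eq_norm_sq, inner_sub_left, k1, sub_zero, inner_sub_right,
      real_inner_self_eq_norm_sq, norm_bs, inner_bs, one_pow]
  simp only [h6, Finset.sum_sub_distrib, Finset.sum_const, Finset.card_univ, nsmul_eq_mul,
    mul_one] at h5
  rwa [h3]

open Linnell MonoidAlgebra

/-- The operator of a matrix over the group ring. -/
noncomputable def opM (M : ι → κ → ZG H) : F ι H →L[ℝ] F κ H :=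
  op (fun j i => (M i j).coeff.support) fun j i c => ((M i j).coeff c : ℝ)

lemma opM_apply (M : ι → κ → ZG H) (x : F ι H) (j : κ) : opM M x j = ∑ i, T (M i j) (x i) := by
  ext c
  rw [opM, op_apply]
  change _ = lp.evalₗ (𝕜 := ℝ) (fun _ : H => ℝ) 2 c _
  rw [map_sum]
  exact Finset.sum_congr rfl fun i _ => (T_apply (M i j) (x i) c).symm

lemma opM_tr (M : ι → ι → ZG H) (i : ι) : opM M (bs i 1) i 1 = ((M i i).coeff 1 : ℝ) := by
  classical
  rw [opM, op_apply, Finset.sum_eq_single i (fun j _ hj => by simp [bs_apply, hj]) (by simp)]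
  simp only [bs_apply, mul_one, true_and, mul_ite, mul_zero, Finset.sum_ite_eq']
  split_ifs with h
  · rfl
  · simp [Finsupp.notMem_support_iff.1 h]

lemma T_one (x : E H) : T (1 : ZG H) x = x := by
  rw [MonoidAlgebra.one_def, T_single]
  ext c
  simp [re_apply]

lemma inner_T (g : H) (x y : E H) :
    inner ℝ (T (single g 1 - 1) x) y = inner ℝ x (T (single g⁻¹ 1 - 1) y) := by
  have h := inner_re (Equiv.mulLeft g) x (T (single g⁻¹ 1) y)
  rw [← T_single, T_mul, single_mul_single, inv_mul_cancel, mul_one, ← MonoidAlgebra.one_def, T_one] at h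
  simp only [map_sub, sub_apply, T_one, inner_sub_left, inner_sub_right, h]

/-- The count: `p` are relations among the generators `t`, `e` is a matrix with `e p = p` that
kills every square-summable relation among the `p`. -/
theorem trace_le {n : ℕ} (t : Fin n → H) (ht : Subgroup.closure (Set.range t) = ⊤) {c : H}
    (hc : ¬ IsOfFinOrder c) (p : ι → Fin n → ZG H)
    (hp : ∀ j, ∑ i, p j i * (single (t i) 1 - 1) = 0) (e : ι → ι → ZG H)
    (he : ∀ j i, ∑ k, e j k * p k i = p j i)
    (hinj : ∀ x : ι → E H, (∀ i, ∑ j, T (p j i) (x j) = 0) → ∀ k, ∑ j, T (e j k) (x j) = 0) :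
    ∑ j, (e j j).coeff 1 + 1 ≤ n := by
  classical
  let M : Option ι → Fin n → ZG H := fun j i => j.elim (single (t i)⁻¹ 1 - 1) fun j => p j i
  let g : Option ι → Option ι → ZG H := fun j k =>
    j.elim 0 fun j => k.elim 0 fun k => (if j = k then 1 else 0) - e j k
  have hg : ∀ (x : F (Option ι) H) k, opM g x (some k) = x (some k) - ∑ j, T (e j k) (x (some j)) :=
    fun x k => by
      rw [opM_apply, Fintype.sum_option]
      simp only [g, Option.elim_none, Option.elim_some, map_zero, zero_apply, zero_add, map_sub,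
        sub_apply, Finset.sum_sub_distrib]
      rw [Finset.sum_eq_single k (fun j _ hj => by simp [hj]) (by simp), if_pos rfl, T_one]
  have hg0 : ∀ x : F (Option ι) H, opM g x none = 0 := fun x => by
    rw [opM_apply, Fintype.sum_option]
    simp [g]
  have h := card_le2 (opM M) (op_tau _ _) (opM g) (op_tau _ _) (fun x => ?_) fun x hx => ?_
  · simp only [opM_tr, Fintype.sum_option, Fintype.card_option, g, Option.elim_none,
      Option.elim_some, if_true, Fintype.card_fin] at h
    simp only [coeff_sub, Finsupp.sub_apply, MonoidAlgebra.one_def, coeff_single, Finsupp.single_eq_same,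
      coeff_zero, Finsupp.zero_apply, Int.cast_sub, Finset.sum_sub_distrib, Int.cast_one,
      Finset.sum_const, Finset.card_univ, nsmul_eq_mul, mul_one] at h
    have h' : ((∑ j, (e j j).coeff 1 + 1 : ℤ) : ℝ) ≤ (n : ℤ) := by
      push_cast at h ⊢
      linarith
    exact_mod_cast h'
  · ext1 i
    rw [opM_apply, Fintype.sum_option, hg0, map_zero, zero_add]
    simp only [hg, M, Option.elim_some, map_sub, map_sum, T_mul, Finset.sum_sub_distrib]
    rw [Finset.sum_comm, PiLp.zero_apply, sub_eq_zero]
    refine Finset.sum_congr rfl fun j _ => ?_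
    rw [← sum_apply, ← map_sum, he]
  · have hx' : ∀ i, T (single (t i)⁻¹ 1 - 1) (x none) + ∑ j, T (p j i) (x (some j)) = 0 :=
      fun i => by
        have := opM_apply M x i
        rw [hx, Fintype.sum_option] at this
        exact this.symm
    have k1 : ∑ i, ‖T (single (t i)⁻¹ 1 - 1) (x none)‖ ^ 2 = 0 := by
      have k2 : ∀ i, ‖T (single (t i)⁻¹ 1 - 1) (x none)‖ ^ 2 = -inner ℝ
          (∑ j, T (p j i * (single (t i) 1 - 1)) (x (some j))) (x none) := fun i => by
        rw [← real_inner_self_eq_norm_sq, ← inner_T, eq_neg_of_add_eq_zero_left (hx' i)]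
        simp only [map_neg, map_sum, T_mul, inner_neg_left]
      simp only [k2, Finset.sum_neg_distrib, ← sum_inner]
      rw [Finset.sum_comm, Finset.sum_eq_zero fun j _ => by
        rw [← sum_apply, ← map_sum, hp, map_zero, zero_apply], inner_zero_left, neg_zero]
    have k3 : ∀ i, T (single (t i)⁻¹ 1 - 1) (x none) = 0 := fun i => by
      have := (Finset.sum_eq_zero_iff_of_nonneg fun i _ => sq_nonneg _).1 k1 i (Finset.mem_univ i)
      simpa using this
    have k4 : ∀ a ∈ Subgroup.closure (Set.range t), ∀ b, x none (a * b) = x none b := by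
      intro a ha
      induction ha using Subgroup.closure_induction with
      | mem a ha =>
        obtain ⟨i, rfl⟩ := ha
        intro b
        have := k3 i
        rw [map_sub, sub_apply, T_one, T_single, sub_eq_zero] at this
        rw [← this, re_apply, this]
        simp
      | one => simp
      | mul a b _ _ ha hb => intro d; rw [mul_assoc, ha, hb]
      | inv a _ ha => intro d; rw [← ha, mul_inv_cancel_left]
    have k5 : x none = 0 := by
      ext b
      exact const_orbit (x none) ((mem_iff _).1 (x none).2) c hc (k4 c (ht ▸ trivial)) b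
    ext1 k
    cases k with
    | none => rw [hg0, k5]
    | some k =>
      rw [hg, hinj (fun j => x (some j)) (fun i => by simpa only [k3, zero_add] using hx' i) k,
        sub_zero]

end L2

end Pool.Agent.Lib.MP_d98eb9_al.W
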