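import Pool.Agent.Lib.MP_d98eb9_al.P.Pot
import Pool.Agent.Lib.MP_d98eb9_al.P.Count
import Pool.Agent.Lib.MP_7903c7_al.PT.Main
import Pool.Agent.Lib.MP_7903c7_al.B.Fin

/-! A nontrivial subgroup of type `FP_2` that fixes an end maps onto the integers. -/

namespace Pool.Agent.Lib.MP_d98eb9_al.W

open MonoidAlgebra Gen

/-- The two traces of an idempotent matrix over the group ring of a torsion-free group agree. -/
theorem aug_trace {H : Type} [Group H] (tf : ∀ g : H, IsOfFinOrder g → g = 1) {I : Type}
    [Fintype I] [DecidableEq I] (A : Matrix I I (ZG H)) (hA : A * A = A) :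
    ∑ i, aug H (A i i) = ∑ i, (A i i).coeff 1 := by
  classical
  have h1 : ∀ g : H, g ≠ 1 → MP_7903c7_al.tau0 (fun h => IsConj h g) (∑ i, A i i) = 0 :=
    fun g hg => by
      have h := MP_7903c7_al.Fin.of_core (g := g)
        (fun h0 _ _ _ hp _ _ _ hA' => MP_7903c7_al.PT.core hp.out hA' h0) hA
        (by simp [orderOf_eq_zero_iff.mpr fun h => hg (tf g h)])
      simpa only [← MP_7903c7_al.tau0_eq_finsum, ← map_sum] using h
  have h2 : ∀ (S : Finset (ConjClasses H)) (r : ZG H),
      ∑ c ∈ S, MP_7903c7_al.tau0 (fun h => ConjClasses.mk h = c) r =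
        MP_7903c7_al.tau0 (fun h => ConjClasses.mk h ∈ S) r := fun S r => by
    induction r using MonoidAlgebra.induction_linear with
    | zero => simp
    | add a b ha hb => simp only [map_add, Finset.sum_add_distrib, ha, hb]
    | single g n =>
      simp only [MP_7903c7_al.tau0_single]
      by_cases h : ConjClasses.mk g ∈ S
      · rw [if_pos h, Finset.sum_eq_single (ConjClasses.mk g) (fun c _ hc => by simp [hc.symm])
          fun h' => absurd h h', if_pos rfl]
      · rw [if_neg h]
        exact Finset.sum_eq_zero fun c hc => by simp [(ne_of_mem_of_not_mem hc h).symm]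
  have h3 : ∀ r : ZG H, aug H r = r.coeff.sum fun _ n => n := fun r => by
    induction r using MonoidAlgebra.induction_linear with
    | zero => simp
    | add a b ha hb => simp [ha, hb, Finsupp.sum_add_index']
    | single g n => simp
  have h4 : ∀ r : ZG H, MP_7903c7_al.tau0 (fun h => ConjClasses.mk h = ConjClasses.mk 1) r =
      r.coeff 1 := fun r => by
    induction r using MonoidAlgebra.induction_linear with
    | zero => simp
    | add a b ha hb => simp [ha, hb]
    | single g n =>
      simp [MP_7903c7_al.tau0_single, ConjClasses.mk_eq_mk_iff_isConj, Finsupp.single_apply]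
  have h5 := h2 (insert (ConjClasses.mk 1) ((∑ i, A i i).coeff.support.image ConjClasses.mk))
    (∑ i, A i i)
  rw [Finset.sum_eq_single (ConjClasses.mk 1) (fun c _ hc => by
    obtain ⟨g, rfl⟩ := ConjClasses.mk_surjective c
    simpa only [ConjClasses.mk_eq_mk_iff_isConj] using h1 g fun h => hc (h ▸ rfl)) (by simp),
    h4] at h5
  rw [← map_sum, h3, ← Finsupp.finsetSum_apply, ← coeff_sum, h5]
  refine Finset.sum_congr rfl fun g hg => ?_
  exact (if_pos (Finset.mem_insert_of_mem (Finset.mem_image_of_mem _ hg))).symm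

/-- If there is no homomorphism onto the integers then the relations have full rank. -/
theorem le_aug_trace {H : Type} [Group H] {n : ℕ} (t : Fin n → H)
    (ht : Subgroup.closure (Set.range t) = ⊤) (hb : ∀ f : H →* Multiplicative ℤ, f = 1)
    (B : DB H (LinearMap.ker (bd t))) : (n : ℤ) ≤ ∑ j, aug H (B.f j (B.x j)) := by
  classical
  let E : Matrix (Fin B.n) (Fin B.n) ℚ := Matrix.of fun j k => aug H (B.f k (B.x j))
  let M : Matrix (Fin B.n) (Fin n) ℤ := Matrix.of fun j i => aug H ((B.x j).1 i)
  have hs : ∀ (p : LinearMap.ker (bd t)) i, p.1 i = ∑ k, B.f k p * (B.x k).1 i := fun p i => by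
    conv_lhs => rw [← B.sum_eq p]
    simp
  have hE : E * E = E := by
    ext j k
    simp only [Matrix.mul_apply, E, Matrix.of_apply]
    conv_rhs => rw [← B.sum_eq (B.x j)]
    simp
  have hM : E * M.map (Int.castRingHom ℚ) = M.map (Int.castRingHom ℚ) := by
    ext j i
    simp only [Matrix.mul_apply, E, M, Matrix.map_apply, Matrix.of_apply]
    rw [hs (B.x j) i]
    simp
  have hinj : ∀ v : Fin n → ℤ, M.mulVec v = 0 → v = 0 := fun v hv => by
    obtain ⟨u0, hu0⟩ := exists_pot t ht (ofFun fun _ i => v i) fun x hx => by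
      have e1 : ∀ x : Fr H n, ofFun (fun _ i => v i) x = ∑ i, aug H (x i) * v i := fun x =>
        fr_ext (ψ := ∑ i, (AddMonoidHom.mulRight (v i)).comp ((aug H).toAddMonoidHom.comp
          (Finsupp.applyAddHom i))) (fun g i => by
            rw [ofFun_e]
            simp [e, Finsupp.single_apply, apply_ite]) x |>.trans (by simp)
      rw [e1]
      simp only [hs ⟨x, hx⟩, map_sum, map_mul, Finset.sum_mul, mul_assoc]
      rw [Finset.sum_comm]
      refine Finset.sum_eq_zero fun k _ => ?_
      rw [← Finset.mul_sum, show ∑ i, aug H ((B.x k).1 i) * v i = 0 from congrFun hv k, mul_zero]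
    have he : ∀ g i, u0 (g * t i) - u0 g = v i := fun g i => by
      simpa [bd_e] using (hu0 (e g i)).symm
    have hm : ∀ b ∈ Subgroup.closure (Set.range t), ∀ a, u0 (a * b) - u0 a = u0 b - u0 1 := by
      intro b hb
      induction hb using Subgroup.closure_induction with
      | mem b hb =>
        obtain ⟨i, rfl⟩ := hb
        intro a
        rw [he, ← he 1 i, one_mul]
      | one => simp
      | mul b c _ _ h1 h2 =>
        intro a
        rw [← mul_assoc]
        linear_combination h2 (a * b) + h1 a - h2 b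
      | inv b _ h1 =>
        intro a
        have k1 := h1 (a * b⁻¹)
        have k2 := h1 b⁻¹
        rw [inv_mul_cancel_right] at k1
        rw [inv_mul_cancel] at k2
        linear_combination k2 - k1
    have h1 := hb (MonoidHom.mk' (fun g => Multiplicative.ofAdd (u0 g - u0 1)) fun a b => by
      rw [← ofAdd_add, ← hm b (ht ▸ trivial) a, add_comm, sub_add_sub_cancel])
    funext i
    have h2 : u0 (t i) - u0 1 = 0 := congrArg Multiplicative.toAdd (DFunLike.congr_fun h1 (t i))
    rw [← he 1 i, one_mul, h2, Pi.zero_apply]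
  have h1 : Function.Injective (M.map (Int.castRingHom ℚ)).mulVecLin := by
    rw [Matrix.coe_mulVecLin, Matrix.mulVec_injective_iff]
    refine (LinearIndependent.iff_fractionRing ℤ ℚ).mp ?_
    have h2 : LinearIndependent ℤ M.col := Matrix.mulVec_injective_iff.mp
      ((injective_iff_map_eq_zero M.mulVecLin).mpr hinj)
    exact h2.map' ((Algebra.linearMap ℤ ℚ).compLeft (Fin B.n)) (LinearMap.ker_eq_bot.mpr
      fun a b h => funext fun i => Int.cast_injective (congrFun h i))
  have h2 : (M.map (Int.castRingHom ℚ)).rank = n := by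
    rw [Matrix.rank, LinearMap.finrank_range_of_inj h1]
    simp
  have h3 := Matrix.rank_mul_le_left E (M.map (Int.castRingHom ℚ))
  rw [hM, h2] at h3
  have h4 : E.trace = E.rank := by
    rw [← Matrix.trace_toLin'_eq]
    refine LinearMap.IsProj.trace (p := LinearMap.range E.mulVecLin) ⟨fun x => ⟨x, rfl⟩, ?_⟩
    rintro _ ⟨x, rfl⟩
    simp [hE]
  have h5 : ((n : ℤ) : ℚ) ≤ ((∑ j, aug H (B.f j (B.x j)) : ℤ) : ℚ) := by
    push_cast
    exact (Nat.cast_le.mpr h3).trans h4.ge
  exact_mod_cast h5

variable {G : Type} [Group G] {Γ : Gen G} {J : Subgroup G}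

/-- A nontrivial finitely generated subgroup that fixes an end, with finitely generated relation
module, has a nontrivial homomorphism to the integers. -/
theorem Geo.end_false' (X : Geo Γ) (hne : J ≠ ⊥) (hb : ∀ f : J →* Multiplicative ℤ, f = 1)
    (hP : ∀ r, ∃ P, Γ.Comp (Γ.N r J) P ∧ ∀ c ∈ J, tr c P = P) {k : ℕ} (t : Fin k → J)
    (ht : Subgroup.closure (Set.range t) = ⊤)
    (hf : Module.Finite (ZG J) (LinearMap.ker (bd t))) : False := by
  classical
  have := infinite_quot (not_near_of_end hP)
  have := X.ker_proj J t ht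
  obtain ⟨B⟩ := exists_DB (G := J) (LinearMap.ker (bd t))
  have tf : ∀ c : J, IsOfFinOrder c → c = 1 := fun c hc =>
    Subtype.ext (X.tf c (J.subtype.isOfFinOrder hc))
  obtain ⟨c, hc⟩ := Subgroup.ne_bot_iff_exists_ne_one.mp hne
  have hc' : ¬ IsOfFinOrder c := fun h => hc (tf c h)
  have hJ : (J : Set G).Infinite := Set.infinite_coe_iff.mp
    (Infinite.of_injective _ (injective_pow_iff_not_isOfFinOrder.mpr hc'))
  have h1 := le_aug_trace t ht hb B
  have h2 := aug_trace tf (Matrix.of fun j k => B.f k (B.x j)) (by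
    ext1 j k
    simp only [Matrix.mul_apply, Matrix.of_apply]
    conv_rhs => rw [← B.sum_eq (B.x j)]
    simp)
  have h3 := L2.trace_le t ht hc' (fun j i => (B.x j).1 i) (fun j => by
      have : Finsupp.linearCombination (ZG J) (fun k => (single (t k) 1 - 1 : ZG J)) (B.x j) = 0 :=
        (B.x j).2
      rwa [Finsupp.linearCombination_apply, Finsupp.sum_fintype _ _ (by simp)] at this)
    (fun j k => B.f k (B.x j)) (fun j i => by
      conv_rhs => rw [← B.sum_eq (B.x j)]
      simp) fun x hx k => X.inj_end hJ ht hP Linnell.act (fun a r s => Linnell.T_mul r s a)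
        (fun a d h => or_iff_not_imp_right.mpr fun hd => ?_) x B.x hx (B.f k)
  · simp only [Matrix.of_apply] at h2
    omega
  have h4 : ∀ b, a b = X.w d * a (d⁻¹ * b) := fun b => by
    conv_lhs => rw [← h, Linnell.act_apply, single_eq_zsmul, map_zsmul, Linnell.T_single]
    simp [L2.re_apply]
  have h5 : ((X.w d : ℤ) : ℝ) ^ 2 = 1 := by
    have := Int.eq_one_or_neg_one_of_mul_eq_one (w_mul_inv X.w d)
    rcases this with h | h <;> simp [h]
  ext b
  have h6 := L2.const_orbit (fun b => |a b|) (by simpa using (L2.mem_iff _).1 a.2) d⁻¹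
    (fun h => hd (tf d (isOfFinOrder_inv_iff.mp h))) (fun b => by
      rw [← sq_eq_sq₀ (abs_nonneg _) (abs_nonneg _), sq_abs, sq_abs, h4 b, mul_pow, h5, one_mul]) b
  simpa using h6

theorem Geo.end_false (X : Geo Γ) (hfg : J.FG) (hne : J ≠ ⊥)
    (hb : ∀ f : J →* Multiplicative ℤ, f = 1)
    (hP : ∀ r, ∃ P, Γ.Comp (Γ.N r J) P ∧ ∀ c ∈ J, tr c P = P) (hfp : IsFP2 J) : False := by
  obtain ⟨k, t, ht⟩ := exists_gen_family hfg
  exact X.end_false' hne hb hP t ht (hfp.ker_finite t ht)

end Pool.Agent.Lib.MP_d98eb9_al.W
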