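import Pool.Agent.Lib.MP_d98eb9_al.W.Comp
import Pool.Agent.Lib.MP_d98eb9_al.W.OneEndA
import Pool.Agent.Lib.MP_d98eb9_al.W.OneEndB

/-! A deep component on which all finite cuts of a larger component are almost constant. -/

namespace Pool.Agent.Lib.MP_d98eb9_al.W

namespace FixIn

open Gen OneEndB

variable {G : Type} [Group G] {Γ : Gen G} {L A : Subgroup G} {U P Q D F : Set G} {p q : G}
  {t s : ℕ}

variable (Γ) in
/-- The points of `U` at which the set `D` is cut along an edge inside `U`. -/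
def Cx (U D : Set G) : Set G := {p | p ∈ U ∧ ∃ q ∈ U, Γ.d p q ≤ 1 ∧ ¬ (p ∈ D ↔ q ∈ D)}

theorem Cx_compl (U D : Set G) : Cx Γ U Dᶜ = Cx Γ U D := by
  ext p
  simp only [Cx, Set.mem_ofPred_eq, Set.mem_compl_iff, not_iff_not]

theorem tr_comp (hP : Γ.Comp (Γ.N t L) P) {c : G} (hc : c ∈ L) :
    Γ.Comp (Γ.N t L) (tr c P) := by
  have := hP.tr c
  rwa [tr_N, tr_subgroup hc] at this

theorem mem_blk (hP : Γ.Comp (Γ.N t L) P) {c : G} (hc : c ∈ L) (hp : p ∈ P) (h : c * p ∈ P) :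
    c ∈ blk L P := ⟨hc, (tr_comp hP hc).disj hP (mul_mem_tr.mpr hp) h⟩

theorem blk_mul {c : G} (hc : c ∈ blk L P) (hp : p ∈ P) : c * p ∈ P :=
  hc.2 ▸ mul_mem_tr.mpr hp

theorem blk_mono (hP : Γ.Comp (Γ.N t L) P) (hQ : Q.Nonempty) (h : Q ⊆ P) : blk L Q ≤ blk L P :=
  fun _ hc => let ⟨_, hq⟩ := hQ; mem_blk hP hc.1 (h hq) (h (blk_mul hc hq))

/-- A deep component contains deep components of all higher levels. -/
theorem deep_sub (hP : Γ.Comp (Γ.N t L) P) (hd : ¬ Γ.Near P L) (hts : t ≤ s) :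
    ∃ Q, Γ.Comp (Γ.N s L) Q ∧ Q ⊆ P ∧ ¬ Γ.Near Q L := by
  obtain ⟨Φ, hΦ, -, h2⟩ := comp_finite (Γ := Γ) s L
  have h3 : ∀ W : Set G, ∃ r, Γ.Near W L → W ⊆ Γ.N r L := fun W => by
    by_cases h : Γ.Near W L
    · exact h.imp fun _ e _ => e
    · exact ⟨0, fun e => absurd e h⟩
  choose r hr using h3
  obtain ⟨R, hR⟩ := (hΦ.image r).bddAbove
  obtain ⟨p, hp, hn⟩ := Set.not_subset.mp fun e => hd ⟨R + s, e⟩
  have hQ : Γ.Comp (Γ.N s L) {q | Γ.Conn (Γ.N s L) p q} :=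
    ⟨p, fun e => hn (N_mono (by omega) subset_rfl e), rfl⟩
  refine ⟨_, hQ, fun q hq => (hP.eq hp).ge (Conn.mono hq (N_mono hts subset_rfl)), fun e => ?_⟩
  obtain ⟨c, hc, W, hW, e1⟩ := h2 _ hQ
  have e2 : Γ.Near W L := by
    have := e.tr c⁻¹
    rwa [e1, tr_inv_tr, tr_subgroup (L.inv_mem hc)] at this
  have e3 : p ∈ tr c W := e1 ▸ (Conn.refl _ _ : p ∈ {q | Γ.Conn (Γ.N s L) p q})
  exact hn (N_mono (le_trans (hR ⟨W, hW, rfl⟩) (by omega)) subset_rfl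
    ((mul_mem_N (L.inv_mem hc)).mp (hr W e2 e3)))

theorem fr_near (hP : Γ.Comp (Γ.N t L) P) : Γ.Near (P ∩ Γ.fr P) (blk L P) :=
  near_of_stab (((Near.of_subset Set.inter_subset_right).trans ⟨1, hP.fr_subset⟩).trans
    (near_N _ _)) fun _ hc _ ha h => mem_blk hP hc ha.1 h.1

theorem sep_fin (hU : ∀ p ∈ U, ∀ q ∈ U, Γ.Conn Uᶜ p q) (hA : ∀ c ∈ A, ∀ p ∈ U, c * p ∈ U)
    (hD : (Cx Γ U D).Finite) (hp : p ∈ U) (hq : q ∈ U) :
    (sep A (fun p => p ∈ D) p q).Finite := by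
  obtain ⟨F, hF, hc⟩ := (hU p hp q hq).exists_finite
  refine (hD.image2 (fun k f => k * f⁻¹) hF).subset fun c hc' => by_contra fun hn => hc'.2 ?_
  refine hc.ind (P := fun a => (c * p ∈ D ↔ c * a ∈ D)) Iff.rfl fun a b ha hb hd k => k.trans ?_
  have ha' : a ∈ U := by_contra fun k' => ha (Or.inl k')
  have hb' : b ∈ U := by_contra fun k' => hb (Or.inl k')
  by_contra k'
  exact hn ⟨c * a, ⟨hA c hc'.1 a ha', c * b, hA c hc'.1 b hb', by rwa [d_mul], k'⟩, a,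
    by_contra fun k2 => ha (Or.inr k2), by simp⟩

/-- An infinite side of a finite cut contains infinitely many points of an orbit. -/
theorem side_inf (h1 : OE (⊤ : Subgroup G)) (hL : (L : Set G).Infinite)
    (hU : ∀ p ∈ U, ∀ q ∈ U, Γ.Conn Uᶜ p q) (hA : ∀ c ∈ A, ∀ p ∈ U, c * p ∈ U)
    (hP : Γ.Comp (Γ.N t L) P) (hPU : P ⊆ U) (hPA : blk L P ≤ A) (hD : (Cx Γ U D).Finite)
    (hi : (P ∩ D).Infinite) (hp : p ∈ U) : {c | c ∈ A ∧ c * p ∈ D}.Infinite := by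
  intro hf
  obtain ⟨r, hr⟩ := fr_near hP
  have h2 : ∀ f ∈ {q | Γ.d 1 q ≤ r} ∩ U, ((· * f) '' {c | c ∈ A ∧ c * f ∈ D}).Finite :=
    fun f hf' => ((hf.union (sep_fin hU hA hD hp hf'.2)).subset fun c hc => by
      by_cases k : c * p ∈ D
      · exact Or.inl ⟨hc.1, k⟩
      · exact Or.inr ⟨hc.1, fun e => k (e.mpr hc.2)⟩).image _
  have h3 : ((P ∩ D) ∩ Γ.fr (P ∩ D)).Finite := by
    refine (hD.union (((ball_finite (Γ := Γ) 1 r).inter_of_left U).biUnion h2)).subset ?_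
    rintro z ⟨hz, y, hd, hn⟩
    by_cases hy : y ∈ P
    · exact Or.inl ⟨hPU hz.1, y, hPU hy, hd, fun e => hn ⟨fun _ => ⟨hy, e.mp hz.2⟩, fun _ => hz⟩⟩
    · obtain ⟨c, hc, hd'⟩ := hr ⟨hz.1, mem_fr hz.1 hy hd⟩
      refine Or.inr (Set.mem_biUnion (x := c⁻¹ * z) ⟨by rwa [d_eq] at hd',
        hPU (blk_mul ((blk L P).inv_mem hc) hz.1)⟩ ⟨c, ⟨hPA hc, by simpa using hz.2⟩, by simp⟩)
  rcases OE.finite_of_fr h1 h3 with k | k
  · exact hi k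
  · exact hL (k.subset fun c hc e => hP.out e.1 (subset_N _ _ hc))

/-- One splitting along a nested cut. -/
theorem step (tf : ∀ g : G, IsOfFinOrder g → g = 1) (hfg : A.FG)
    (hU : ∀ p ∈ U, ∀ q ∈ U, Γ.Conn Uᶜ p q) (hA : ∀ c ∈ A, ∀ p ∈ U, c * p ∈ U)
    (hD : (Cx Γ U D).Finite) (hp : p ∈ U) (i1 : {c | c ∈ A ∧ c * p ∈ D}.Infinite)
    (i2 : {c | c ∈ A ∧ c * p ∈ Dᶜ}.Infinite) :
    ∃ D' : Set G, (Cx Γ U D').Finite ∧ ∀ x ∈ U, ∃ A' : Subgroup G, A' ≤ A ∧ A'.FG ∧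
      (∀ a ∈ A, (∀ e ∈ A, (e * (a * x) ∈ D' ↔ e * x ∈ D')) → a ∈ A') ∧
      ∀ k, Iota A' k → Iota A (k + 1) := by
  classical
  let VS : SubMulAction A G := ⟨U, fun c x hx => hA c c.2 x hx⟩
  let ES : SubMulAction A (G × G) :=
    ⟨{e | e.1 ∈ U ∧ e.2 ∈ U ∧ Γ.d e.1 e.2 ≤ 1}, fun c e he =>
      ⟨hA c c.2 _ he.1, hA c c.2 _ he.2.1, (d_mul (c : G) e.1 e.2).le.trans he.2.2⟩⟩
  have inj : ∀ S : Set G, S.Infinite → ((· * p) '' S).Infinite := fun S hS =>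
    hS.image (mul_left_injective p).injOn
  obtain ⟨M, c0, c1, c2, c3⟩ := OneEndA.nested (H := A) (fun e : G × G => e.1)
    (fun e : G × G => e.2) (fun _ _ => rfl) (fun _ _ => rfl) VS ES (fun e he => he.1)
    (fun e he => he.2.1)
    (by
      rintro M ⟨x, hx, hxM⟩ ⟨y, hy, hyM⟩
      by_contra hn
      refine hyM ((hU x hx y hy).ind (P := fun a => a ∈ M) hxM fun a b ha hb hd k => ?_)
      by_contra k'
      exact hn ⟨(a, b), ⟨not_not.mp ha, not_not.mp hb, hd⟩, fun e => k' (e.mp k)⟩)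
    ((· * p) '' (A : Set G))
    (by
      rintro _ ⟨c, hc, rfl⟩
      exact hA c hc p hp)
    (by
      rintro c _ ⟨x, hx, rfl⟩
      exact ⟨c * x, A.mul_mem c.2 hx, mul_assoc _ _ _⟩)
    D
    (((hD.prod (N_finite (Γ := Γ) hD 1))).subset fun e he =>
      have k : e.1 ∈ Cx Γ U D := ⟨he.2.1, e.2, he.2.2.1, he.2.2.2, he.1⟩
      ⟨k, e.1, k, he.2.2.2⟩)
    ((inj _ i1).mono (by
      rintro _ ⟨c, hc, rfl⟩
      exact ⟨hc.2, c, hc.1, rfl⟩))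
    ((inj _ i2).mono (by
      rintro _ ⟨c, hc, rfl⟩
      exact ⟨⟨c, hc.1, rfl⟩, hc.2⟩))
  have hM : (Cx Γ U M).Finite := (c0.image Prod.fst).subset
    fun z ⟨hz, y, hy, hd, hn⟩ => ⟨(z, y), ⟨hn, hz, hy, hd⟩, rfl⟩
  refine ⟨M, hM, fun x0 hx0 => ?_⟩
  have hN : NC A U (fun p => p ∈ M) x0 := by
    refine ⟨hx0, hA, fun c hc => ?_, fun p hp q hq => sep_fin hU hA hM hp hq, fun b => ?_, tf⟩
    · rcases c3 ⟨c, hc⟩ with k | k | k | k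
      · exact ⟨True, False, fun p _ k1 k2 => k2.mp (k p (k1.mpr trivial))⟩
      · exact ⟨True, True, fun p _ k1 k2 => k p (k1.mpr trivial) (k2.mpr trivial)⟩
      · exact ⟨False, False, fun p hp k1 k2 => k2.mp (k p hp k1.mp)⟩
      · exact ⟨False, True, fun p hp k1 k2 => k p hp k1.mp (k2.mpr trivial)⟩
    · have hf := (sep_fin hU hA hM hp hx0).image (· * p)
      by_cases hb : b
      · obtain ⟨_, ⟨k1, c, hc, rfl⟩, k2⟩ := (c1.sdiff hf).nonempty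
        exact ⟨c, hc, iff_of_true (by_contra fun k3 => k2 ⟨c, ⟨hc, fun e => k3 (e.mp k1)⟩, rfl⟩) hb⟩
      · obtain ⟨_, ⟨⟨c, hc, rfl⟩, k1⟩, k2⟩ := (c2.sdiff hf).nonempty
        exact ⟨c, hc, iff_of_false (fun k3 => k2 ⟨c, ⟨hc, fun e => k1 (e.mpr k3)⟩, rfl⟩) hb⟩
  let C' : Subgroup G :=
    { carrier := {a | a ∈ A ∧ ∀ e ∈ A, (e * (a * x0) ∈ M ↔ e * x0 ∈ M)}
      one_mem' := ⟨A.one_mem, fun e _ => by rw [one_mul]⟩
      mul_mem' := fun {a b} ha hb => ⟨A.mul_mem ha.1 hb.1, fun e he => by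
        rw [← ha.2 e he, ← mul_assoc e a, ← hb.2 _ (A.mul_mem he ha.1)]
        simp only [mul_assoc]⟩
      inv_mem' := fun {a} ha => ⟨A.inv_mem ha.1, fun e he => by
        have := ha.2 _ (A.mul_mem he (A.inv_mem ha.1))
        simp only [mul_assoc, inv_mul_cancel_left] at this
        exact this.symm⟩ }
  have hC' : ∀ a, a ∈ C' ↔ a ∈ A ∧ ∀ e ∈ A, (e * (a * x0) ∈ M ↔ e * x0 ∈ M) := fun _ => Iff.rfl
  have hle : C' ≤ A := fun _ h => h.1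
  clear_value C'
  obtain ⟨ρ, r1, r2, r3, r4, r5⟩ := hN.exists_retr hC'
  obtain ⟨f, j, f1, f2, f3, f4, f5, f6⟩ := hN.exists_fun hC'
  let ρ' : A → C' := fun c => ⟨ρ c, r1 c c.2⟩
  have s1 : ρ' 1 = 1 := Subtype.ext r2
  have s2 : ∀ a x, ρ' (Subgroup.inclusion hle a * x) = a * ρ' x := fun a x =>
    Subtype.ext (r3 a a.2 x x.2)
  have s3 : ∀ g : A, ∃ T : Set A, T.Finite ∧ ∀ c, ρ' (c * g) ≠ ρ' c →
      ∃ a, ∃ t ∈ T, c = Subgroup.inclusion hle a * t := fun g => by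
    obtain ⟨T, hT, k⟩ := r5 g g.2
    refine ⟨Subtype.val ⁻¹' T, hT.preimage Subtype.val_injective.injOn, fun c hc => ?_⟩
    obtain ⟨a, ha, t, ht, e⟩ := k c c.2 fun k1 => hc (Subtype.ext k1)
    exact ⟨⟨a, ha⟩, ⟨t, (A.mul_mem_cancel_left (hle ha)).mp (e ▸ c.2)⟩, ht, Subtype.ext e⟩
  refine ⟨C', hle, (Group.fg_iff_subgroup_fg C').mp (fg_of_retr _ ρ' s1 s2 s3
    ((Group.fg_iff_subgroup_fg A).mpr hfg)), fun a ha h => (hC' a).mpr ⟨ha, h⟩,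
    fun k hk => Iota.step _ (Subgroup.inclusion_injective hle) ρ' s1 s2
      (fun c hc a => Subtype.ext (r4 c c.2 (fun k1 => hc ⟨⟨c, k1⟩, rfl⟩) a a.2)) s3
      (fun c => if f c then 1 else 0) (fun g => ?_) (fun c a => ?_) ⟨j, f3⟩ (fun k1 => ?_) ?_ ?_
      (fun c k1 k2 => ?_) hk⟩
  · refine ((f1 g g.2).preimage Subtype.val_injective.injOn).subset fun c hc =>
      ⟨c.2, fun k1 => hc ?_⟩
    exact if_congr k1 rfl rfl
  · exact if_congr (f2 c c.2 a a.2) rfl rfl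
  · rw [tf j (A.subtype.isOfFinOrder k1)] at f4
    exact f5 f4
  · change (if f j then 1 else 0 : ℤ) = (if f 1 then 1 else 0) + 1
    rw [if_pos f4, if_neg f5, zero_add]
  · change (if f 1 then 1 else 0 : ℤ) = (if f j⁻¹ then 1 else 0) ∨
      (if f 1 then 1 else 0 : ℤ) + 1 = if f j⁻¹ then 1 else 0
    rw [if_neg f5]
    split_ifs
    · exact Or.inr (zero_add 1)
    · exact Or.inl rfl
  · exact if_congr (f6 c c.2 (fun k3 => k1 (Subtype.ext k3)) fun k3 => k2 (Subtype.ext k3)) rfl rfl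

end FixIn

open Gen FixIn

variable {G : Type} [Group G] {Γ : Gen G} {L : Subgroup G} {U : Set G} {j : ℕ}

/-- A deep component inside `U` on which every finite cut of `U` is almost constant. -/
theorem fix_in (h1 : OE (⊤ : Subgroup G)) (tf : ∀ g : G, IsOfFinOrder g → g = 1)
    (hL : (L : Set G).Infinite) (hU : Γ.Comp (Γ.N j L) U) (hd : ¬ Γ.Near U L)
    (hfg : (blk L U).FG) :
    ∃ t, j ≤ t ∧ ∃ P, Γ.Comp (Γ.N t L) P ∧ P ⊆ U ∧ ¬ Γ.Near P L ∧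
      ∀ D, (Cx Γ U D).Finite → (P ∩ D).Finite ∨ (P \ D).Finite := by
  have hc : ∀ p ∈ U, ∀ q ∈ U, Γ.Conn Uᶜ p q := fun p hp q hq => hU.conn hp hq
  obtain ⟨d, hd'⟩ := Iota.bdd (blk L U) ((Group.fg_iff_subgroup_fg _).mpr hfg)
  have key : ∀ m, ∀ (A : Subgroup G) (t : ℕ) (P : Set G), A.FG → A ≤ blk L U → j ≤ t →
      Γ.Comp (Γ.N t L) P → P ⊆ U → ¬ Γ.Near P L → blk L P ≤ A → (∀ k, Iota A k → k < m) →
      ∃ t, j ≤ t ∧ ∃ P, Γ.Comp (Γ.N t L) P ∧ P ⊆ U ∧ ¬ Γ.Near P L ∧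
        ∀ D, (Cx Γ U D).Finite → (P ∩ D).Finite ∨ (P \ D).Finite := by
    intro m
    induction m with
    | zero => exact fun A _ _ _ _ _ _ _ _ _ hk => absurd (hk 0 (Iota.zero A)) (by omega)
    | succ m ih =>
      intro A t P a1 a2 a3 a4 a5 a6 a7 hk
      by_cases h : ∀ D, (Cx Γ U D).Finite → (P ∩ D).Finite ∨ (P \ D).Finite
      · exact ⟨t, a3, P, a4, a5, a6, h⟩
      obtain ⟨D, h⟩ := not_forall.mp h
      obtain ⟨hD, h⟩ := Classical.not_imp.mp h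
      obtain ⟨i1, i2⟩ := not_or.mp h
      have hA : ∀ c ∈ A, ∀ p ∈ U, c * p ∈ U := fun c hc p hp => blk_mul (a2 hc) hp
      obtain ⟨p, hp⟩ := hU.ne
      obtain ⟨D', hD', hs⟩ := step tf a1 hc hA hD hp (side_inf h1 hL hc hA a4 a5 a7 hD i1 hp)
        (side_inf (D := Dᶜ) h1 hL hc hA a4 a5 a7 (by rwa [Cx_compl]) i2 hp)
      obtain ⟨r, hr⟩ := bdd_of_finite (Γ := Γ) hD' 1
      obtain ⟨Q, b1, b2, b3⟩ := deep_sub (s := t + r) a4 a6 (by omega)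
      obtain ⟨x, hx⟩ := b1.ne
      obtain ⟨A', c1, c2, c3, c4⟩ := hs x (a5 (b2 hx))
      refine ih A' (t + r) Q c2 (c1.trans a2) (by omega) b1 (b2.trans a5) b3 (fun a ha => ?_)
        fun k hk' => by
          have := hk _ (c4 k hk')
          omega
      refine c3 a (a7 (blk_mono a4 ⟨x, hx⟩ b2 ha)) fun e he => ?_
      refine (b1.conn hx (blk_mul ha hx)).ind (P := fun y => (e * y ∈ D' ↔ e * x ∈ D')) Iff.rfl
        fun y z hy hz hd k => Iff.trans (by_contra fun k' => ?_) k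
      have hy' : y ∈ Q := not_not.mp hy
      have hz' : z ∈ Q := not_not.mp hz
      have k1 := hr (e * y) ⟨hA e he y (a5 (b2 hy')), e * z, hA e he z (a5 (b2 hz')),
        by rwa [d_mul], fun k2 => k' k2.symm⟩
      exact b1.out hy' ((mul_mem_N (a2 he).1).mp ⟨1, L.one_mem, by omega⟩)
  exact key (d + 1) (blk L U) j U hfg le_rfl le_rfl hU subset_rfl hd le_rfl
    fun k hk => Nat.lt_succ_of_le (hd' k hk)

/-- The same for functions. -/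
theorem fix_in_fun (h1 : OE (⊤ : Subgroup G)) (tf : ∀ g : G, IsOfFinOrder g → g = 1)
    (hL : (L : Set G).Infinite) (hU : Γ.Comp (Γ.N j L) U) (hd : ¬ Γ.Near U L)
    (hfg : (blk L U).FG) :
    ∃ t, j ≤ t ∧ ∃ P, Γ.Comp (Γ.N t L) P ∧ P ⊆ U ∧ ¬ Γ.Near P L ∧
      ∀ (B : Type) (u : G → B), {p | p ∈ U ∧ ∃ q ∈ U, Γ.d p q ≤ 1 ∧ u p ≠ u q}.Finite →
        ∃ a, {p | p ∈ P ∧ u p ≠ a}.Finite := by
  obtain ⟨t, ht, P, a1, a2, a3, h⟩ := fix_in h1 tf hL hU hd hfg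
  refine ⟨t, ht, P, a1, a2, a3, fun B u hu => ?_⟩
  obtain ⟨x, hx⟩ := hU.ne
  have hv : ∀ p ∈ U, u p ∈ insert (u x) (u '' {p | p ∈ U ∧ ∃ q ∈ U, Γ.d p q ≤ 1 ∧ u p ≠ u q}) :=
    fun p hp => (hU.conn hx hp).ind
      (P := fun y => u y ∈ insert (u x) (u '' {p | p ∈ U ∧ ∃ q ∈ U, Γ.d p q ≤ 1 ∧ u p ≠ u q}))
      (Or.inl rfl) fun a b ha hb hd k => by
        by_cases e : u b = u a
        · rwa [e]
        · exact Or.inr ⟨b, ⟨not_not.mp hb, a, not_not.mp ha, by rwa [d_comm], e⟩, rfl⟩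
  by_contra hn
  have h2 : ∀ a ∈ insert (u x) (u '' {p | p ∈ U ∧ ∃ q ∈ U, Γ.d p q ≤ 1 ∧ u p ≠ u q}),
      (P ∩ {p | u p = a}).Finite := fun a _ =>
    (h {p | u p = a} (hu.subset fun p ⟨hp, q, hq, hd, e⟩ => ⟨hp, q, hq, hd, fun e' => e (by
      simp only [Set.mem_ofPred_eq, e'])⟩)).resolve_right fun e => hn ⟨a, e⟩
  have h3 : P.Finite := (((hu.image u).insert (u x)).biUnion h2).subset fun p hp =>
    Set.mem_biUnion (hv p (a2 hp)) ⟨hp, rfl⟩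
  obtain ⟨r, hr⟩ := bdd_of_finite (Γ := Γ) h3 1
  exact a3 ⟨r, fun p hp => ⟨1, L.one_mem, hr p hp⟩⟩

end Pool.Agent.Lib.MP_d98eb9_al.W
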