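import Pool.Agent.Lib.MP_d98eb9_al.W.Rank

/-! Potentials for a subgroup that fixes a complementary component. -/

namespace Pool.Agent.Lib.MP_d98eb9_al.W

open MonoidAlgebra Gen

variable {G : Type} [Group G] {Γ : Gen G} {X : Geo Γ} {J : Subgroup G}
  {D : Dual Γ X.w X.d1 J} {k : ℕ} {t : Fin k → J}

/-- Finitely many cochains are supported near the subgroup. -/
theorem Alpha.supp_fin (α : Alpha X D t) {T : Type} [Finite T] (p : T → LinearMap.ker (bd t)) :
    ∃ r, ∀ j g i, g ∉ Γ.N r J → co (α.α2 (p j)).ev (e g i) = 0 := by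
  obtain ⟨r, hr⟩ := bdd_of_finite (Γ := Γ) (Set.finite_iUnion fun j => co_finite (α.α2 (p j)).ev) 1
  exact ⟨r, fun j g i hg => by_contra fun h =>
    hg ⟨1, J.one_mem, hr g (Set.mem_iUnion.mpr ⟨j, i, h⟩)⟩⟩

/-- A relation with coefficients in a right module gives an equivariant potential that vanishes on
an invariant component. -/
theorem Alpha.pot_end (α : Alpha X D t) {A : Type} [AddCommGroup A] (act : A →+ ZG J →+ A)
    (hmul : ∀ a r s, act (act a r) s = act a (r * s)) {T : Type} [Fintype T] (a : T → A)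
    (p : T → LinearMap.ker (bd t)) (h0 : ∀ i, ∑ j, act (a j) ((p j).1 i) = 0) {r : ℕ}
    (hr : ∀ j g i, g ∉ Γ.N r J → co (α.α2 (p j)).ev (e g i) = 0) {P : Set G}
    (hP : Γ.Comp (Γ.N r J) P) (hP' : ∀ c ∈ J, tr c P = P) :
    ∃ u : G → A, (∀ x, ∑ j, act (a j) (prAt X.w J x (α.α2 (p j))) = lsum u (bd Γ.s x)) ∧
      (∀ (c : J) g, u (c * g) = act (u g) (single c⁻¹ (X.w c))) ∧
      (∀ g i, g ∉ Γ.N r J → u (g * Γ.s i) = u g) ∧ ∀ g ∈ P, u g = 0 := by
  have h1 : ∀ ν : (Fin k →₀ ZG J) →ₗ[ZG J] ZG J, ∑ j, act (a j) (ν (p j)) = 0 :=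
    Rep.rel_map (fun j => act (a j)) (fun j => (p j).1) fun i r => by
      have := congrArg (fun x => act x r) (h0 i)
      simpa [hmul] using this
  let Φ : Fr G Γ.n →+ A := ∑ j, (act (a j)).comp ((pr X.w J).comp
    (α.α2 (p j)).ev.toAddMonoidHom)
  have hΦ : ∀ x, Φ x = ∑ j, act (a j) (prAt X.w J x (α.α2 (p j))) := fun x => by simp [Φ]
  obtain ⟨u0, hu0⟩ := exists_pot Γ.s Γ.gen Φ fun x hx => by
    obtain ⟨z, rfl⟩ := (X.ex1 x).mp hx
    rw [hΦ, ← h1 (prAt X.w J z ∘ₗ α.α1)]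
    exact Finset.sum_congr rfl fun j _ => by rw [LinearMap.comp_apply, ← α.h2]; rfl
  obtain ⟨x0, hx0⟩ := hP.ne
  obtain ⟨u, hu1, hu⟩ : ∃ u : G → A, u x0 = 0 ∧ ∀ x, Φ x = lsum u (bd Γ.s x) :=
    ⟨fun g => u0 g - u0 x0, sub_self _, fun x => (hu0 x).trans
      (fr_ext (φ := (lsum u0).comp (bd Γ.s).toAddMonoidHom)
        (ψ := (lsum fun g => u0 g - u0 x0).comp (bd Γ.s).toAddMonoidHom)
        (fun g i => by simp [bd_e]) x)⟩
  have he : ∀ g i, Φ (e g i) = u (g * Γ.s i) - u g := fun g i => by simp [hu, bd_e]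
  have h4 : ∀ g i, g ∉ Γ.N r J → u (g * Γ.s i) = u g := fun g i hg => by
    rw [← sub_eq_zero, ← he, hΦ]
    refine Finset.sum_eq_zero fun j _ => ?_
    rw [prAt_eq_zero (Z := Γ.N r J) (fun c hc g hg => (mul_mem_N hc).mpr hg) _ (hr j) hg, map_zero]
  have h5 : ∀ g ∈ P, u g = 0 := fun g hg => (PD.const_conn u h4 ((hP.eq hx0).le hg)).trans hu1
  refine ⟨u, fun x => (hΦ x).symm.trans (hu x), fun c g => ?_, h4, h5⟩
  have := PD.const_conn (Γ := Γ) (fun g => u (c * g) - act (u g) (single c⁻¹ (X.w c))) (Z := ∅)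
    (fun g i _ => by
      have e1 : Φ (e (c * g) i) = act (Φ (e g i)) (single c⁻¹ (X.w c)) := by
        rw [hΦ, hΦ, map_sum, AddMonoidHom.finsetSum_apply]
        refine Finset.sum_congr rfl fun j _ => ?_
        rw [hmul, prAt_apply, prAt_apply, ← smul_e, map_smul, smul_eq_mul, pr_mul_left]
      rw [he, he, map_sub, AddMonoidHom.sub_apply, mul_assoc] at e1
      linear_combination (norm := abel) e1) (conn_empty x0 g)
  rw [hu1, h5 (c * x0) (hP' c c.2 ▸ mul_mem_tr.mpr hx0)] at this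
  simpa [sub_eq_zero] using this

/-- The certificate: if the potential of a relation agrees far from `J` with a function whose
coboundary is represented by `b`, `q`, then the relation is given by `b`, `β2 q` on `ker bd`. -/
theorem Beta.cert {α : Alpha X D t} (β : Beta α) {A : Type} [AddCommGroup A] {T T' : Type}
    [Fintype T] [Fintype T'] (a : T → ZG J →+ A) (p : T → LinearMap.ker (bd t))
    (h0 : ∀ i s, ∑ j, a j ((p j).1 i * s) = 0) (u v : G → A)
    (hu : ∀ x, ∑ j, a j (prAt X.w J x (α.α2 (p j))) = lsum u (bd Γ.s x))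
    (b : T' → ZG J →+ A) (q : T' → Du X.w J (Fr G Γ.n))
    (hv : ∀ x, lsum v (bd Γ.s x) = ∑ j, b j (prAt X.w J x (q j))) {r : ℕ}
    (hr : ∀ g, g ∉ Γ.N r J → u g = v g) (l : LinearMap.ker (bd t) →ₗ[ZG J] ZG J) :
    ∑ j, a j (l (p j)) = ∑ j, b j (l (β.β2 (q j))) := by
  have h1 : ∀ ν : (Fin k →₀ ZG J) →ₗ[ZG J] ZG J, ∑ j, a j (ν (p j)) = 0 :=
    Rep.rel_map a (fun j => (p j).1) h0
  obtain ⟨B⟩ := exists_DB (G := G) (Fr G Γ.n)
  obtain ⟨T2, _, b', q', hq⟩ := repr0 (Γ := Γ) (J := J) X.w (fun g => u g - v g)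
    fun g hg => sub_eq_zero.mpr (hr g hg)
  have h2 := PD.rel3 B a (fun j => α.α2 (p j)) b' (fun t => Du.map X.w J (bd Γ.s) (q' t)) b q
    (fun x => by
      have e1 : lsum u (bd Γ.s x) = lsum (fun g => u g - v g) (bd Γ.s x) + lsum v (bd Γ.s x) :=
        hom_ext (f' := lsum (fun g => u g - v g) + lsum v) (fun g => by simp) _
      rw [hu, e1, hq, hv]
      rfl) (l ∘ₗ β.β2)
  have h3 : ∀ t, β.β2 (Du.map X.w J (bd Γ.s) (q' t)) = 0 := fun t => Subtype.ext (by
    rw [β.hβ, show Du.map X.w J X.d1 (Du.map X.w J (bd Γ.s) (q' t)) = 0 from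
      Du.ext fun z => by simp [X.ex1.apply_apply_eq_zero], map_zero]
    rfl)
  simp only [LinearMap.comp_apply, h3, map_zero, Finset.sum_const_zero, zero_add] at h2
  rw [← h2, ← add_zero (∑ j, a j (l (β.β2 (α.α2 (p j))))), ← h1 (l ∘ₗ β.k1),
    ← Finset.sum_add_distrib]
  refine Finset.sum_congr rfl fun j _ => ?_
  conv_lhs => rw [β.hk (p j)]
  simp only [map_add, LinearMap.comp_apply]

/-- A subgroup with an invariant component at every level has infinite index. -/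
theorem not_near_of_end (hP : ∀ r, ∃ P, Γ.Comp (Γ.N r J) P ∧ ∀ c ∈ J, tr c P = P) :
    ¬ Γ.Near Set.univ J := fun ⟨r, hr⟩ => by
  obtain ⟨P, h, -⟩ := hP r
  obtain ⟨x, hx⟩ := h.ne
  exact h.out hx (hr trivial)

/-- For a subgroup that fixes an end the relation module stays embedded after tensoring with a
module without fixed vectors. -/
theorem Geo.inj_end (X : Geo Γ) (hJ : (J : Set G).Infinite)
    (ht : Subgroup.closure (Set.range t) = ⊤)
    (hP : ∀ r, ∃ P, Γ.Comp (Γ.N r J) P ∧ ∀ c ∈ J, tr c P = P) {A : Type} [AddCommGroup A]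
    (act : A →+ ZG J →+ A) (hmul : ∀ a r s, act (act a r) s = act a (r * s))
    (hinj : ∀ (a : A) (c : J), act a (single c⁻¹ (X.w c)) = a → a = 0 ∨ c = 1)
    {T : Type} [Fintype T] (a : T → A) (p : T → LinearMap.ker (bd t))
    (h0 : ∀ i, ∑ j, act (a j) ((p j).1 i) = 0) (l : LinearMap.ker (bd t) →ₗ[ZG J] ZG J) :
    ∑ j, act (a j) (l (p j)) = 0 := by
  have := infinite_quot (not_near_of_end hP)
  have := X.ker_proj J t ht
  obtain ⟨D⟩ := X.dual J
  obtain ⟨α⟩ := exists_alpha D t this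
  obtain ⟨β⟩ := exists_beta α ht
  obtain ⟨r, hr⟩ := α.supp_fin p
  obtain ⟨P, h1, h2⟩ := hP r
  obtain ⟨u, hu, hc, h4, -⟩ := α.pot_end act hmul a p h0 hr h1 h2
  obtain ⟨r', hr'⟩ := vanish_far (Γ := Γ) X.oe hJ u
    (fun c hc' g hg => by simpa [hg] using hc ⟨c, hc'⟩ g)
    (fun c hc' g hg e => congrArg Subtype.val
      ((hinj (u g) ⟨c, hc'⟩ ((hc ⟨c, hc'⟩ g).symm.trans e)).resolve_left hg)) h4
  simpa using β.cert (T' := Empty) (fun j => act (a j)) p (fun i s => by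
    simpa [hmul] using congrArg (fun x => act x s) (h0 i)) u (fun _ => 0) hu Empty.elim Empty.elim
    (fun x => by simpa using hom_ext (f := lsum fun _ : G => (0 : A)) (f' := 0) (by simp) _) hr' l

end Pool.Agent.Lib.MP_d98eb9_al.W
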