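import Pool.Agent.Lib.MP_d98eb9_al.W.Acyc

/-! A subgroup whose relations can be filled on either side of a wall is of type `FP_2`. -/

namespace Pool.Agent.Lib.MP_d98eb9_al.W

open MonoidAlgebra Gen

variable {G : Type} [Group G] {Γ : Gen G}

/-- Cochains supported near `J` lie in a finitely generated submodule. -/
theorem van_finite (Γ : Gen G) (w : G →* ℤ) (J : Subgroup G) (n R : ℕ) :
    ∃ S : Set (Du w J (Fr G n)), S.Finite ∧ ∀ y : Du w J (Fr G n),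
      (∀ g i, g ∉ Γ.N R J → co y.ev (e g i) = 0) → y ∈ Submodule.span (ZG J) S := by
  refine ⟨(fun x : G × Fin n => rm w J (Finsupp.lapply x.2) (single x.1⁻¹ 1)) ''
    ({f | Γ.d 1 f ≤ R} ×ˢ Set.univ), ((Gen.ball_finite (Γ := Γ) 1 R).prod Set.finite_univ).image _,
    fun y hy => ?_⟩
  have h0 : y = ∑ i : Fin n, rm w J (Finsupp.lapply i) (y.ev (e 1 i)) := (Rep.dbFr G n).dual_eq y
  rw [h0]
  refine Submodule.sum_mem _ fun i _ => ?_
  rw [← sum_coeff_single (y.ev (e 1 i)), Finsupp.sum, map_sum]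
  refine Submodule.sum_mem _ fun g hg => ?_
  obtain ⟨c, hc, hd⟩ : g⁻¹ ∈ Γ.N R J := by_contra fun h => Finsupp.mem_support_iff.mp hg (by
    have := hy _ i h
    rwa [Loc.e_eq, Loc.co_single, inv_inv] at this)
  have h1 : (single g ((y.ev (e 1 i)).coeff g) : ZG G) = ((y.ev (e 1 i)).coeff g * w c⁻¹) •
      (single (c⁻¹ * g⁻¹)⁻¹ 1 * single c⁻¹ (w c)) := by
    rw [single_mul_single, smul_single, smul_eq_mul, one_mul, mul_assoc, w_inv_mul]
    simp
  rw [h1, map_zsmul]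
  refine zsmul_mem ?_ _
  rw [rm_mul (C := J) _ _ ⟨c, hc⟩]
  exact Submodule.smul_mem _ _ (Submodule.subset_span
    ⟨(c⁻¹ * g⁻¹, i), ⟨by rwa [d_eq] at hd, trivial⟩, rfl⟩)

variable {X : Geo Γ} {J : Subgroup G} {D : Dual Γ X.w X.d1 J} {k : ℕ} {t : Fin k → J}

/-- Two chain maps differ on the relations by a coboundary with support near `J`. -/
theorem Alpha.homot (α α' : Alpha X D t) : ∃ (H : (Fin k →₀ ZG J) →ₗ[ZG J] Du X.w J (Fr G Γ.n))
    (R : ℕ), (∀ v g i, g ∉ Γ.N R J → co (H v).ev (e g i) = 0) ∧ ∀ v, bd t v = 0 →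
      α'.α1 v = α.α1 v + Du.map X.w J X.d1 (H v) := by
  obtain ⟨y0, hy0⟩ := (D.exη (D.q α'.x0 - D.q α.x0)).mp (by rw [map_sub, D.η_q, D.η_q, sub_self])
  obtain ⟨H, hH⟩ := Rep.lift (P := Fin k →₀ ZG J) inferInstance (Du.map X.w J X.d1)
    (α'.α1 - α.α1 - LinearMap.toSpanSingleton (ZG J) _ y0 ∘ₗ bd t) fun v => (D.ex2 _).mp (by
      simp only [LinearMap.sub_apply, LinearMap.comp_apply, LinearMap.toSpanSingleton_apply,
        map_sub, map_smul, α.h1, α'.h1, hy0, smul_sub, sub_self])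
  obtain ⟨R, hR⟩ := bdd_of_finite (Γ := Γ)
    (Set.finite_iUnion fun j => co_finite (H (Finsupp.single j 1)).ev) 1
  refine ⟨H, R, fun v g i hg => ?_, fun v hv => by simp [hH, hv]⟩
  refine (?_ : H v ∈ Acyc.van X.w J Γ.n (Γ.N R J)ᶜ fun c hc g hg h =>
    hg ((mul_mem_N hc).mp h)) g hg i
  rw [← Finsupp.univ_sum_single v, map_sum]
  refine Submodule.sum_mem _ fun j _ => ?_
  rw [← mul_one (v j), ← smul_eq_mul, ← Finsupp.smul_single, map_smul]
  exact Submodule.smul_mem _ _ fun g hg i => by_contra fun h =>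
    hg ⟨1, J.one_mem, hR g (Set.mem_iUnion.mpr ⟨j, i, h⟩)⟩

/-- If all relations have dual fillings near `J` then the relation module is finite. -/
theorem Alpha.finite_of_near (α : Alpha X D t) (ht : Subgroup.closure (Set.range t) = ⊤) {R : ℕ}
    (h : ∀ κ : LinearMap.ker (bd t), ∃ y, Du.map X.w J X.d1 y = α.α1 κ ∧
      ∀ g i, g ∉ Γ.N R J → co y.ev (e g i) = 0) :
    Module.Finite (ZG J) (LinearMap.ker (bd t)) := by
  obtain ⟨β⟩ := exists_beta α ht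
  obtain ⟨S, hS, hS'⟩ := van_finite Γ X.w J Γ.n R
  have := Module.Finite.span_of_finite (ZG J) hS
  refine Module.Finite.of_surjective
    ((β.β2 ∘ₗ (Submodule.span (ZG J) S).subtype).coprod β.k1) fun κ => ?_
  obtain ⟨y, h1, h2⟩ := h κ
  refine ⟨(⟨y, hS' y h2⟩, κ), ?_⟩
  conv_rhs => rw [β.hk κ]
  rw [LinearMap.coprod_apply, add_left_inj]
  exact Subtype.ext (by rw [β.hβ, α.h2, ← h1]; exact β.hβ y)

/-- The two-sided lemma. -/
theorem Alpha.two_sided (α α' : Alpha X D t) (ht : Subgroup.closure (Set.range t) = ⊤)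
    {Y : Set G} {r : ℕ} (hfr : Γ.fr Y ⊆ Γ.N r J)
    (h1 : ∀ κ : LinearMap.ker (bd t), ∃ y, Du.map X.w J X.d1 y = α.α1 κ ∧
      ∀ g i, g ∈ Y → g ∉ Γ.N r J → co y.ev (e g i) = 0)
    (h2 : ∀ κ : LinearMap.ker (bd t), ∃ y, Du.map X.w J X.d1 y = α'.α1 κ ∧
      ∀ g i, g ∉ Y → g ∉ Γ.N r J → co y.ev (e g i) = 0) :
    Module.Finite (ZG J) (LinearMap.ker (bd t)) := by
  classical
  obtain ⟨H, R, hR, hH⟩ := α.homot α'
  refine α'.finite_of_near ht (R := r + R) fun κ => ?_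
  obtain ⟨y, k1, k2⟩ := h1 κ
  obtain ⟨y', k3, k4⟩ := h2 κ
  have k5 : Du.map X.w J X.d1 (y' - y - H κ) = 0 := by
    rw [map_sub, map_sub, k1, k3, hH κ κ.2]
    abel
  obtain ⟨θ, hθ⟩ := X.H1 (y' - y - H κ).ev (LinearMap.ext fun z =>
    congrArg (fun v : Du X.w J (Fr G X.m) => v.ev z) k5)
  obtain ⟨θ', hθ'⟩ := exists_co0 (lsum fun g => if g ∈ Y then co θ (single g 1) else 0)
    ((co_finite0 θ).subset fun g hg h => hg (by simp [h]))
  refine ⟨y' - Du.map X.w J (bd Γ.s) (Du.mk X.w J θ'), ?_, fun g i hg => ?_⟩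
  · rw [map_sub, k3, sub_eq_self]
    exact Du.ext fun z => by simp [X.ex1.apply_apply_eq_zero]
  have g1 : g ∉ Γ.N r J := fun h => hg (N_mono (by omega) subset_rfl h)
  have g2 : g ∉ Γ.N R J := fun h => hg (N_mono (by omega) subset_rfl h)
  have g3 : g ∈ Y ↔ g * Γ.s i ∈ Y := by_contra fun h => g1 (hfr ⟨_, d_gen g i, h⟩)
  have e1 : co (y' - Du.map X.w J (bd Γ.s) (Du.mk X.w J θ')).ev (e g i) =
      co y'.ev (e g i) - co θ' (bd Γ.s (e g i)) := by simp [co_apply]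
  have e2 : co θ (bd Γ.s (e g i)) = co y'.ev (e g i) - co y.ev (e g i) - co (H κ).ev (e g i) := by
    rw [co_apply, ← LinearMap.comp_apply, hθ]
    simp [co_apply]
  rw [e1, hθ', Loc.lsum_bd_e]
  by_cases hY : g ∈ Y
  · rw [if_pos hY, if_pos (g3.mp hY), ← map_sub, ← bd_e, e2, k2 g i hY g1, hR _ g i g2]
    simp
  · rw [if_neg hY, if_neg (mt g3.mpr hY), k4 g i hY g1]
    simp

end Pool.Agent.Lib.MP_d98eb9_al.W
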