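import Pool.Agent.Lib.MP_d98eb9_al.P.UndSt
import Pool.Agent.Lib.MP_d98eb9_al.P.FixIn
import Pool.Agent.Lib.MP_d98eb9_al.J.Hon

/-! Potentials beside a component without doors, and the door lemma. -/

namespace Pool.Agent.Lib.MP_d98eb9_al.W

open MonoidAlgebra Gen

variable {G : Type} [Group G] {Γ : Gen G}

namespace UndP

/-- A fixed end makes a function with finite coboundary almost constant. -/
theorem ae {J : Subgroup G} {A Q B : Set G} (hA : ∀ c ∈ J, tr c A = A)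
    (hc : ∀ p ∈ A, ∀ q ∈ A, Γ.Conn Aᶜ p q) (hQA : Q ⊆ A) {x : G}
    (hQ : ∀ c ∈ J, c * x ∈ Q) (hQc : ∀ q ∈ Q, Γ.Conn Qᶜ x q) (hB : B.Finite)
    (hQB : ∀ q ∈ Q, q ∉ B) (u : G → ℤ)
    (hu : ∀ g i, g ∈ A → g * Γ.s i ∈ A → g ∉ B → u (g * Γ.s i) = u g) :
    (∀ q ∈ Q, u q = u x) ∧ ∀ r, {p | p ∈ A ∧ p ∈ Γ.N r J ∧ u p ≠ u x}.Finite := by
  have const : ∀ {Z p q}, Γ.Conn Z p q → (∀ a, a ∉ Z → a ∈ A ∧ a ∉ B) → u q = u p :=
    fun {Z p q} hc hZ => hc.ind (P := fun a => u a = u p) rfl fun a a' ha ha' hd e0 => by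
      rcases d_le_one.mp hd with h | ⟨i, h | h⟩
      · rw [h, e0]
      · rw [h, hu a i (hZ a ha).1 (h ▸ (hZ a' ha').1) (hZ a ha).2, e0]
      · rw [← e0, h, hu a' i (hZ a' ha').1 (h ▸ (hZ a ha).1) (hZ a' ha').2]
  have c1 : ∀ q ∈ Q, u q = u x := fun q hq => const (hQc q hq) fun a ha =>
    ⟨hQA (not_not.mp ha), hQB a (not_not.mp ha)⟩
  refine ⟨c1, fun r => ?_⟩
  obtain ⟨l, hl⟩ := bdd_conn (Γ := Γ) (J := J) (Z := Aᶜ) (fun c hc => by rw [tr_compl, hA c hc])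
    r (r + Γ.d 1 x)
  refine (N_finite (Γ := Γ) hB l).subset fun p ⟨hp, hr, hne⟩ => by_contra fun hp' => hne ?_
  obtain ⟨c, hc', hd⟩ := id hr
  have d1 := d_tri (Γ := Γ) p c (c * x)
  rw [d_mul_right, d_comm p c] at d1
  rw [← c1 _ (hQ c hc')]
  refine (const (hl p hr (c * x) (by omega) (hc p hp _ (hQA (hQ c hc')))) fun a ha =>
    ⟨not_not.mp fun h => ha (Or.inl h), fun h => hp' ⟨a, h, ?_⟩⟩).symm
  rw [d_comm]
  exact not_lt.mp fun h => ha (Or.inr h)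

/-- Potentials on the complement of `W`. -/
theorem pot2 (X : Geo Γ) {J : Subgroup G} {W : Set G} {R : ℕ} (hR : Γ.fr W ⊆ Γ.N R J)
    (hU : Und1 X J W) (r : ℕ) :
    ∃ r', ∀ y : Fr G Γ.n →ₗ[ZG G] ZG G, (∀ g k, g ∈ Γ.N r' J ∪ Wᶜ → co y (X.d1 (e g k)) = 0) →
      ∃ u : G → ℤ, ∀ g i, g ∈ Γ.N r J ∪ Wᶜ → co y (e g i) = u (g * Γ.s i) - u g := by
  classical
  obtain ⟨ρ, hρ⟩ := loc_map Γ X.d1
  obtain ⟨r', h⟩ := hU (r + (R + ρ) + 1)
  refine ⟨r', fun y hφ => ?_⟩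
  obtain ⟨u, hu0⟩ := pot_on _ (co y) (h y hφ)
  have hu : ∀ g i, g ∈ Γ.N (r + (R + ρ)) J → co y (e g i) = u (g * Γ.s i) - u g := fun g i hg =>
    hu0 g i (N_mono (by omega) subset_rfl hg) (mem_N_of_d hg (d_gen g i))
  generalize co y = φ at hφ hu
  let y1 : Fr G Γ.n →+ ℤ := φ - (lsum u).comp (bd Γ.s).toAddMonoidHom
  have e1 : ∀ g i, y1 (e g i) = φ (e g i) - (u (g * Γ.s i) - u g) := fun g i => by
    change φ _ - lsum u (bd Γ.s _) = _
    rw [Loc.lsum_bd_e]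
  have e2 : ∀ g i, g ∈ Γ.N (r + (R + ρ)) J → y1 (e g i) = 0 := fun g i hg => by
    rw [e1, hu g i hg, sub_self]
  have e3 : ∀ x, y1 (X.d1 x) = φ (X.d1 x) := fun x => by
    change φ _ - lsum u (bd Γ.s _) = _
    rw [X.ex1.apply_apply_eq_zero, map_zero, sub_zero]
  let z : Fr G Γ.n →+ ℤ := ofFun fun g i => if g ∈ W then 0 else y1 (e g i)
  have e4 : ∀ g i, z (e g i) = if g ∈ W then 0 else y1 (e g i) := fun g i => ofFun_e _ g i
  obtain ⟨w, hw⟩ := exists_pot Γ.s Γ.gen z fun x hx => by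
    obtain ⟨x, rfl⟩ := (X.ex1 x).mp hx
    refine fr_ext (φ := z.comp X.d1.toAddMonoidHom) (ψ := 0) (fun g k => ?_) x
    change z (X.d1 (e g k)) = 0
    by_cases hg : g ∈ W
    · refine hρ ℤ z g k fun p i hp => ?_
      rw [e4]
      split_ifs with h8
      · rfl
      · exact e2 p i (N_mono (by omega) subset_rfl (HonP.cross hR hp fun h9 => h8 (h9.1 hg)))
    · rw [← hφ g k (Or.inr hg), ← e3, ← sub_eq_zero]
      refine hρ ℤ (z - y1) g k fun p i hp => ?_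
      rw [AddMonoidHom.sub_apply, e4]
      split_ifs with h8
      · rw [e2 p i (N_mono (by omega) subset_rfl (HonP.cross hR hp fun h9 => hg (h9.2 h8))),
          sub_self]
      · exact sub_self _
  refine ⟨fun g => u g + w g, fun g i hg => ?_⟩
  have e5 := hw (e g i)
  have e6 := e1 g i
  rw [Loc.lsum_bd_e, e4] at e5
  split_ifs at e5 with h8
  · rw [e2 g i (N_mono (by omega) subset_rfl (hg.resolve_right fun h => h h8))] at e6
    linarith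
  · linarith

theorem comp_tr {J : Subgroup G} {r : ℕ} {E : Set G} (hE : Γ.Comp (Γ.N r J) E) {c : G}
    (hc : c ∈ J) : Γ.Comp (Γ.N r J) (tr c E) := by
  have := hE.tr c
  rwa [tr_N, tr_subgroup hc] at this

/-- A fixed end outside `W` makes the potentials almost constant. -/
theorem acyc2 (X : Geo Γ) {J : Subgroup G} (hfg : J.FG) {W : Set G} {R : ℕ}
    (hR : Γ.fr W ⊆ Γ.N R J) (hU : Und1 X J W)
    (hE : ∀ r, ∃ Q, Γ.Comp (Γ.N r J) Q ∧ (∀ k ∈ J, tr k Q = Q) ∧ ¬ Q ⊆ W) (r : ℕ) :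
    ∃ r', ∀ y : Fr G Γ.n →ₗ[ZG G] ZG G, (∀ g k, g ∈ Γ.N r' J ∪ Wᶜ → co y (X.d1 (e g k)) = 0) →
      ∃ θ : ZG G →ₗ[ZG G] ZG G, ∀ g i, g ∈ Γ.N r J →
        co y (e g i) = co θ (bd Γ.s (e g i)) := by
  classical
  obtain ⟨R1, h1⟩ := (fg_iff_rc (Γ := Γ)).mp hfg
  obtain ⟨r0, a0, a1, a2⟩ : ∃ r0, R ≤ r0 ∧ R1 ≤ r0 ∧ r + 1 ≤ r0 := ⟨R + R1 + r + 1, by omega⟩
  obtain ⟨r', h⟩ := pot2 X hR hU r0
  refine ⟨r', fun y hy => ?_⟩
  obtain ⟨u, hu⟩ := h y hy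
  have hB := co_finite y
  obtain ⟨b, hb⟩ := bdd_of_finite (Γ := Γ) hB 1
  obtain ⟨Q, q1, q2, q3⟩ := hE (r0 + b)
  obtain ⟨x, hx⟩ := q1.ne
  have hx0 : x ∉ Γ.N r0 J := fun h => q1.out hx (N_mono (by omega) subset_rfl h)
  have hE' : Γ.Comp (Γ.N r0 J) {q | Γ.Conn (Γ.N r0 J) x q} := ⟨x, hx0, rfl⟩
  set E := {q | Γ.Conn (Γ.N r0 J) x q} with eE
  have hQE : Q ⊆ E := fun q hq => ((q1.eq hx).le hq).mono (N_mono (by omega) subset_rfl)
  have hxJ : ∀ c ∈ J, c * x ∈ Q := fun c hc => (q2 c hc).le (mul_mem_tr.mpr hx)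
  have hEW : E ⊆ Wᶜ := fun p hp hpW => q3 fun q hq =>
    Conn.mem ((hE'.eq hp).le (hQE hq)) (fun z hz => N_mono a0 subset_rfl (hR hz.2)) hpW
  have hEJ : ∀ c ∈ J, tr c E = E := fun c hc =>
    (comp_tr hE' hc).disj hE' (mul_mem_tr.mpr (Conn.refl _ _)) (hQE (hxJ c hc))
  have c2 : ∀ p ∈ Γ.N r0 J ∪ E, Γ.Conn (Γ.N r0 J ∪ E)ᶜ p x := fun p hp => by
    rcases hp with hp | hp
    · obtain ⟨a, ⟨a', hd, hn⟩, ha, -⟩ := exists_fr (Γ := Γ) (hQE hx) fun h => hE'.out h hp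
      have ha' := hE'.adj ha (by tauto) hd
      have k1 : Γ.Conn (Γ.N r0 J ∪ E)ᶜ p a' :=
        (conn_N h1 a1 hp ha').mono fun z hz h => hz (Or.inl h)
      have k2 : Γ.Conn (Γ.N r0 J ∪ E)ᶜ a' a :=
        Conn.single (fun h => h (Or.inl ha')) (fun h => h (Or.inr ha)) (by rwa [d_comm])
      exact (k1.trans k2).trans ((hE'.conn ha (hQE hx)).mono fun z hz h => hz (Or.inr h))
    · exact (hE'.conn hp (hQE hx)).mono fun z hz h => hz (Or.inr h)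
  have c3 := (ae (Γ := Γ) (J := J) (A := Γ.N r0 J ∪ E) (fun c hc => by
      change tr c (Γ.N r0 J) ∪ tr c E = _
      rw [tr_N, tr_subgroup hc, hEJ c hc]) (fun p hp q hq => (c2 p hp).trans (c2 q hq).symm)
    (fun q hq => Or.inr (hQE hq)) hxJ (fun q hq => q1.conn hx hq) hB
    (fun q hq h => q1.out hq ⟨1, J.one_mem, (hb q h).trans (by omega)⟩) u fun g i hg _ hg' => by
      have k1 := hu g i (hg.imp id fun h => hEW h)
      have k2 : co y (e g i) = 0 := by_contra fun h => hg' ⟨i, h⟩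
      omega).2 r0
  obtain ⟨θ, hθ⟩ := exists_co0 (lsum fun g => if g ∈ Γ.N r0 J then u g - u x else 0)
    (c3.subset fun g hg => by
      simp only [Set.mem_ofPred_eq, lsum_single, one_smul] at hg
      split_ifs at hg with h2
      · exact ⟨Or.inl h2, h2, sub_ne_zero.mp hg⟩
      · exact absurd rfl hg)
  refine ⟨θ, fun g i hg => ?_⟩
  have g1 : g ∈ Γ.N r0 J := N_mono (by omega) subset_rfl hg
  have g2 : g * Γ.s i ∈ Γ.N r0 J := N_mono a2 subset_rfl (mem_N_of_d hg (d_gen g i))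
  rw [hθ, Loc.lsum_bd_e, if_pos g1, if_pos g2, hu g i (Or.inl g1)]
  ring

/-- A map from a finite module has values supported near `J`. -/
theorem supp {w : G →* ℤ} {J : Subgroup G} {M : Type} [AddCommGroup M] [Module (ZG J) M]
    [hf : Module.Finite (ZG J) M] {n : ℕ} (f : M →ₗ[ZG J] Du w J (Fr G n)) :
    ∃ R, ∀ v g i, g ∉ Γ.N R J → co (f v).ev (e g i) = 0 := by
  obtain ⟨s, hs⟩ := hf.fg_top
  obtain ⟨R, hR⟩ := Γ.bdd_of_finite (s.finite_toSet.biUnion fun κ _ => co_finite (f κ).ev) 1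
  refine ⟨R, fun v g i hg => ?_⟩
  have h1 : Submodule.span (ZG J) (s : Set M) ≤
      (Acyc.van w J n (Γ.N R J)ᶜ fun c hc g hg h => hg ((mul_mem_N hc).mp h)).comap f :=
    Submodule.span_le.mpr fun κ hκ g hg i => by_contra fun hne =>
      hg ⟨1, J.one_mem, hR g (Set.mem_biUnion hκ ⟨i, hne⟩)⟩
  exact h1 (hs ▸ Submodule.mem_top) g hg i

/-- A path gives a chain. -/
theorem chain {Z : Set G} {p q : G} (h : Γ.Conn Z p q) : ∃ x : Fr G Γ.n,
    bd Γ.s x = single q 1 - single p 1 ∧ ∀ (φ : Fr G Γ.n →+ ℤ) (u : G → ℤ),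
      (∀ g i, g ∉ Z → g * Γ.s i ∉ Z → φ (e g i) = u (g * Γ.s i) - u g) → φ x = u q - u p := by
  induction h with
  | refl => exact ⟨0, by simp, fun φ _ _ => by simp⟩
  | @tail a b _ h2 ih =>
    obtain ⟨x, hx, hφ⟩ := ih
    rcases d_le_one.mp h2.2.2 with h | ⟨i, h | h⟩
    · exact ⟨x, by rw [hx, h], by rwa [h]⟩
    · refine ⟨x + e a i, ?_, fun φ u h0 => ?_⟩
      · rw [map_add, hx, bd_e, h]
        abel
      · rw [map_add, hφ φ u h0, h0 a i h2.1 (h ▸ h2.2.1), h]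
        ring
    · refine ⟨x - e b i, ?_, fun φ u h0 => ?_⟩
      · rw [map_sub, hx, bd_e, h]
        abel
      · rw [map_sub, hφ φ u h0, h0 b i h2.2.1 (h ▸ h2.1), h]
        ring

/-- The door lemma. -/
theorem door (X : Geo Γ) {L : Subgroup G} (hfg : L.FG) (hinf : ¬ Γ.Near Set.univ L) {U0 : Set G}
    (hU : Und2 X L U0) : ∃ ρ, ∀ j, ρ ≤ j → ∀ U, U ⊆ U0 → Γ.Comp (Γ.N j L) U → ∀ t, j ≤ t →
      ∀ C1 C2, C1 ⊆ U → C2 ⊆ U → Γ.Comp (Γ.N t L) C1 → Γ.Comp (Γ.N t L) C2 → ¬ Γ.Near C1 L →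
        ¬ Γ.Near C2 L → C1 ≠ C2 → ∃ D : Set G, (FixIn.Cx Γ U D).Finite ∧ (C1 ∩ D).Infinite ∧
          (C2 \ D).Infinite := by
  classical
  obtain ⟨k, τ, hτ⟩ := exists_gen_family hfg
  obtain ⟨D⟩ := X.dual L
  have := infinite_quot hinf
  obtain ⟨α⟩ := exists_alpha D τ (X.ker_proj L τ hτ)
  obtain ⟨β⟩ := exists_beta α hτ
  obtain ⟨c0, hc0⟩ := supp (Γ := Γ) α.α1
  obtain ⟨ρ, hρ⟩ := hU c0
  refine ⟨ρ, fun j hj U hU0 hUc t ht C1 C2 s1 s2 c1 c2 d1 d2 hne => ?_⟩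
  let u : G → ℤ := fun g => if g ∈ C1 then 1 else 0
  obtain ⟨T, _, a, q, h⟩ := repr (Γ := Γ) (J := L) X.w ((lsum u).comp (bd Γ.s).toAddMonoidHom)
    (r := t + 1) fun g i hg => by
      have : g * Γ.s i ∈ C1 ↔ g ∈ C1 := by_contra fun hn =>
        hg (N_N subset_rfl (c1.fr_subset ⟨_, d_gen g i, fun h => hn h.symm⟩))
      simp [bd_e, u, this]
  obtain ⟨v, r, hv, h2⟩ := β.pot u a q h
  obtain ⟨b, hb⟩ := bdd_of_finite (Γ := Γ)
    (Set.finite_iUnion fun τ : T => co_finite (α.α2 (β.β2 (q τ))).ev) 1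
  obtain ⟨C1', e2, e1, e3⟩ := FixIn.deep_sub c1 d1 (s := t + r + b) (by omega)
  obtain ⟨C2', f2, f1, f3⟩ := FixIn.deep_sub c2 d2 (s := t + r + b) (by omega)
  obtain ⟨p1, hp1⟩ := e2.ne
  obtain ⟨p2, hp2⟩ := f2.ne
  obtain ⟨x, hx, hx'⟩ := chain (hUc.conn (s1 (e1 hp1)) (s2 (f1 hp2)))
  have h3 := h2 x
  rw [hx, map_sub, map_sub, lsum_single, lsum_single, lsum_single, lsum_single,
    hv p1 fun h => e2.out hp1 (N_mono (by omega) subset_rfl h),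
    hv p2 fun h => f2.out hp2 (N_mono (by omega) subset_rfl h)] at h3
  simp only [u, if_pos (e1 hp1), if_neg fun h => hne (c1.disj c2 h (f1 hp2))] at h3
  obtain ⟨κ, c, hκ, hc⟩ : ∃ (κ : LinearMap.ker (bd τ)) (c : L), (∃ τ, κ = β.β2 (q τ)) ∧
      co (α.α2 κ).ev ((single ((c⁻¹ : L) : G) 1 : ZG G) • x) ≠ 0 := by
    by_contra hn
    rw [Finset.sum_eq_zero fun τ _ => by
      rw [prAt_apply, Rep.pr_eq_zero fun c hc hJ => hn ⟨_, ⟨c, hJ⟩, ⟨τ, rfl⟩, by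
        rw [Loc.co_single]
        simpa using Finsupp.mem_support_iff.mp hc⟩, map_zero]] at h3
    simp at h3
  let y := (α.α2 ((single c 1 : ZG L) • κ)).ev
  have hy : ∀ z, co y z = X.w c * co (α.α2 κ).ev ((single ((c⁻¹ : L) : G) 1 : ZG G) • z) :=
    fun z => by
      rw [← co_smul c, smul_smul, single_mul_single, ← map_smul]
      simp [y, ← one_def]
  have hyb : ∀ g i, g ∉ Γ.N b L → co y (e g i) = 0 := fun g i hg => by
    obtain ⟨τ, rfl⟩ := hκ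
    rw [hy, smul_e]
    refine mul_eq_zero_of_right _ (by_contra fun h => hg ((mul_mem_N (c⁻¹).2).mp
      ⟨1, L.one_mem, hb _ (Set.mem_iUnion.mpr ⟨τ, i, h⟩)⟩))
  obtain ⟨f, hf⟩ := pot_on U (co y) fun z hz hs => hρ y (fun g l hg => by
      have := hc0 ((single c 1 : ZG L) • κ : LinearMap.ker (bd τ)) g l hg
      rw [← α.h2] at this
      exact this) z hz
    (hs.mono fun p hp => ⟨hU0 hp, fun h => hUc.out hp (N_mono hj subset_rfl h)⟩)
  have const : ∀ C', C' ⊆ U → Γ.Comp (Γ.N (t + r + b) L) C' → ∀ p ∈ C', ∀ p' ∈ C', f p' = f p :=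
    fun C' s c' p hp p' hp' => (c'.conn hp hp').ind (P := fun a => f a = f p) rfl
      fun a a' ha ha' hd e0 => by
        have k : ∀ a i, a ∈ C' → a * Γ.s i ∈ C' → f (a * Γ.s i) = f a := fun a i h1 h2 => by
          have := hf a i (s h1) (s h2)
          rw [hyb a i fun h => c'.out h1 (N_mono (by omega) subset_rfl h)] at this
          omega
        rcases d_le_one.mp hd with h | ⟨i, h | h⟩
        · rw [h, e0]
        · rw [h, k a i (not_not.mp ha) (h ▸ not_not.mp ha'), e0]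
        · rw [← e0, h, k a' i (not_not.mp ha') (h ▸ not_not.mp ha)]
  have hne2 : f p2 ≠ f p1 := fun h0 => by
    have := hx' (co y) f fun g i h1 h2 => hf g i (not_not.mp h1) (not_not.mp h2)
    rw [h0, sub_self, hy] at this
    refine (mul_eq_zero.mp this).elim (fun h => ?_) hc
    have := w_mul_inv X.w (c : G)
    rw [h, zero_mul] at this
    exact zero_ne_one this
  refine ⟨{p | f p = f p1}, ?_,
    fun h => e3 (OneEndA.near_of_finite (h.subset fun p hp =>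
      ⟨e1 hp, const C1' (e1.trans s1) e2 p1 hp1 p hp⟩)),
    fun h => f3 (OneEndA.near_of_finite (h.subset fun p hp =>
      ⟨f1 hp, fun h => hne2 ((const C2' (f1.trans s2) f2 p hp p2 hp2).trans h)⟩))⟩
  refine (N_finite (Γ := Γ) (co_finite y) 1).subset fun p ⟨m1, q, m2, hd, hn⟩ => ?_
  rcases d_le_one.mp hd with h | ⟨i, h | h⟩
  · exact absurd (by rw [h]) hn
  · refine ⟨p, ⟨i, fun h0 => hn ?_⟩, by simp⟩
    have := hf p i m1 (h ▸ m2)
    rw [h0, ← h] at this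
    change f p = _ ↔ f q = _
    rw [show f q = f p by omega]
  · refine ⟨q, ⟨i, fun h0 => hn ?_⟩, by rwa [d_comm]⟩
    have := hf q i m2 (h ▸ m1)
    rw [h0, ← h] at this
    change f p = _ ↔ f q = _
    rw [show f q = f p by omega]

end UndP

end Pool.Agent.Lib.MP_d98eb9_al.W
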