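import Pool.Agent.Lib.MP_d98eb9_al.W.Loc

/-! Components without doors: definitions, and potentials on a set. -/

namespace Pool.Agent.Lib.MP_d98eb9_al.W

open MonoidAlgebra

variable {G : Type} [Group G] {Γ : Gen G}

/-- The chain `z` only involves cells based in `Z`. -/
def Supp {n : ℕ} (Z : Set G) (z : Fr G n) : Prop :=
  ∀ φ : Fr G n →+ ℤ, (∀ g i, g ∈ Z → φ (e g i) = 0) → φ z = 0

/-- Cochains whose coboundary lies deep in `U` kill the cycles near `L`. -/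
def Und1 (X : Geo Γ) (L : Subgroup G) (U : Set G) : Prop :=
  ∀ c, ∃ ρ, ∀ y : Fr G Γ.n →ₗ[ZG G] ZG G,
    (∀ g k, g ∈ Γ.N ρ L ∪ Uᶜ → co y (X.d1 (e g k)) = 0) →
      ∀ z, bd Γ.s z = 0 → Supp (Γ.N c L) z → co y z = 0

/-- Cochains whose coboundary lies near `L` kill the cycles deep in `U`. -/
def Und2 (X : Geo Γ) (L : Subgroup G) (U : Set G) : Prop :=
  ∀ c, ∃ ρ, ∀ y : Fr G Γ.n →ₗ[ZG G] ZG G,
    (∀ g k, g ∉ Γ.N c L → co y (X.d1 (e g k)) = 0) →
      ∀ z, bd Γ.s z = 0 → Supp (U \ Γ.N ρ L) z → co y z = 0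

theorem Supp.mono {n : ℕ} {Z Z' : Set G} {z : Fr G n} (h : Supp Z z) (hZ : Z ⊆ Z') : Supp Z' z :=
  fun φ hφ => h φ fun g i hg => hφ g i (hZ hg)

theorem Und1.mono {X : Geo Γ} {L : Subgroup G} {U V : Set G} (h : Und1 X L U) (hV : V ⊆ U) :
    Und1 X L V := fun c => (h c).imp fun _ h y hy => h y fun g k hg =>
  hy g k (hg.imp id fun h1 h2 => h1 (hV h2))

theorem Und2.mono {X : Geo Γ} {L : Subgroup G} {U V : Set G} (h : Und2 X L U) (hV : V ⊆ U) :
    Und2 X L V := fun c => (h c).imp fun _ h y hy z hz hs =>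
  h y hy z hz (hs.mono fun _ hp => ⟨hV hp.1, hp.2⟩)

/-- A cochain that kills the cycles in `Z` has a potential on `Z`. -/
theorem pot_on (Z : Set G) (φ : Fr G Γ.n →+ ℤ) (h : ∀ z, bd Γ.s z = 0 → Supp Z z → φ z = 0) :
    ∃ u : G → ℤ, ∀ g i, g ∈ Z → g * Γ.s i ∈ Z → φ (e g i) = u (g * Γ.s i) - u g := by
  classical
  let S : Setoid G := ⟨Γ.Conn Zᶜ, Gen.Conn.refl _, Gen.Conn.symm, Gen.Conn.trans⟩
  let b : G → G := fun g => (Quotient.mk S g).out
  have hb : ∀ g, Γ.Conn Zᶜ (b g) g := fun g => Quotient.mk_out (s := S) g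
  choose γ h1 h2 using fun g => exists_chain (hb g)
  refine ⟨fun g => φ (γ g), fun g i hg hg' => ?_⟩
  have e1 : b (g * Γ.s i) = b g := congrArg Quotient.out (Quotient.sound (s := S)
    (Gen.Conn.single (Z := Zᶜ) (fun h => h hg) (fun h => h hg') (Gen.d_gen g i)).symm)
  have := h (γ g + e g i - γ (g * Γ.s i)) (by
    rw [map_sub, map_add, h1, h1, bd_e, e1]
    abel) fun ψ hψ => by
      rw [map_sub, map_add, h2 g ℤ ψ fun p j hp => hψ p j (not_not.mp hp),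
        h2 _ ℤ ψ fun p j hp => hψ p j (not_not.mp hp), hψ g i hg]
      simp
  rw [map_sub, map_add] at this
  linarith

end Pool.Agent.Lib.MP_d98eb9_al.W
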